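import Pool.Agent.Lib.MP_7f581e_Z.Ort.SpecD

/-!
# Orthogonal groups, part D, task Asa

The element of `A` defined by a semilinear similitude of `U`.
-/

set_option autoImplicit false

namespace MP7Z.Ord

open MP7Z.Ort Matrix

section abs

variable {K V H : Type} [Field K] [AddCommGroup V] [Module K V] [Group H] {G : SpD K V H}

/-- The projection to `U`. -/
def Asa_pr (h0 : G.IsS0) (v : V) : G.U :=
  ⟨v - pl G.q v G.f • G.e - pl G.q v G.e • G.f, by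
    constructor
    · rw [pl_subr, pl_subr, pl_smulr, pl_smulr, h0.ee, h0.ef, pl_comm _ G.e v]
      ring
    · rw [pl_subr, pl_subr, pl_smulr, pl_smulr, h0.ff, h0.fe, pl_comm _ G.f v]
      ring⟩

theorem Asa_pr_coe (h0 : G.IsS0) (v : V) : (Asa_pr h0 v : V) =
    v - pl G.q v G.f • G.e - pl G.q v G.e • G.f := rfl

theorem Asa_pr_add (h0 : G.IsS0) (v w : V) : Asa_pr h0 (v + w) = Asa_pr h0 v + Asa_pr h0 w := by
  apply Subtype.ext
  rw [Submodule.coe_add, Asa_pr_coe, Asa_pr_coe, Asa_pr_coe, pl_addl, pl_addl]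
  module

theorem Asa_pr_smul (h0 : G.IsS0) (c : K) (v : V) : Asa_pr h0 (c • v) = c • Asa_pr h0 v := by
  apply Subtype.ext
  rw [Submodule.coe_smul, Asa_pr_coe, Asa_pr_coe, pl_smull, pl_smull]
  module

theorem Asa_q_dec (h0 : G.IsS0) (c d : K) (u : G.U) :
    G.q (c • G.e + d • G.f + (u : V)) = c * d + G.qU u := by
  have h1 : pl G.q G.e (u : V) = 0 := u.2.1
  have h2 : pl G.q G.f (u : V) = 0 := u.2.2
  rw [q_add, q_add, q_smul, q_smul, h0.qe, h0.qf, pl_addl, pl_smull, pl_smull, pl_smull,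
    pl_smulr, h0.ef, h1, h2, SpD.qU_apply]
  ring

/-- The extension of `g`. -/
def Asa_gh (h0 : G.IsS0) (σ : K ≃+* K) (μ : K) (g : G.U → G.U) (v : V) : V :=
  (σ (pl G.q v G.f) * μ) • G.e + σ (pl G.q v G.e) • G.f + (g (Asa_pr h0 v) : V)

variable (h0 : G.IsS0) {σ : K ≃+* K} {μ : K} {g : G.U → G.U}
  (hadd : ∀ u v, g (u + v) = g u + g v) (hsm : ∀ (c : K) u, g (c • u) = σ c • g u)

include hadd in
theorem Asa_g0 : g 0 = 0 := by
  have h1 := hadd 0 0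
  rw [add_zero] at h1
  exact left_eq_add.1 h1

include hadd in
theorem Asa_gh_add (v w : V) : Asa_gh h0 σ μ g (v + w) =
    Asa_gh h0 σ μ g v + Asa_gh h0 σ μ g w := by
  rw [Asa_gh, Asa_gh, Asa_gh, Asa_pr_add, hadd, pl_addl, pl_addl, map_add, map_add,
    Submodule.coe_add]
  module

include hsm in
theorem Asa_gh_smul (c : K) (v : V) : Asa_gh h0 σ μ g (c • v) =
    σ c • Asa_gh h0 σ μ g v := by
  rw [Asa_gh, Asa_gh, Asa_pr_smul, hsm, pl_smull, pl_smull, map_mul, map_mul,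
    Submodule.coe_smul]
  module

theorem Asa_gh_q (hq : ∀ u, G.qU (g u) = μ * σ (G.qU u)) (v : V) :
    G.q (Asa_gh h0 σ μ g v) = μ * σ (G.q v) := by
  have h1 : v = pl G.q v G.f • G.e + pl G.q v G.e • G.f + (Asa_pr h0 v : V) := by
    rw [Asa_pr_coe]
    abel
  have h2 : G.q v = pl G.q v G.f * pl G.q v G.e + G.qU (Asa_pr h0 v) := by
    rw [← Asa_q_dec h0, ← h1]
  rw [h2, Asa_gh, Asa_q_dec h0, hq, map_add, map_mul]
  ring

include hadd in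
theorem Asa_gh_e : Asa_gh h0 σ μ g G.e = μ • G.e := by
  have h1 : Asa_pr h0 G.e = 0 := by
    apply Subtype.ext
    rw [Asa_pr_coe, h0.ef, h0.ee, Submodule.coe_zero]
    module
  rw [Asa_gh, h1, Asa_g0 hadd, h0.ef, h0.ee, map_one, map_zero, Submodule.coe_zero]
  module

include hadd in
theorem Asa_gh_f : Asa_gh h0 σ μ g G.f = G.f := by
  have h1 : Asa_pr h0 G.f = 0 := by
    apply Subtype.ext
    rw [Asa_pr_coe, h0.fe, h0.ff, Submodule.coe_zero]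
    module
  rw [Asa_gh, h1, Asa_g0 hadd, h0.fe, h0.ff, map_one, map_zero, Submodule.coe_zero]
  module

theorem Asa_gh_U (u : G.U) : Asa_gh h0 σ μ g (u : V) = (g u : V) := by
  have h2 : pl G.q (u : V) G.e = 0 := by rw [pl_comm]; exact u.2.1
  have h3 : pl G.q (u : V) G.f = 0 := by rw [pl_comm]; exact u.2.2
  have h1 : Asa_pr h0 (u : V) = u := by
    apply Subtype.ext
    rw [Asa_pr_coe, h2, h3]
    module
  rw [Asa_gh, h1, h2, h3, map_zero]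
  module

include h0 in
theorem Asa_snd (φ : (H ⧸ Subgroup.center H) ≃* (H ⧸ Subgroup.center H)) (k : G.U → G.U)
    (hk : Function.Surjective k)
    (hφ : ∀ u : G.U, φ ((G.si G.f (u : V) : H) : H ⧸ Subgroup.center H) =
      ((G.si G.f (k u : V) : H) : H ⧸ Subgroup.center H)) : G.Snd φ G.f G.f := by
  unfold SpD.Snd
  apply le_antisymm
  · rintro x ⟨y, ⟨h, hh, rfl⟩, rfl⟩
    obtain ⟨u, hu, rfl⟩ := h0.mem_Rf.1 hh
    exact ⟨G.si G.f (k ⟨u, hu⟩ : V), h0.mem_Rf.2 ⟨_, (k ⟨u, hu⟩).2, rfl⟩, (hφ ⟨u, hu⟩).symm⟩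
  · rintro x ⟨h, hh, rfl⟩
    obtain ⟨u, hu, rfl⟩ := h0.mem_Rf.1 hh
    obtain ⟨u', hu'⟩ := hk ⟨u, hu⟩
    refine ⟨((G.si G.f (u' : V) : H) : H ⧸ Subgroup.center H),
      ⟨G.si G.f (u' : V), h0.mem_Rf.2 ⟨_, u'.2, rfl⟩, rfl⟩, ?_⟩
    have h1 := hφ u'
    rw [hu'] at h1
    exact h1

end abs

theorem tAsa (h1 : MulStmt) (h2 : FrkStmt) (h3 : ExtStmt) (h4 : ExAStmt) : AsaStmt := by
  intro p _ F _ _ _ s D G hG h0 hex σ μ g hμ hadd hsm hbij hq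
  -- the scaling factor
  obtain ⟨ν, hν0, hν⟩ : ∃ ν : F, ν ≠ 0 ∧ (D.o → μ * (ν⁻¹ ^ 2) = 1) := by
    by_cases ho : D.o
    · obtain ⟨ν, hν⟩ := h1 F D.V G.q h0.nd (D.good.odd ho).2.ne_zero
        (by rw [(h2 F (s + 1) D.o).1 ho]; exact ⟨s + 1, rfl⟩) σ μ (Asa_gh h0 σ μ g)
        (Asa_gh_add h0 hadd) (Asa_gh_smul h0 hsm) (Asa_gh_q h0 hq) hμ
      have hν0 : ν ≠ 0 := by
        rintro rfl
        apply hμ
        rw [← hν, zero_pow two_ne_zero]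
      refine ⟨ν, hν0, fun _ => ?_⟩
      rw [← hν, ← mul_pow, mul_inv_cancel₀ hν0, one_pow]
    · exact ⟨1, one_ne_zero, fun h => absurd h ho⟩
  classical
  -- the semilinear similitude
  let g₁ : (Ix (s + 1) → F) → (Ix (s + 1) → F) := fun v =>
    if h : v ∈ D.V then ν⁻¹ • ((Asa_gh h0 σ μ g ⟨v, h⟩ : D.V) : Ix (s + 1) → F) else 0
  have hg₁ : ∀ v : D.V, g₁ (v : Ix (s + 1) → F) =
      ν⁻¹ • ((Asa_gh h0 σ μ g v : D.V) : Ix (s + 1) → F) := by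
    intro v
    exact dif_pos v.2
  have hμ₁ : μ * ν⁻¹ ^ 2 ≠ 0 := mul_ne_zero hμ (pow_ne_zero _ (inv_ne_zero hν0))
  have hS : D.IsSemi σ (μ * ν⁻¹ ^ 2) g₁ := by
    refine ⟨hμ₁, ?_, ?_, ?_, ?_, hν⟩
    · intro v hv
      rw [hg₁ ⟨v, hv⟩]
      exact Submodule.smul_mem _ _ (Asa_gh h0 σ μ g ⟨v, hv⟩).2
    · intro v hv w hw
      have e1 : v + w = ((⟨v, hv⟩ + ⟨w, hw⟩ : D.V) : Ix (s + 1) → F) := rfl
      rw [hg₁ ⟨v, hv⟩, hg₁ ⟨w, hw⟩, e1, hg₁, Asa_gh_add h0 hadd, Submodule.coe_add, smul_add]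
    · intro c v hv
      have e1 : c • v = ((c • ⟨v, hv⟩ : D.V) : Ix (s + 1) → F) := rfl
      rw [hg₁ ⟨v, hv⟩, e1, hg₁, Asa_gh_smul h0 hsm, Submodule.coe_smul, smul_comm]
    · intro v hv
      have e1 := Asa_gh_q h0 hq ⟨v, hv⟩
      rw [hG.q, hG.q] at e1
      rw [hg₁ ⟨v, hv⟩]
      change qf D.a D.b _ = _
      rw [qf_smul]
      change ν⁻¹ ^ 2 * D.Q _ = _
      rw [e1]
      ring
  obtain ⟨t, κ, m, hn, -, ht, -⟩ := h3 F (s + 1) D σ (μ * ν⁻¹ ^ 2) g₁ hS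
  obtain ⟨-, x, hxA, hx⟩ := h4 p F (s + 1) D σ (μ * ν⁻¹ ^ 2) g₁ hS t κ m hn ht
  have key : ∀ (v w : D.V) (X : D.C0 p), (X : Matrix (Lx (s + 1)) (Lx (s + 1)) F) =
      D.γ (v : Ix (s + 1) → F) * D.γ (w : Ix (s + 1) → F) →
      ((x X : D.C0 p) : Matrix (Lx (s + 1)) (Lx (s + 1)) F) =
        μ⁻¹ • (D.γ ((Asa_gh h0 σ μ g v : D.V) : Ix (s + 1) → F) *
          D.γ ((Asa_gh h0 σ μ g w : D.V) : Ix (s + 1) → F)) := by
    intro v w X hX
    have e1 := hx.2 v v.2 w w.2 X hX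
    rw [hg₁ v, hg₁ w] at e1
    change _ = (μ * ν⁻¹ ^ 2)⁻¹ • (gv D.g _ * gv D.g _) at e1
    rw [gv_smul, gv_smul, Matrix.smul_mul, Matrix.mul_smul, smul_smul, smul_smul] at e1
    rw [e1]
    congr 1
    field_simp
  -- the images of the Siegel elements
  have hsie : ∀ (z : D.V) (u u' : D.V), G.q z = 0 → pl G.q z u = 0 → pl G.q z u' = 0 →
      μ⁻¹ • (D.γ ((Asa_gh h0 σ μ g z : D.V) : Ix (s + 1) → F) *
          D.γ ((Asa_gh h0 σ μ g u : D.V) : Ix (s + 1) → F)) =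
        D.γ (z : Ix (s + 1) → F) * D.γ (u' : Ix (s + 1) → F) →
      D.inc p (G.si z u') = D.r p ⟨x, hxA⟩ (D.inc p (G.si z u)) := by
    intro z u u' hz hu hu' h
    have e0 : D.inc p (G.si z u) = 1 + (⟨D.γ (z : Ix (s + 1) → F) * D.γ (u : Ix (s + 1) → F),
        D.gg_mem p z.2 u.2⟩ : D.C0 p) := by
      apply Subtype.ext
      exact hG.si z u hz hu
    have e1 : D.r p ⟨x, hxA⟩ (D.inc p (G.si z u)) = 1 +
        x (⟨D.γ (z : Ix (s + 1) → F) * D.γ (u : Ix (s + 1) → F),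
          D.gg_mem p z.2 u.2⟩ : D.C0 p) := by
      rw [e0]
      change x _ = _
      rw [map_add, map_one]
    rw [e1]
    apply Subtype.ext
    have e2 := key z u ⟨D.γ (z : Ix (s + 1) → F) * D.γ (u : Ix (s + 1) → F),
      D.gg_mem p z.2 u.2⟩ rfl
    have e3 := hG.si z u' hz hu'
    change ((G.si z u' : GL (Lx (s + 1)) F) : Matrix (Lx (s + 1)) (Lx (s + 1)) F) =
      1 + ((x ⟨D.γ (z : Ix (s + 1) → F) * D.γ (u : Ix (s + 1) → F),
        D.gg_mem p z.2 u.2⟩ : D.C0 p) : Matrix (Lx (s + 1)) (Lx (s + 1)) F)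
    rw [e3, e2, h]
  refine ⟨⟨x, hxA⟩, ?_, ?_⟩
  · intro u
    apply MP7fW.cQ_mk'
    refine hsie G.e u (g u) h0.qe u.2.1 (g u).2.1 ?_
    rw [Asa_gh_e h0 hadd, Asa_gh_U]
    have e1 : D.γ ((μ • G.e : D.V) : Ix (s + 1) → F) = μ • D.γ (G.e : Ix (s + 1) → F) :=
      gv_smul _ _ _
    rw [e1, Matrix.smul_mul, smul_smul, inv_mul_cancel₀ hμ, one_smul]
  · apply Asa_snd h0 _ (fun u => μ⁻¹ • g u)
    · intro u
      obtain ⟨v, hv⟩ := hbij.2 (μ • u)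
      refine ⟨v, ?_⟩
      change μ⁻¹ • g v = u
      rw [hv, smul_smul, inv_mul_cancel₀ hμ, one_smul]
    · intro u
      apply MP7fW.cQ_mk'
      refine hsie G.f u ((μ⁻¹ • g u : G.U) : D.V) h0.qf u.2.2 (μ⁻¹ • g u).2.2 ?_
      rw [Asa_gh_f h0 hadd, Asa_gh_U]
      have e1 : D.γ (((μ⁻¹ • g u : G.U) : D.V) : Ix (s + 1) → F) =
          μ⁻¹ • D.γ ((g u : D.V) : Ix (s + 1) → F) := gv_smul _ _ _
      rw [e1, Matrix.mul_smul]

end MP7Z.Ord
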