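import Pool.Agent.Lib.MP_7f581e_Z.Ort.D.SemC

/-!
# Orthogonal groups, automorphisms: automorphisms which are trivial on `R_e`
-/

set_option autoImplicit false

namespace MP7Z.Ord

section

variable {K V H : Type} [Field K] [AddCommGroup V] [Module K V] [Group H] {G : SpD K V H}

/-- The image of `e` under `si e w * si f (c w) * si e w`, `q(w) = 1`. -/
theorem Bet_n (h0 : G.IsS0) {w : V} (hw : w ∈ G.U) (hqw : G.q w = 1) (c : K) :
    G.ac (G.si G.e w * G.si G.f (c • w) * G.si G.e w) G.e =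
      (1 - c) ^ 2 • G.e + (c ^ 2 - c) • w - c ^ 2 • G.f := by
  have h1 : G.ac (G.si G.e w) G.e = G.e := h0.R_fix h0.qe (h0.si_mem hw.1)
  have hfw : pl G.q G.f (c • w) = 0 := by rw [pl_smulr, hw.2, mul_zero]
  have hwe : pl G.q w G.e = 0 := by rw [pl_comm]; exact hw.1
  have h2 : G.ac (G.si G.f (c • w)) G.e = G.e - c • w - c ^ 2 • G.f := by
    rw [h0.act G.f (c • w) h0.qf hfw, sie, pl_smulr, hw.1, mul_zero, zero_smul, add_zero, h0.ef,
      one_smul, one_mul, q_smul, hqw, mul_one]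
  have h3 : G.ac (G.si G.e w) w = w + (2 : K) • G.e := by
    rw [h0.act G.e w h0.qe hw.1, sie, pl_self, hqw, mul_one, hwe, zero_smul, zero_mul, zero_smul,
      sub_zero, sub_zero]
  have h4 : G.ac (G.si G.e w) G.f = G.f - w - G.e := by
    rw [h0.act G.e w h0.qe hw.1, sie, hw.2, zero_smul, add_zero, h0.fe, one_smul, one_mul, hqw,
      one_smul]
  rw [map_mul, map_mul, LinearEquiv.mul_apply, LinearEquiv.mul_apply, h1, h2, map_sub, map_sub,
    map_smul, map_smul, h1, h3, h4]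
  module

theorem Bet_w (h0 : G.IsS0) : ∃ w ∈ G.U, G.q w = 1 := by
  obtain ⟨a, b, a', b', h1, h2, -, -, h3, -⟩ := h0.hyp
  refine ⟨a + b, add_mem a.2 b.2, ?_⟩
  have h4 : G.qU (a + b) = 1 := by rw [q_add, h1, h2, h3, zero_add, zero_add]
  exact h4

end

theorem tBet (hL : LftStmt) (hLev : LevStmt) (hCen : CenStmt) (hCS : CenSStmt) (hFix : FixStmt)
    (hSca : ScaStmt) : BetStmt := by
  intro p _ K V H _ _ _ _ _ _ _ _ G hG β hβe hSf
  have h0 := hG.toIsS0
  have hI : MrpInj p H := (hL p H hG.ze).1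
  have hβr : ∀ r ∈ G.R G.e, β (r : H ⧸ Subgroup.center H) = (r : H ⧸ Subgroup.center H) := by
    intro r hr
    obtain ⟨u, hu, rfl⟩ := h0.mem_Re.1 hr
    exact hβe u hu
  have hpe : ∀ r ∈ G.R G.e, IsPel p r := fun r hr => Mrp_pel (h0.R_pgroup p h0.qe) hr
  -- (i)
  have hi : ∀ l ∈ G.P G.e, l ∈ G.P G.f →
      β (l : H ⧸ Subgroup.center H) = (l : H ⧸ Subgroup.center H) := by
    intro l hle hlf
    obtain ⟨l', hl'⟩ := QuotientGroup.mk'_surjective (Subgroup.center H)
      (β (l : H ⧸ Subgroup.center H))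
    have hl : β (l : H ⧸ Subgroup.center H) = (l' : H ⧸ Subgroup.center H) := hl'.symm
    have h1 : ∀ r ∈ G.R G.e, (l⁻¹ * l') * r = r * (l⁻¹ * l') := by
      intro r hr
      have h2 : l * r * l⁻¹ ∈ G.R G.e := (h0.P_norm h0.qe hle).2 hr
      have h3 : l * r * l⁻¹ = l' * r * l'⁻¹ := by
        refine hI _ _ (hpe _ h2) (Mrp_conj (hpe r hr) l') ?_
        rw [← hβr _ h2]
        change β ((l : H ⧸ Subgroup.center H) * (r : H ⧸ Subgroup.center H) *
          (l : H ⧸ Subgroup.center H)⁻¹) = (l' : H ⧸ Subgroup.center H) *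
            (r : H ⧸ Subgroup.center H) * (l' : H ⧸ Subgroup.center H)⁻¹
        rw [map_mul, map_mul, map_inv, hl, hβr r hr]
      have h4 : l⁻¹ * (l' * r * l'⁻¹) * l' = r * (l⁻¹ * l') := by
        rw [← h3]
        group
      rw [← h4]
      group
    obtain ⟨r, hr, z, hz, hrz⟩ := (hCen K V H G h0 _ h1).2
    have hl'f : l' ∈ G.P G.f := (hLev p K V H G hG β G.f h0.f_ne h0.qf hSf _ _ hl).1 hlf
    have hzf : z ∈ G.P G.f := by
      obtain ⟨c, hc, h2⟩ := hCS K V H G h0 z hz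
      refine ⟨c, ?_, h2 _⟩
      rintro rfl
      rw [zero_pow two_ne_zero] at hc
      exact zero_ne_one hc
    have hrf : r ∈ G.P G.f := by
      have h2 : r = (l⁻¹ * l') * z⁻¹ := by rw [hrz, mul_inv_cancel_right]
      rw [h2]
      exact mul_mem (mul_mem (inv_mem hlf) hl'f) (inv_mem hzf)
    obtain ⟨v, hv, rfl⟩ := h0.mem_Re.1 hr
    obtain ⟨c, -, h2⟩ := hrf
    rw [h0.act G.e v h0.qe hv.1, sie, hv.2, zero_smul, add_zero, h0.fe, one_smul, one_mul] at h2
    have h3 : v = (1 - c) • G.f - G.q v • G.e := by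
      have h4 : (1 - c) • G.f - G.q v • G.e = G.f - c • G.f - G.q v • G.e := by
        rw [sub_smul, one_smul]
      rw [h4, ← h2]
      abel
    have h4 : 1 - c = 0 := by
      have h5 := hv.1
      rw [h3, pl_subr, pl_smulr, pl_smulr, h0.ef, h0.ee] at h5
      linear_combination h5
    have h5 : G.q v = 0 := by
      have h6 := hv.2
      rw [h3, pl_subr, pl_smulr, pl_smulr, h0.ff, h0.fe] at h6
      linear_combination -h6
    have h6 : v = 0 := by
      rw [h4, h5, zero_smul, zero_smul, sub_zero] at h3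
      exact h3
    rw [h6, h0.si_zero h0.qe, one_mul] at hrz
    rw [hl]
    have h7 : l' = l * z := by rw [← hrz, mul_inv_cancel_left]
    rw [h7, QuotientGroup.mk_mul_of_mem l hz]
  -- (ii)
  obtain ⟨h, hadd, -, hh⟩ := SemX_g (p := p) h0 hI (SemX_f h0) hSf
  let X : G.U →+ G.U :=
    { toFun := h
      map_zero' := by
        have h1 := hadd 0 0
        rw [add_zero] at h1
        exact left_eq_add.1 h1
      map_add' := hadd }
  obtain ⟨c, hc⟩ := hSca K G.U G.qU h0.ndU h0.hyp X (by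
    intro x v hx hxv u
    obtain ⟨hP1, hP2, -, hPf, hPU⟩ := SemX_si h0 hx hxv
    have h1 := SemX_star (p := p) h0 hI (SemX_f h0) hh (hi _ hP1 hP2) hPf hPf
      (SemX_U h0 hP1 hP2) (SemX_U h0 hP1 hP2) u
    have h2 : (1 : K) • (⟨G.ac (G.si (x : V) (v : V)) u, SemX_U h0 hP1 hP2 u u.2⟩ : G.U) =
        sie G.qU x v u := by
      rw [one_smul]
      exact Subtype.ext (hPU u)
    rw [h2, one_smul, hPU] at h1
    exact Subtype.ext h1)
  have hc' : ∀ u ∈ G.U, β ((G.si G.f u : H) : H ⧸ Subgroup.center H) =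
      ((G.si G.f (c • u) : H) : H ⧸ Subgroup.center H) := by
    intro u hu
    have h1 := hh ⟨u, hu⟩
    have h2 : h ⟨u, hu⟩ = c • ⟨u, hu⟩ := hc ⟨u, hu⟩
    rw [h2] at h1
    exact h1
  -- (iii)
  obtain ⟨w, hw, hqw⟩ := Bet_w h0
  set n := G.si G.e w * G.si G.f ((1 : K) • w) * G.si G.e w with hn
  set n' := G.si G.e w * G.si G.f (c • w) * G.si G.e w with hn'
  have hne : G.ac n G.e = (-1 : K) • G.f := by
    rw [hn, Bet_n h0 hw hqw]
    module
  have hβn : β (n : H ⧸ Subgroup.center H) = (n' : H ⧸ Subgroup.center H) := by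
    rw [hn, hn', one_smul]
    rw [QuotientGroup.mk_mul, QuotientGroup.mk_mul, map_mul, map_mul, hβe w hw, hc' w hw]
    rfl
  have hc1 : c = 1 := by
    have h1 : ∀ r ∈ G.R G.e, n' * r * n'⁻¹ ∈ G.R G.f := by
      intro r hr
      refine Mrp_mem hI (h0.R_pgroup p h0.qf) (Mrp_conj (hpe r hr) n') ?_
      have h2 : n * r * n⁻¹ ∈ G.R G.f := by
        have h3 := (h0.R_conj n h0.qe (h := r)).2 hr
        rwa [hne, h0.R_smul h0.qf (neg_ne_zero.2 one_ne_zero)] at h3
      have h4 := (SnC_iff.1 hSf ((n * r * n⁻¹ : H) : H ⧸ Subgroup.center H)).2 ⟨_, h2, rfl⟩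
      have h5 : β ((n * r * n⁻¹ : H) : H ⧸ Subgroup.center H) =
          ((n' * r * n'⁻¹ : H) : H ⧸ Subgroup.center H) := by
        change β ((n : H ⧸ Subgroup.center H) * (r : H ⧸ Subgroup.center H) *
          (n : H ⧸ Subgroup.center H)⁻¹) = (n' : H ⧸ Subgroup.center H) *
            (r : H ⧸ Subgroup.center H) * (n' : H ⧸ Subgroup.center H)⁻¹
        rw [map_mul, map_mul, map_inv, hβn, hβr r hr]
      rw [h5] at h4
      exact h4
    have h2 : G.q (G.ac n' G.e) = 0 := by rw [h0.iso, h0.qe]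
    have h3 : G.ac n' G.e ≠ 0 := fun h => h0.e_ne ((LinearEquiv.map_eq_zero_iff _).1 h)
    obtain ⟨d, hd⟩ := (hFix K V H G h0 _ h3 h2).2.2 G.f h0.qf (by
      intro s hs
      have h4 : n' * (n'⁻¹ * s * n') * n'⁻¹ = s := by group
      have h5 := h0.R_conj n' h0.qe (h := n'⁻¹ * s * n')
      rw [h4] at h5
      have h6 := h1 _ (h5.1 hs)
      rwa [h4] at h6)
    have h4 : pl G.q G.f (d • G.ac n' G.e) = 0 := by rw [← hd, h0.ff]
    rw [hn', Bet_n h0 hw hqw, pl_smulr, pl_subr, pl_addr, pl_smulr, pl_smulr, pl_smulr, hw.2,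
      h0.fe, h0.ff, mul_one, mul_zero, mul_zero, add_zero, sub_zero] at h4
    have hd0 : d ≠ 0 := by
      rintro rfl
      rw [zero_smul] at hd
      exact h0.f_ne hd
    have h5 : (1 - c) ^ 2 = 0 := (mul_eq_zero.1 h4).resolve_left hd0
    exact (sub_eq_zero.1 (pow_eq_zero_iff two_ne_zero |>.1 h5)).symm
  -- (iv)
  intro t
  obtain ⟨k, rfl⟩ := QuotientGroup.mk'_surjective (Subgroup.center H) t
  have hk : k ∈ Subgroup.closure {h | ∃ v ∈ G.U, h = G.si G.e v ∨ h = G.si G.f v} := by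
    rw [hG.gen]
    exact Subgroup.mem_top k
  change β (k : H ⧸ Subgroup.center H) = (k : H ⧸ Subgroup.center H)
  induction hk using Subgroup.closure_induction with
  | mem k hk =>
    obtain ⟨v, hv, rfl | rfl⟩ := hk
    · exact hβe v hv
    · rw [hc' v hv, hc1, one_smul]
  | one => exact map_one β
  | mul a b _ _ h1 h2 => rw [QuotientGroup.mk_mul, map_mul, h1, h2]
  | inv a _ h1 => rw [QuotientGroup.mk_inv, map_inv, h1]

end MP7Z.Ord
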