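import Pool.Agent.Lib.MP_7f581e_Z.Ort.SpecD
import Pool.Agent.Lib.MP_7f581e_Z.Ort.SAct

/-!
# Orthogonal groups, part D, task BrA: existence of the data for the spin groups
-/

set_option autoImplicit false

namespace MP7Z.Ord

open MP7Z.Ort Matrix

section

variable {F : Type} [Field F] {s : ℕ} (D : Dat F s)

/-- The quadratic form. -/
noncomputable def BrA_q : QuadraticForm F D.V :=
  QuadraticMap.ofPolar (fun v : D.V => D.Q (v : Ix s → F))
    (fun c v => by
      change qf D.a D.b (c • (v : Ix s → F)) = _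
      rw [qf_smul, pow_two]
      rfl)
    (fun v v' w => by
      change qf D.a D.b ((v : Ix s → F) + (v' : Ix s → F) + (w : Ix s → F)) -
        qf D.a D.b ((v : Ix s → F) + (v' : Ix s → F)) - qf D.a D.b (w : Ix s → F) =
        (qf D.a D.b ((v : Ix s → F) + (w : Ix s → F)) - qf D.a D.b (v : Ix s → F) -
          qf D.a D.b (w : Ix s → F)) +
        (qf D.a D.b ((v' : Ix s → F) + (w : Ix s → F)) - qf D.a D.b (v' : Ix s → F) -
          qf D.a D.b (w : Ix s → F))
      simp only [qf_add, bf_add_left]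
      ring)
    (fun c v w => by
      change qf D.a D.b (c • (v : Ix s → F) + (w : Ix s → F)) -
        qf D.a D.b (c • (v : Ix s → F)) - qf D.a D.b (w : Ix s → F) =
        c • (qf D.a D.b ((v : Ix s → F) + (w : Ix s → F)) - qf D.a D.b (v : Ix s → F) -
          qf D.a D.b (w : Ix s → F))
      rw [qf_add, qf_add, bf_smul_left, smul_eq_mul]
      ring)

theorem BrA_q_apply (v : D.V) : BrA_q D v = D.Q (v : Ix s → F) := rfl

theorem BrA_pl (v w : D.V) : pl (BrA_q D) v w = D.B (v : Ix s → F) (w : Ix s → F) := by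
  change qf D.a D.b ((v : Ix s → F) + (w : Ix s → F)) - qf D.a D.b (v : Ix s → F) -
    qf D.a D.b (w : Ix s → F) = _
  rw [qf_add]
  ring

/-- The matrix of an element of the spin group. -/
abbrev BrA_m (h : D.H) : Matrix (Lx s) (Lx s) F := ((h : GL (Lx s) F) : Matrix (Lx s) (Lx s) F)

theorem BrA_uniq (h : D.H) {v w : D.V}
    (hvw : D.γ (v : Ix s → F) * BrA_m D h = D.γ (w : Ix s → F) * BrA_m D h) : v = w :=
  Subtype.ext (D.good.gv_inj (SAct_cancel (h : GL (Lx s) F) hvw))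

theorem BrA_ex (h : D.H) : ∃ r : D.V →ₗ[F] D.V, ∀ v : D.V,
    BrA_m D h * D.γ (v : Ix s → F) = D.γ (r v : D.V) * BrA_m D h := by
  have hm := mem_SG.1 h.2
  obtain ⟨r, hr, hadd, hsmul, -, -, hV⟩ := SAct_exists D.good (h : GL (Lx s) F) hm.2.2.1
    hm.2.2.2.2
  exact ⟨{ toFun := fun v => ⟨r v, hV v v.2⟩
           map_add' := fun v w => Subtype.ext (hadd v w)
           map_smul' := fun c v => Subtype.ext (hsmul c v) }, fun v => hr v⟩

/-- The action on the vectors. -/
noncomputable def BrA_act (h : D.H) : D.V →ₗ[F] D.V := (BrA_ex D h).choose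

theorem BrA_act_spec (h : D.H) (v : D.V) :
    BrA_m D h * D.γ (v : Ix s → F) = D.γ (BrA_act D h v : D.V) * BrA_m D h :=
  (BrA_ex D h).choose_spec v

theorem BrA_act_one : BrA_act D 1 = LinearMap.id := by
  ext1 v
  apply BrA_uniq D 1
  rw [← BrA_act_spec]
  change (1 : Matrix (Lx s) (Lx s) F) * D.γ (v : Ix s → F) = D.γ (v : Ix s → F) * 1
  rw [Matrix.one_mul, Matrix.mul_one]

theorem BrA_act_mul (h k : D.H) : BrA_act D (h * k) = (BrA_act D h).comp (BrA_act D k) := by
  ext1 v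
  apply BrA_uniq D (h * k)
  rw [← BrA_act_spec]
  have h1 : BrA_m D (h * k) = BrA_m D h * BrA_m D k := rfl
  rw [h1, Matrix.mul_assoc, BrA_act_spec D k v, ← Matrix.mul_assoc, BrA_act_spec D h,
    Matrix.mul_assoc]
  rfl

/-- The action as a homomorphism. -/
noncomputable def BrA_ac : D.H →* (D.V ≃ₗ[F] D.V) where
  toFun h := LinearEquiv.ofLinearMap (BrA_act D h) (BrA_act D h⁻¹)
    (by rw [← BrA_act_mul, mul_inv_cancel, BrA_act_one])
    (by rw [← BrA_act_mul, inv_mul_cancel, BrA_act_one])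
  map_one' := by
    ext1 v
    exact congrArg (fun r : D.V →ₗ[F] D.V => r v) (BrA_act_one D)
  map_mul' h k := by
    ext1 v
    exact congrArg (fun r : D.V →ₗ[F] D.V => r v) (BrA_act_mul D h k)

theorem BrA_ac_apply (h : D.H) (v : D.V) : BrA_ac D h v = BrA_act D h v := rfl

theorem BrA_si (x v : D.V) : ∃ u : D.H, D.Q (x : Ix s → F) = 0 →
    D.B (x : Ix s → F) (v : Ix s → F) = 0 →
    BrA_m D u = 1 + D.γ (x : Ix s → F) * D.γ (v : Ix s → F) := by
  by_cases h : D.Q (x : Ix s → F) = 0 ∧ D.B (x : Ix s → F) (v : Ix s → F) = 0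
  · obtain ⟨h1', h2'⟩ := h
    have h1 : qf D.a D.b (x : Ix s → F) = 0 := h1'
    have h2 : bf D.a D.b (x : Ix s → F) (v : Ix s → F) = 0 := h2'
    have hF := D.good.frame
    obtain ⟨X, hX⟩ : ∃ X, X = D.γ (x : Ix s → F) := ⟨_, rfl⟩
    obtain ⟨Y, hY⟩ : ∃ Y, Y = D.γ (v : Ix s → F) := ⟨_, rfl⟩
    have hXX : X * X = 0 := by rw [hX, hF.gv_sq, h1, zero_smul]
    have hYX : Y * X = -(X * Y) := by
      have h3 := hF.gv_anti (x : Ix s → F) (v : Ix s → F)
      rw [h2, zero_smul] at h3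
      rw [hX, hY]
      exact eq_neg_of_add_eq_zero_right h3
    have h0 : X * Y * (X * Y) = 0 := by
      rw [Matrix.mul_assoc, ← Matrix.mul_assoc Y, hYX, Matrix.neg_mul, Matrix.mul_neg,
        Matrix.mul_assoc X Y Y, ← Matrix.mul_assoc X X, hXX, Matrix.zero_mul, neg_zero]
    let w : GL (Lx s) F := ⟨1 + X * Y, 1 - X * Y, by
      rw [Matrix.add_mul, Matrix.mul_sub, Matrix.mul_sub, Matrix.mul_one, Matrix.mul_one,
        Matrix.one_mul, h0]
      abel, by
      rw [Matrix.sub_mul, Matrix.mul_add, Matrix.mul_add, Matrix.mul_one, Matrix.mul_one,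
        Matrix.one_mul, h0]
      abel⟩
    have hw : (w : Matrix (Lx s) (Lx s) F) = 1 + gv D.g (x : Ix s → F) *
        gv D.g (v : Ix s → F) := by
      change 1 + X * Y = _
      rw [hX, hY]
    exact ⟨⟨w, D.good.siegel h1 h2 (fun ho => ⟨x.2 ho, v.2 ho⟩) hw⟩, fun _ _ => hw⟩
  · exact ⟨1, fun h1 h2 => absurd ⟨h1, h2⟩ h⟩

end

theorem BrA_mem_e {F : Type} [Field F] {s : ℕ} (o : Prop) (i : Fin s) :
    bv F (ie i) ∈ Vo o s F := fun _ => by rw [bv_apply, if_neg (by simp)]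

theorem BrA_mem_f {F : Type} [Field F] {s : ℕ} (o : Prop) (i : Fin s) :
    bv F (jf i) ∈ Vo o s F := fun _ => by rw [bv_apply, if_neg (by simp)]

theorem tBrA : BrAStmt := by
  intro F _ s D
  choose si hsi using BrA_si D
  let G : SpD F D.V D.H :=
    { q := BrA_q D
      ac := BrA_ac D
      si := si
      e := ⟨bv F (ie (Fin.last s)), BrA_mem_e _ _⟩
      f := ⟨bv F (jf (Fin.last s)), BrA_mem_f _ _⟩ }
  exact ⟨G, ⟨fun v => BrA_q_apply D v, fun v w => BrA_pl D v w, fun h v => BrA_act_spec D h v,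
    fun x v hx hv => hsi x v hx ((BrA_pl D x v).symm.trans hv), rfl, rfl⟩⟩

end MP7Z.Ord
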