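import Pool.Agent.Lib.MP_7f581e_Z.Ort.SpecD

/-!
# Orthogonal groups, part D, task BrB

The basic properties of the data of the spin group.
-/

set_option autoImplicit false

namespace MP7Z.Ord

open MP7Z.Ort Matrix

section ring

variable {F C : Type} [Field F] [Ring C] [Algebra F C]

/-- The relation of the Siegel elements with the vectors. -/
theorem BrB_key {X Y Z : C} {bx bv qv : F} (hXX : X * X = 0) (hXY : X * Y = -(Y * X))
    (hYY : Y * Y = qv • (1 : C)) (hZX : Z * X + X * Z = bx • (1 : C))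
    (hZY : Z * Y + Y * Z = bv • (1 : C)) :
    (1 + X * Y) * Z = (Z + bv • X - bx • Y - (bx * qv) • X) * (1 + X * Y) := by
  have hZX' : Z * X = bx • 1 - X * Z := eq_sub_of_add_eq hZX
  have hZY' : Z * Y = bv • 1 - Y * Z := eq_sub_of_add_eq hZY
  have hYX : Y * X = -(X * Y) := by rw [hXY, neg_neg]
  have e1 : Z * (X * Y) = bx • Y - bv • X + X * Y * Z := by
    rw [← mul_assoc, hZX', sub_mul, mul_assoc X Z Y, hZY', mul_sub, smul_mul_assoc, one_mul,
      mul_smul_comm, mul_one, mul_assoc]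
    abel
  have e2 : Y * (X * Y) = -(qv • X) := by
    rw [← mul_assoc, hYX, neg_mul, mul_assoc, hYY, mul_smul_comm, mul_one]
  have e3 : X * (X * Y) = 0 := by rw [← mul_assoc, hXX, zero_mul]
  simp only [add_mul, sub_mul, mul_add, mul_one, one_mul, smul_mul_assoc, e1, e2, e3, smul_zero,
    add_zero]
  module

end ring

section dat

variable {F : Type} [Field F] {s : ℕ} {D : Dat F (s + 1)} {G : SpD F D.V D.H}

/-- The matrix of an element. -/
def BrB_m (h : D.H) : Matrix (Lx (s + 1)) (Lx (s + 1)) F :=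
  ((h : GL (Lx (s + 1)) F) : Matrix (Lx (s + 1)) (Lx (s + 1)) F)

theorem BrB_ext {h k : D.H} (hk : BrB_m h = BrB_m k) : h = k :=
  Subtype.ext (Units.ext hk)

theorem BrB_m_mul (h k : D.H) : BrB_m (h * k) = BrB_m h * BrB_m k := rfl

theorem BrB_m_one : BrB_m (1 : D.H) = 1 := rfl

theorem BrB_m_inv (h : D.H) : BrB_m h * BrB_m h⁻¹ = 1 := by
  rw [← BrB_m_mul, mul_inv_cancel, BrB_m_one]

theorem BrB_cancel (h : D.H) {A B : Matrix (Lx (s + 1)) (Lx (s + 1)) F}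
    (hAB : A * BrB_m h = B * BrB_m h) : A = B := by
  have h1 : A * BrB_m h * BrB_m h⁻¹ = B * BrB_m h * BrB_m h⁻¹ := by rw [hAB]
  rwa [Matrix.mul_assoc, Matrix.mul_assoc, BrB_m_inv, Matrix.mul_one, Matrix.mul_one] at h1

theorem BrB_memV {i : Ix (s + 1)} (hi : i ≠ iw 0) : bv F i ∈ D.V := fun _ => by
  rw [bv_apply, if_neg (fun h => hi h.symm)]

variable (hG : IsRel D G)

include hG

theorem BrB_ac (h : D.H) (v : D.V) : BrB_m h * D.γ (v : Ix (s + 1) → F) =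
    D.γ (G.ac h v : D.V) * BrB_m h := hG.ac h v

theorem BrB_sq {x : D.V} (hx : G.q x = 0) :
    D.γ (x : Ix (s + 1) → F) * D.γ (x : Ix (s + 1) → F) = 0 := by
  have h1 := D.good.frame.gv_sq (x : Ix (s + 1) → F)
  have h2 := hG.q x
  rw [hx] at h2
  change (0 : F) = qf D.a D.b (x : Ix (s + 1) → F) at h2
  rw [← h2, zero_smul] at h1
  exact h1

theorem BrB_anti {x v : D.V} (hv : pl G.q x v = 0) :
    D.γ (x : Ix (s + 1) → F) * D.γ (v : Ix (s + 1) → F) =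
      -(D.γ (v : Ix (s + 1) → F) * D.γ (x : Ix (s + 1) → F)) := by
  have h1 := D.good.frame.gv_anti (x : Ix (s + 1) → F) (v : Ix (s + 1) → F)
  have h2 := hG.pl x v
  rw [hv] at h2
  change (0 : F) = bf D.a D.b (x : Ix (s + 1) → F) (v : Ix (s + 1) → F) at h2
  rw [← h2, zero_smul] at h1
  exact eq_neg_of_add_eq_zero_left h1

theorem BrB_si {x v : D.V} (hx : G.q x = 0) (hv : pl G.q x v = 0) : BrB_m (G.si x v) =
    1 + D.γ (x : Ix (s + 1) → F) * D.γ (v : Ix (s + 1) → F) := hG.si x v hx hv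

theorem BrB_nd : Nd G.q := by
  intro x hx
  apply Subtype.ext
  refine D.good.nondeg_Vo x.2 fun w hw => ?_
  have h1 := hG.pl x ⟨w, hw⟩
  rw [hx] at h1
  exact h1.symm

theorem BrB_iso (h : D.H) (v : D.V) : G.q (G.ac h v) = G.q v := by
  have hne := D.good.nonempty
  have h1 := BrB_ac hG h v
  have h2 := D.good.frame.gv_sq (v : Ix (s + 1) → F)
  have h3 := D.good.frame.gv_sq ((G.ac h v : D.V) : Ix (s + 1) → F)
  rw [hG.q, hG.q]
  symm
  apply smul_one_inj (l := Lx (s + 1))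
  change qf D.a D.b (v : Ix (s + 1) → F) • (1 : Matrix (Lx (s + 1)) (Lx (s + 1)) F) =
    qf D.a D.b ((G.ac h v : D.V) : Ix (s + 1) → F) • (1 : Matrix (Lx (s + 1)) (Lx (s + 1)) F)
  apply BrB_cancel h
  rw [← h3, Matrix.mul_assoc]
  change _ = D.γ (G.ac h v : D.V) * (D.γ (G.ac h v : D.V) * BrB_m h)
  rw [← h1, ← Matrix.mul_assoc, ← h1, Matrix.mul_assoc]
  change _ = BrB_m h * (gv D.g (v : Ix (s + 1) → F) * gv D.g (v : Ix (s + 1) → F))
  rw [h2, Matrix.smul_mul, Matrix.mul_smul, Matrix.one_mul, Matrix.mul_one]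

theorem BrB_isoB (h : D.H) (v w : D.V) : pl G.q (G.ac h v) (G.ac h w) = pl G.q v w := by
  change G.q (G.ac h v + G.ac h w) - G.q (G.ac h v) - G.q (G.ac h w) =
    G.q (v + w) - G.q v - G.q w
  rw [← map_add, BrB_iso hG, BrB_iso hG, BrB_iso hG]

theorem BrB_act (x v : D.V) (hx : G.q x = 0) (hv : pl G.q x v = 0) (z : D.V) :
    G.ac (G.si x v) z = sie G.q x v z := by
  apply Subtype.ext
  apply D.good.gv_inj
  apply BrB_cancel (G.si x v)
  have h1 := BrB_ac hG (G.si x v) z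
  change D.γ (G.ac (G.si x v) z : D.V) * BrB_m (G.si x v) = _
  rw [← h1, BrB_si hG hx hv]
  have h2 := D.good.frame.gv_sq (v : Ix (s + 1) → F)
  have h3 := D.good.frame.gv_anti (z : Ix (s + 1) → F) (x : Ix (s + 1) → F)
  have h4 := D.good.frame.gv_anti (z : Ix (s + 1) → F) (v : Ix (s + 1) → F)
  have h5 := BrB_key (BrB_sq hG hx) (BrB_anti hG hv) h2 h3 h4
  rw [h5]
  congr 1
  have e1 : ((sie G.q x v z : D.V) : Ix (s + 1) → F) = (z : Ix (s + 1) → F) +
      bf D.a D.b (z : Ix (s + 1) → F) (v : Ix (s + 1) → F) • (x : Ix (s + 1) → F) -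
      bf D.a D.b (z : Ix (s + 1) → F) (x : Ix (s + 1) → F) • (v : Ix (s + 1) → F) -
      (bf D.a D.b (z : Ix (s + 1) → F) (x : Ix (s + 1) → F) *
        qf D.a D.b (v : Ix (s + 1) → F)) • (x : Ix (s + 1) → F) := by
    rw [sie, hG.pl, hG.pl, hG.q]
    rfl
  rw [e1, gv_sub, gv_sub, gv_add, gv_smul, gv_smul, gv_smul]

theorem BrB_mul (x v w : D.V) (hx : G.q x = 0) (hv : pl G.q x v = 0) (hw : pl G.q x w = 0) :
    G.si x v * G.si x w = G.si x (v + w) := by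
  apply BrB_ext
  have hvw : pl G.q x (v + w) = 0 := by rw [pl_addr, hv, hw, add_zero]
  rw [BrB_m_mul, BrB_si hG hx hv, BrB_si hG hx hw, BrB_si hG hx hvw]
  have e1 : D.γ ((v + w : D.V) : Ix (s + 1) → F) = D.γ (v : Ix (s + 1) → F) +
      D.γ (w : Ix (s + 1) → F) := gv_add _ _ _
  have h1 := BrB_sq hG hx
  have h2 := BrB_anti hG hv
  rw [e1]
  generalize D.γ (x : Ix (s + 1) → F) = X at *
  generalize D.γ (v : Ix (s + 1) → F) = Y at *
  generalize D.γ (w : Ix (s + 1) → F) = Z at *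
  have h3 : X * Y * (X * Z) = 0 := by
    rw [h2, neg_mul, mul_assoc, ← mul_assoc X X Z, h1, zero_mul, mul_zero, neg_zero]
  rw [mul_add, mul_one, add_mul, one_mul, h3, mul_add]
  abel

theorem BrB_sml (c : F) (x v : D.V) (hx : G.q x = 0) (hv : pl G.q x v = 0) :
    G.si (c • x) v = G.si x (c • v) := by
  apply BrB_ext
  have h1 : G.q (c • x) = 0 := by rw [q_smul, hx, mul_zero]
  have h2 : pl G.q (c • x) v = 0 := by rw [pl_smull, hv, mul_zero]
  have h3 : pl G.q x (c • v) = 0 := by rw [pl_smulr, hv, mul_zero]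
  rw [BrB_si hG h1 h2, BrB_si hG hx h3]
  have e1 : D.γ ((c • x : D.V) : Ix (s + 1) → F) = c • D.γ (x : Ix (s + 1) → F) :=
    gv_smul _ _ _
  have e2 : D.γ ((c • v : D.V) : Ix (s + 1) → F) = c • D.γ (v : Ix (s + 1) → F) :=
    gv_smul _ _ _
  rw [e1, e2, Matrix.smul_mul, Matrix.mul_smul]

theorem BrB_slf (c : F) (x : D.V) (hx : G.q x = 0) : G.si x (c • x) = 1 := by
  apply BrB_ext
  have h3 : pl G.q x (c • x) = 0 := by rw [pl_smulr, pl_self, hx, mul_zero, mul_zero]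
  rw [BrB_si hG hx h3]
  have e1 : D.γ ((c • x : D.V) : Ix (s + 1) → F) = c • D.γ (x : Ix (s + 1) → F) :=
    gv_smul _ _ _
  rw [e1, Matrix.mul_smul, BrB_sq hG hx, smul_zero, add_zero, BrB_m_one]

theorem BrB_cnj (h : D.H) (x v : D.V) (hx : G.q x = 0) (hv : pl G.q x v = 0) :
    h * G.si x v * h⁻¹ = G.si (G.ac h x) (G.ac h v) := by
  rw [mul_inv_eq_iff_eq_mul]
  apply BrB_ext
  have h1 : G.q (G.ac h x) = 0 := by rw [BrB_iso hG, hx]
  have h2 : pl G.q (G.ac h x) (G.ac h v) = 0 := by rw [BrB_isoB hG, hv]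
  rw [BrB_m_mul, BrB_m_mul, BrB_si hG hx hv, BrB_si hG h1 h2, mul_add, add_mul, mul_one, one_mul,
    ← mul_assoc, BrB_ac hG, mul_assoc, BrB_ac hG, ← mul_assoc]

theorem BrB_qe : G.q G.e = 0 := by
  rw [hG.q, hG.e]
  exact qf_ie _ _ _

theorem BrB_qf : G.q G.f = 0 := by
  rw [hG.q, hG.f]
  exact qf_jf _ _ _

theorem BrB_ef : pl G.q G.e G.f = 1 := by
  rw [hG.pl, hG.e, hG.f]
  change bf D.a D.b _ _ = 1
  rw [bf_jf, bv_apply, if_pos rfl]

theorem BrB_ker (h1 : SpnEStmt) (h : D.H) (c : F) (hc : ∀ v, G.ac h v = c • v) :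
    h ∈ Subgroup.center D.H := by
  have hc2 : c ^ 2 = 1 := by
    have h2 : G.q (G.e + G.f) = 1 := by
      rw [q_add, BrB_qe hG, BrB_qf hG, BrB_ef hG, zero_add, zero_add]
    have h3 := BrB_iso hG h (G.e + G.f)
    rw [hc, q_smul, h2, mul_one] at h3
    exact h3
  rw [Subgroup.mem_center_iff]
  intro k
  apply BrB_ext
  rw [BrB_m_mul, BrB_m_mul]
  have hk := mem_SG.1 k.2
  have h4 := h1 F (Lx (s + 1)) D.a D.b (s + 1) D.g D.P D.o D.good (BrB_m k) hk.1 hk.2.2.2.2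
  have h5 : Algebra.adjoin F {Y | ∃ v ∈ Vo D.o (s + 1) F, ∃ w ∈ Vo D.o (s + 1) F,
      Y = gv D.g v * gv D.g w} ≤ Subalgebra.centralizer F {BrB_m h} := by
    apply Algebra.adjoin_le
    rintro Y ⟨v, hv, w, hw, rfl⟩
    rw [SetLike.mem_coe, Subalgebra.mem_centralizer_iff]
    intro M hM
    rw [Set.mem_singleton_iff] at hM
    subst hM
    have hv' : BrB_m h * gv D.g v = c • (gv D.g v * BrB_m h) := by
      have h6 := BrB_ac hG h ⟨v, hv⟩
      rw [hc] at h6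
      have e1 : D.γ ((c • (⟨v, hv⟩ : D.V) : D.V) : Ix (s + 1) → F) = c • gv D.g v :=
        gv_smul _ _ _
      rw [e1, Matrix.smul_mul] at h6
      exact h6
    have hw' : BrB_m h * gv D.g w = c • (gv D.g w * BrB_m h) := by
      have h6 := BrB_ac hG h ⟨w, hw⟩
      rw [hc] at h6
      have e1 : D.γ ((c • (⟨w, hw⟩ : D.V) : D.V) : Ix (s + 1) → F) = c • gv D.g w :=
        gv_smul _ _ _
      rw [e1, Matrix.smul_mul] at h6
      exact h6
    rw [← mul_assoc, hv', smul_mul_assoc, mul_assoc, hw', mul_smul_comm, smul_smul, ← pow_two,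
      hc2, one_smul, mul_assoc]
  have h6 := h5 h4
  rw [Subalgebra.mem_centralizer_iff] at h6
  exact (h6 _ rfl).symm

theorem BrB_memU {i : Ix (s + 1)} (hi : i ≠ iw 0)
    (h1 : bf D.a D.b (bv F (ie (Fin.last s))) (bv F i) = 0)
    (h2 : bf D.a D.b (bv F (jf (Fin.last s))) (bv F i) = 0) :
    (⟨bv F i, BrB_memV hi⟩ : D.V) ∈ G.U := by
  rw [SpD.mem_U]
  constructor
  · rw [hG.pl, hG.e]
    exact h1
  · rw [hG.pl, hG.f]
    exact h2

theorem BrB_hyp (hs : 2 ≤ s) : Hyp2 (K := F) (W := G.U) G.qU := by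
  obtain ⟨i, j, hi, hj, hij⟩ : ∃ i j : Fin (s + 1), i ≠ Fin.last s ∧ j ≠ Fin.last s ∧ i ≠ j := by
    refine ⟨⟨0, by omega⟩, ⟨1, by omega⟩, ?_, ?_, ?_⟩
    · intro h
      have := congrArg Fin.val h
      simp at this
      omega
    · intro h
      have := congrArg Fin.val h
      simp at this
      omega
    · intro h
      have := congrArg Fin.val h
      simp at this
  have bee : ∀ k l : Fin (s + 1), bf D.a D.b (bv F (ie k)) (bv F (ie l)) = 0 := by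
    intro k l
    rw [bf_ie, bv_apply, if_neg (by simp)]
  have bff : ∀ k l : Fin (s + 1), bf D.a D.b (bv F (jf k)) (bv F (jf l)) = 0 := by
    intro k l
    rw [bf_jf, bv_apply, if_neg (by simp)]
  have bef : ∀ k l : Fin (s + 1), k ≠ l → bf D.a D.b (bv F (ie k)) (bv F (jf l)) = 0 := by
    intro k l hkl
    rw [bf_jf, bv_apply, if_neg]
    intro h
    apply hkl
    simpa using h.symm
  have bfe : ∀ k l : Fin (s + 1), k ≠ l → bf D.a D.b (bv F (jf k)) (bv F (ie l)) = 0 := by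
    intro k l hkl
    rw [bf_comm]
    exact bef l k hkl.symm
  have bef1 : ∀ k : Fin (s + 1), bf D.a D.b (bv F (ie k)) (bv F (jf k)) = 1 := by
    intro k
    rw [bf_jf, bv_apply, if_pos rfl]
  have hie : ∀ k : Fin (s + 1), k ≠ Fin.last s →
      ∃ u : G.U, ((u : D.V) : Ix (s + 1) → F) = bv F (ie k) := fun k hk =>
    ⟨⟨⟨bv F (ie k), BrB_memV (by simp)⟩,
      BrB_memU hG (by simp) (bee _ _) (bfe _ _ hk.symm)⟩, rfl⟩
  have hjf : ∀ k : Fin (s + 1), k ≠ Fin.last s →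
      ∃ u : G.U, ((u : D.V) : Ix (s + 1) → F) = bv F (jf k) := fun k hk =>
    ⟨⟨⟨bv F (jf k), BrB_memV (by simp)⟩,
      BrB_memU hG (by simp) (bef _ _ hk.symm) (bff _ _)⟩, rfl⟩
  obtain ⟨a, ha⟩ := hie i hi
  obtain ⟨b, hb⟩ := hjf i hi
  obtain ⟨a', ha'⟩ := hie j hj
  obtain ⟨b', hb'⟩ := hjf j hj
  have hq : ∀ u : G.U, G.qU u = qf D.a D.b ((u : D.V) : Ix (s + 1) → F) := by
    intro u
    rw [SpD.qU_apply, hG.q]
  have hp : ∀ u v : G.U, pl G.qU u v =
      bf D.a D.b ((u : D.V) : Ix (s + 1) → F) ((v : D.V) : Ix (s + 1) → F) := by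
    intro u v
    rw [SpD.pl_qU, hG.pl]
  refine ⟨a, b, a', b', ?_, ?_, ?_, ?_, ?_, ?_, ?_, ?_, ?_, ?_⟩
  · rw [hq, ha, qf_ie]
  · rw [hq, hb, qf_jf]
  · rw [hq, ha', qf_ie]
  · rw [hq, hb', qf_jf]
  · rw [hp, ha, hb, bef1]
  · rw [hp, ha', hb', bef1]
  · rw [hp, ha, ha', bee]
  · rw [hp, ha, hb', bef _ _ hij]
  · rw [hp, hb, ha', bfe _ _ hij]
  · rw [hp, hb, hb', bff]

end dat

theorem tBrB (h1 : SpnEStmt) : BrBStmt := by
  intro F _ s D G hs hG
  exact ⟨BrB_nd hG, BrB_iso hG, BrB_act hG, BrB_mul hG, BrB_sml hG, BrB_slf hG, BrB_cnj hG,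
    BrB_ker hG h1, BrB_qe hG, BrB_qf hG, BrB_ef hG, BrB_hyp hG hs⟩

end MP7Z.Ord
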