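import Pool.Agent.Lib.MP_7f581e_Z.Ort.SpecD

/-!
# Orthogonal groups, part D, task BrC: all properties of the spin groups
-/

set_option autoImplicit false

namespace MP7Z.Ord

open MP7Z.Ort Matrix

section

variable {F : Type} [Field F] {s : ℕ} {D : Dat F (s + 1)} {G : SpD F D.V D.H}

theorem BrC_ext {h k : D.H} (hk : ((h : GL (Lx (s + 1)) F) : Matrix (Lx (s + 1)) (Lx (s + 1)) F) =
    ((k : GL (Lx (s + 1)) F) : Matrix (Lx (s + 1)) (Lx (s + 1)) F)) : h = k :=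
  Subtype.ext (Units.ext hk)

/-- Elements acting trivially are scalars. -/
theorem BrC_scal (hT : TrfStmt) (hR : IsRel D G) (h : D.H) (hh : ∀ v, G.ac h v = v) :
    ∃ κ : F, κ ^ 2 = 1 ∧ ((h : GL (Lx (s + 1)) F) : Matrix (Lx (s + 1)) (Lx (s + 1)) F) =
      κ • 1 := by
  have hne : Nonempty (Lx (s + 1)) := D.good.nonempty
  have hcom : ∀ v : Ix (s + 1) → F, v ∈ D.V →
      ((h : GL (Lx (s + 1)) F) : Matrix (Lx (s + 1)) (Lx (s + 1)) F) * gv D.g v =
        gv D.g v * ((h : GL (Lx (s + 1)) F) : Matrix (Lx (s + 1)) (Lx (s + 1)) F) := by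
    intro v hv
    have h1 := hR.ac h ⟨v, hv⟩
    rw [hh] at h1
    exact h1
  have hm := mem_SG.1 h.2
  obtain ⟨κ, hκ⟩ := (hT.1 F (Lx (s + 1)) D.a D.b (s + 1) D.g D.good.disc.ne_zero D.good.card
    D.good.frame).2.1 ((h : GL (Lx (s + 1)) F) : Matrix (Lx (s + 1)) (Lx (s + 1)) F) (fun i => by
      by_cases hi : D.o ∧ i = iw 0
      · obtain ⟨ho, rfl⟩ := hi
        exact hm.2.2.2.2 ho
      · have h1 : bv F i ∈ D.V := by
          intro ho
          rw [bv_apply, if_neg]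
          intro h2
          exact hi ⟨ho, h2.symm⟩
        have h2 := hcom _ h1
        rwa [gv_bv] at h2)
  refine ⟨κ, ?_, hκ⟩
  have h1 := hm.2.1
  rw [hκ, rv_smul, rv_one, Matrix.smul_mul, Matrix.one_mul, smul_smul, ← pow_two] at h1
  apply smul_one_inj (l := Lx (s + 1))
  rw [h1, one_smul]

/-- The generators. -/
theorem BrC_gen (hG : GenOStmt) (hR : IsRel D G) (_ : G.IsS0) :
    Subgroup.closure {h | ∃ v ∈ G.U, h = G.si G.e v ∨ h = G.si G.f v} = ⊤ := by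
  have hF := D.good.frame
  have hUe : ∀ w : Ix (s + 1) → F, ∀ hw : w ∈ D.V, pl G.q G.e ⟨w, hw⟩ = w (jf (Fin.last s)) := by
    intro w hw
    rw [hR.pl]
    change bf D.a D.b ((G.e : D.V) : Ix (s + 1) → F) w = _
    rw [hR.e, bf_comm, bf_ie]
  have hUf : ∀ w : Ix (s + 1) → F, ∀ hw : w ∈ D.V, pl G.q G.f ⟨w, hw⟩ = w (ie (Fin.last s)) := by
    intro w hw
    rw [hR.pl]
    change bf D.a D.b ((G.f : D.V) : Ix (s + 1) → F) w = _
    rw [hR.f, bf_comm, bf_jf]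
  have hqe : G.q G.e = 0 := by
    rw [hR.q]
    change qf D.a D.b ((G.e : D.V) : Ix (s + 1) → F) = _
    rw [hR.e, qf_ie]
  have hqf : G.q G.f = 0 := by
    rw [hR.q]
    change qf D.a D.b ((G.f : D.V) : Ix (s + 1) → F) = _
    rw [hR.f, qf_jf]
  have key : ∀ u : GL (Lx (s + 1)) F, u ∈ G1 D.g D.o (Fin.last s) → ∃ hu : u ∈ D.H,
      (⟨u, hu⟩ : D.H) ∈ Subgroup.closure {h | ∃ v ∈ G.U, h = G.si G.e v ∨ h = G.si G.f v} := by
    intro u hu
    induction hu using Subgroup.closure_induction with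
    | mem u hu =>
      obtain ⟨v, hv, hu⟩ := hu
      have hvV : v ∈ D.V := hv.1
      have hv1 := hv.2 (Fin.last s) (by simp)
      have hvU : (⟨v, hvV⟩ : D.V) ∈ G.U := ⟨by rw [hUe, hv1.2], by rw [hUf, hv1.1]⟩
      rcases hu with hu | hu
      · have h1 := hR.si G.e ⟨v, hvV⟩ hqe hvU.1
        have h2 : u = ((G.si G.e ⟨v, hvV⟩ : D.H) : GL (Lx (s + 1)) F) := by
          apply Units.ext
          rw [hu, h1]
          change 1 + D.g (ie (Fin.last s)) * gv D.g v =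
            1 + gv D.g ((G.e : D.V) : Ix (s + 1) → F) * gv D.g v
          rw [hR.e, gv_bv]
        subst h2
        exact ⟨(G.si G.e ⟨v, hvV⟩).2, Subgroup.subset_closure ⟨_, hvU, Or.inl rfl⟩⟩
      · have h1 := hR.si G.f ⟨v, hvV⟩ hqf hvU.2
        have h2 : u = ((G.si G.f ⟨v, hvV⟩ : D.H) : GL (Lx (s + 1)) F) := by
          apply Units.ext
          rw [hu, h1]
          change 1 + D.g (jf (Fin.last s)) * gv D.g v =
            1 + gv D.g ((G.f : D.V) : Ix (s + 1) → F) * gv D.g v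
          rw [hR.f, gv_bv]
        subst h2
        exact ⟨(G.si G.f ⟨v, hvV⟩).2, Subgroup.subset_closure ⟨_, hvU, Or.inr rfl⟩⟩
    | one => exact ⟨D.H.one_mem, Subgroup.one_mem _⟩
    | mul u u' _ _ h1 h2 =>
      obtain ⟨h3, h4⟩ := h1
      obtain ⟨h5, h6⟩ := h2
      exact ⟨D.H.mul_mem h3 h5, Subgroup.mul_mem _ h4 h6⟩
    | inv u _ h1 =>
      obtain ⟨h3, h4⟩ := h1
      exact ⟨D.H.inv_mem h3, Subgroup.inv_mem _ h4⟩
  rw [eq_top_iff]
  rintro ⟨u, hu⟩ -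
  obtain ⟨h1, h2⟩ := key u (hG F (Lx (s + 1)) D.a D.b s D.g D.P D.o D.good hu)
  exact h2

end

theorem tBrC (h1 : CenSStmt) (h2 : GenOStmt) (h3 : TrfStmt) : BrCStmt := by
  intro p _ F _ _ _ s D G _ hR h0
  refine { h0 with ze := ?_, gen := BrC_gen h2 hR h0 }
  intro hp
  obtain ⟨z, hz⟩ := exists_prime_orderOf_dvd_card' p hp
  obtain ⟨c, hc, hcv⟩ := h1 F D.V D.H G h0 (z : D.H) z.2
  have hz2 : ∀ v, G.ac ((z : D.H) ^ 2) v = v := by
    intro v
    rw [pow_two, map_mul, LinearEquiv.mul_apply, hcv, hcv, smul_smul, ← pow_two, hc, one_smul]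
  obtain ⟨κ, hκ, hz3⟩ := BrC_scal h3 hR _ hz2
  have hz4 : (z : D.H) ^ 4 = 1 := by
    apply BrC_ext
    have h4 : (z : D.H) ^ 4 = (z : D.H) ^ 2 * (z : D.H) ^ 2 := by rw [← pow_add]
    rw [h4]
    change ((((z : D.H) ^ 2 : D.H) : GL (Lx (s + 1)) F) : Matrix (Lx (s + 1)) (Lx (s + 1)) F) *
      ((((z : D.H) ^ 2 : D.H) : GL (Lx (s + 1)) F) : Matrix (Lx (s + 1)) (Lx (s + 1)) F) = 1
    rw [hz3, Matrix.smul_mul, Matrix.one_mul, smul_smul, ← pow_two, hκ, one_smul]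
  have hz4' : z ^ 4 = 1 := Subtype.ext hz4
  have h5 : p ∣ 2 ^ 2 := by
    rw [← hz]
    exact orderOf_dvd_of_pow_eq_one hz4'
  have h6 : p = 2 := (Nat.prime_dvd_prime_iff_eq Fact.out Nat.prime_two).1
    ((Fact.out : p.Prime).dvd_of_dvd_pow h5)
  subst h6
  have hone : ∀ c : F, c ^ 2 = 1 → c = 1 := by
    intro c hc
    have h7 : (2 : F) = 0 := by
      have h8 := CharP.cast_eq_zero F 2
      exact_mod_cast h8
    have h9 : (c - 1) ^ 2 = 0 := by linear_combination hc + (1 - c) * h7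
    exact sub_eq_zero.1 (pow_eq_zero_iff two_ne_zero |>.1 h9)
  have hc1 := hone c hc
  obtain ⟨κ', hκ', hz5⟩ := BrC_scal h3 hR (z : D.H) (fun v => by rw [hcv, hc1, one_smul])
  rw [hone κ' hκ', one_smul] at hz5
  have hz6 : (z : D.H) = 1 := BrC_ext hz5
  have hz7 : z = 1 := Subtype.ext hz6
  rw [hz7, orderOf_one] at hz
  exact absurd hz (by norm_num)

end MP7Z.Ord
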