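import Pool.Agent.Lib.MP_7f581e_Z.Ort.SpecD
import Pool.Agent.Lib.MP_7f581e_Z.Ort.DAct

/-!
# Orthogonal groups, part D, task Cen: the centralizer of `R_e`
-/

set_option autoImplicit false

namespace MP7Z.Ord

theorem Cen_one {K V H : Type} [Field K] [AddCommGroup V] [Module K V] [Group H] {G : SpD K V H}
    (h2 : FixStmt) (h0 : G.IsS0) (h : H) (hh : ∀ r ∈ G.R G.e, h * r = r * h) :
    ∃ c : K, c ^ 2 = 1 ∧ G.ac h G.e = c • G.e ∧
        ∀ v, pl G.q G.e v = 0 → ∃ d : K, G.ac h v = c • v + d • G.e := by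
  have hqe : G.q (G.ac h G.e) = 0 := by rw [h0.iso, h0.qe]
  have hle : G.R G.e ≤ G.R (G.ac h G.e) := by
    intro r hr
    have h3 := (h0.R_conj h h0.qe).2 hr
    rwa [hh r hr, mul_inv_cancel_right] at h3
  obtain ⟨c, hc⟩ := ((h2 K V H G h0 G.e h0.e_ne h0.qe).2.2) _ hqe hle
  have hc0 : c ≠ 0 := by
    intro h3
    rw [h3, zero_smul] at hc
    exact h0.e_ne ((G.ac h).injective (by rw [hc, map_zero]))
  -- the action on `e⊥`
  have key : ∀ v, pl G.q G.e v = 0 → ∃ d : K, c • G.ac h v = v + d • G.e := by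
    intro v hv
    have h3 : G.si G.e v = G.si G.e (c • G.ac h v) := by
      have h4 := h0.cnj h G.e v h0.qe hv
      rw [hh _ (h0.si_mem hv), mul_inv_cancel_right, hc] at h4
      rw [h4, h0.sml c G.e _ h0.qe]
      have h5 : pl G.q (c • G.e) (G.ac h v) = 0 := by rw [← hc, h0.isoB, hv]
      rw [pl_smull] at h5
      exact (mul_eq_zero.1 h5).resolve_left hc0
    have h4 : pl G.q G.e (c • G.ac h v) = 0 := by
      have h5 : pl G.q (c • G.e) (G.ac h v) = 0 := by rw [← hc, h0.isoB, hv]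
      rw [pl_smulr]
      rwa [pl_smull] at h5
    exact h0.si_inj h0.e_ne h0.qe h4 hv h3.symm
  obtain ⟨w, hw, hqw⟩ := h0.exists_one
  have hc2 : c ^ 2 = 1 := by
    obtain ⟨d, hd⟩ := key w hw.1
    have h3 := congrArg G.q hd
    rw [q_smul, h0.iso, hqw, q_add, q_smul, h0.qe, pl_smulr, h0.pUe hw, hqw] at h3
    linear_combination h3
  refine ⟨c, hc2, hc, fun v hv => ?_⟩
  obtain ⟨d, hd⟩ := key v hv
  refine ⟨c * d, ?_⟩
  have h3 : G.ac h v = c • (c • G.ac h v) := by rw [smul_smul, ← pow_two, hc2, one_smul]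
  rw [h3, hd, smul_add, smul_smul]

theorem tCen (h2 : FixStmt) : CenStmt := by
  intro K V H _ _ _ _ G h0 h hh
  have h1 := Cen_one h2 h0 h hh
  refine ⟨h1, ?_⟩
  obtain ⟨c, hc2, hce, hcv⟩ := h1
  have hc0 : c ≠ 0 := fun h3 => by
    rw [h3] at hc2
    norm_num at hc2
  have hcc : c * c = 1 := by rw [← pow_two, hc2]
  -- the vector `y`
  have hyq : G.q (c • G.ac h G.f) = 0 := by rw [q_smul, h0.iso, h0.qf, mul_zero]
  have hye : pl G.q (c • G.ac h G.f) G.e = 1 := by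
    have h3 : pl G.q (G.ac h G.f) (G.ac h G.e) = 1 := by rw [h0.isoB, h0.fe]
    rw [hce, pl_smulr] at h3
    rw [pl_smull, h3]
  obtain ⟨v, hv, hvf⟩ := h0.to_f hyq hye
  refine ⟨G.si G.e v, h0.si_mem hv.1, (G.si G.e v)⁻¹ * h, ?_, by group⟩
  have hie : G.ac (G.si G.e v)⁻¹ G.e = G.e := by
    have h3 := h0.ac_inv (G.si G.e v) G.e
    rwa [h0.e_e hv] at h3
  have ke : G.ac ((G.si G.e v)⁻¹ * h) G.e = c • G.e := by
    rw [map_mul, LinearEquiv.mul_apply, hce, map_smul, hie]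
  have kf : G.ac ((G.si G.e v)⁻¹ * h) G.f = c • G.f := by
    have h3 : G.ac h G.f = c • (c • G.ac h G.f) := by rw [smul_smul, hcc, one_smul]
    rw [map_mul, LinearEquiv.mul_apply, h3, ← hvf, map_smul, h0.ac_inv]
  have ku : ∀ u ∈ G.U, G.ac ((G.si G.e v)⁻¹ * h) u = c • u := by
    intro u hu
    obtain ⟨d, hd⟩ := hcv u hu.1
    have h3 : G.ac (G.si G.e v)⁻¹ u = u - pl G.q u v • G.e := by
      have h4 := h0.e_U hv hu
      have h5 : u = G.ac (G.si G.e v) (u - pl G.q u v • G.e) := by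
        rw [map_sub, map_smul, h4, h0.e_e hv, add_sub_cancel_right]
      conv_lhs => rw [h5]
      rw [h0.ac_inv]
    have h5 : G.ac ((G.si G.e v)⁻¹ * h) u = c • u + (d - c * pl G.q u v) • G.e := by
      rw [map_mul, LinearEquiv.mul_apply, hd, map_add, map_smul, map_smul, h3, hie, smul_sub,
        smul_smul, sub_smul]
      abel
    have h6 : d - c * pl G.q u v = 0 := by
      have h7 : pl G.q (G.ac ((G.si G.e v)⁻¹ * h) u) (G.ac ((G.si G.e v)⁻¹ * h) G.f) = 0 := by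
        rw [h0.isoB, h0.pUf hu]
      rw [h5, kf, pl_smulr, pl_addl, pl_smull, pl_smull, h0.pUf hu, h0.ef, mul_zero, zero_add,
        mul_one] at h7
      exact (mul_eq_zero.1 h7).resolve_left hc0
    rw [h5, h6, zero_smul, add_zero]
  refine h0.ker _ c fun z => ?_
  obtain ⟨u, hu, hz⟩ := h0.dec z
  rw [hz, map_add, map_add, map_smul, map_smul, ke, kf, ku u hu, smul_add, smul_add, smul_comm c,
    smul_comm c (pl G.q z G.e)]

end MP7Z.Ord
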