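import Pool.Agent.Lib.MP_7f581e_Z.Ort.SpecD
import Pool.Agent.Lib.MP_7f581e_Z.Ort.DAct

/-!
# Orthogonal groups, part D, task CenS: the centre acts by scalars
-/

set_option autoImplicit false

namespace MP7Z.Ord

theorem tCenS (h1 : CenStmt) (_ : TrStmt) : CenSStmt := by
  intro K V H _ _ _ _ G h0 z hz
  have hzc : ∀ h : H, z * h = h * z := fun h => (Subgroup.mem_center_iff.1 hz h).symm
  obtain ⟨⟨c, hc2, hce, hcv⟩, -⟩ := h1 K V H G h0 z fun r _ => hzc r
  have hc0 : c ≠ 0 := fun h3 => by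
    rw [h3] at hc2
    norm_num at hc2
  refine ⟨c, hc2, ?_⟩
  have hf : G.ac z G.f = c • G.f := by
    obtain ⟨h, d, hd, h2⟩ := h0.trans h0.f_ne h0.qf
    have h3 : G.ac h (G.ac z G.f) = G.ac h (c • G.f) := by
      rw [← LinearEquiv.mul_apply, ← map_mul, ← hzc, map_mul, LinearEquiv.mul_apply, h2, map_smul,
        hce, map_smul, h2, smul_comm]
    exact (G.ac h).injective h3
  have hu : ∀ u ∈ G.U, G.ac z u = c • u := by
    intro u hu
    obtain ⟨d, hd⟩ := hcv u hu.1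
    have h3 : pl G.q (G.ac z u) (G.ac z G.f) = 0 := by rw [h0.isoB, h0.pUf hu]
    rw [hd, hf, pl_smulr, pl_addl, pl_smull, pl_smull, h0.pUf hu, h0.ef, mul_zero, zero_add,
      mul_one] at h3
    rw [hd, (mul_eq_zero.1 h3).resolve_left hc0, zero_smul, add_zero]
  intro v
  obtain ⟨u, hu', hv⟩ := h0.dec v
  rw [hv, map_add, map_add, map_smul, map_smul, hce, hf, hu u hu', smul_add, smul_add, smul_comm c,
    smul_comm c (pl G.q v G.e)]

end MP7Z.Ord
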