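import Pool.Agent.Lib.MP_7f581e_Z.Ort.SpecD

/-!
# Orthogonal groups, automorphisms: orders
-/

set_option autoImplicit false

namespace MP7Z.Ord

section

variable {K V H : Type} [Field K] [AddCommGroup V] [Module K V] [Group H] {G : SpD K V H}

theorem CnZ_pl {W : Submodule K V} (hW : ∀ w ∈ W, G.q w = 0) {x y : V} (hx : x ∈ W) (hy : y ∈ W) :
    pl G.q x y = 0 := by
  have h1 := q_add G.q x y
  rw [hW _ (add_mem hx hy), hW x hx, hW y hy] at h1
  linear_combination -h1

/-- Every functional is given by a vector. -/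
theorem CnZ_dual [FiniteDimensional K V] (hnd : Nd G.q) (W : Submodule K V) (g : W →ₗ[K] K) :
    ∃ z : V, ∀ w : W, pl G.q z (w : V) = g w := by
  obtain ⟨g', hg'⟩ := LinearMap.exists_extend g
  let L : V →ₗ[K] Module.Dual K V :=
    { toFun := fun x =>
        { toFun := fun y => pl G.q x y
          map_add' := fun y z => pl_addr _ _ _ _
          map_smul' := fun c y => pl_smulr _ _ _ _ }
      map_add' := fun x y => LinearMap.ext fun z => pl_addl _ _ _ _
      map_smul' := fun c x => LinearMap.ext fun z => pl_smull _ _ _ _ }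
  have hL : Function.Injective L := by
    rw [← LinearMap.ker_eq_bot, LinearMap.ker_eq_bot']
    intro x hx
    exact hnd x fun y => LinearMap.congr_fun hx y
  have hL' : Function.Surjective L :=
    (LinearMap.injective_iff_surjective_of_finrank_eq_finrank
      (Subspace.dual_finrank_eq (K := K) (V := V)).symm).1 hL
  obtain ⟨z, hz⟩ := hL' g'
  refine ⟨z, fun w => ?_⟩
  have h1 : L z (w : V) = g' (w : V) := LinearMap.congr_fun hz _
  have h2 : g' (w : V) = g w := LinearMap.congr_fun hg' w
  rw [← h2, ← h1]
  rfl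

/-- The map `V → K²`. -/
def CnZ_f (G : SpD K V H) : V →ₗ[K] K × K where
  toFun v := (pl G.q G.e v, pl G.q G.f v)
  map_add' v w := by rw [pl_addr, pl_addr]; rfl
  map_smul' c v := by rw [pl_smulr, pl_smulr]; rfl

theorem CnZ_finrank [FiniteDimensional K V] (h0 : G.IsS0) :
    Module.finrank K G.U = Module.finrank K V - 2 := by
  have h1 := LinearMap.finrank_range_add_finrank_ker (CnZ_f G)
  have h2 : LinearMap.ker (CnZ_f G) = G.U := by
    ext v
    rw [LinearMap.mem_ker, G.mem_U]
    change (pl G.q G.e v, pl G.q G.f v) = (0, 0) ↔ _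
    rw [Prod.mk.injEq]
  have h3 : LinearMap.range (CnZ_f G) = ⊤ := by
    rw [LinearMap.range_eq_top]
    rintro ⟨c, d⟩
    refine ⟨c • G.f + d • G.e, ?_⟩
    change (pl G.q G.e _, pl G.q G.f _) = _
    rw [pl_addr, pl_addr, pl_smulr, pl_smulr, pl_smulr, pl_smulr, h0.ef, h0.ee, h0.ff, h0.fe]
    simp
  rw [h2, h3, finrank_top, Module.finrank_prod, Module.finrank_self] at h1
  omega

theorem CnZ_card [Finite K] [FiniteDimensional K V] (h0 : G.IsS0) :
    Nat.card (G.R G.e) = Nat.card K ^ (Module.finrank K V - 2) := by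
  rw [← CnZ_finrank h0, ← Module.natCard_eq_pow_finrank]
  refine (Nat.card_congr (Equiv.ofBijective (fun u : G.U => (⟨G.si G.e (u : V),
    h0.si_mem u.2.1⟩ : G.R G.e)) ⟨?_, ?_⟩)).symm
  · intro u v huv
    exact Subtype.ext (h0.si_e_inj u.2 v.2 (congrArg Subtype.val huv))
  · rintro ⟨h, hh⟩
    obtain ⟨u, hu, rfl⟩ := h0.mem_Re.1 hh
    exact ⟨⟨u, hu⟩, rfl⟩

/-- Products of the Siegel elements with vectors in `W`. -/
theorem CnZ_prod (h0 : G.IsS0) {W : Submodule K V} (hW : ∀ w ∈ W, G.q w = 0)
    (hRW : ∀ h ∈ G.RW W, ∀ w ∈ W, G.ac h w = w) {P : Type} (x y : P → W) (c : P → K)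
    (S : Finset P) : ∃ h ∈ G.RW W, ∀ v, G.ac h v = v + ∑ q ∈ S,
      ((c q * pl G.q v (y q : V)) • (x q : V) - (c q * pl G.q v (x q : V)) • (y q : V)) := by
  classical
  induction S using Finset.induction_on with
  | empty =>
    refine ⟨1, one_mem _, fun v => ?_⟩
    rw [map_one, Finset.sum_empty, add_zero]
    rfl
  | insert q S hq ih =>
    obtain ⟨h, hh, h1⟩ := ih
    have hcy : c q • (y q : V) ∈ W := W.smul_mem _ (y q).2
    refine ⟨h * G.si (x q : V) (c q • (y q : V)), mul_mem hh
      (Subgroup.subset_closure ⟨_, (x q).2, _, hcy, rfl⟩), fun v => ?_⟩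
    have h2 : G.ac (G.si (x q : V) (c q • (y q : V))) v = v +
        ((c q * pl G.q v (y q : V)) • (x q : V) - (c q * pl G.q v (x q : V)) • (y q : V)) := by
      rw [h0.act _ _ (hW _ (x q).2) (CnZ_pl hW (x q).2 hcy), sie, hW _ hcy, mul_zero, zero_smul,
        sub_zero, pl_smulr, smul_smul, mul_comm (pl G.q v (x q : V))]
      abel
    have h3 : (c q * pl G.q v (y q : V)) • (x q : V) -
        (c q * pl G.q v (x q : V)) • (y q : V) ∈ W :=
      sub_mem (W.smul_mem _ (x q).2) (W.smul_mem _ (y q).2)
    rw [map_mul, LinearEquiv.mul_apply, h2, map_add, h1, hRW h hh _ h3, Finset.sum_insert hq]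
    abel

end

theorem tCnZ (hRZ : RZStmt) : CnZStmt := by
  intro p _ K V H _ _ _ _ _ _ _ _ G h0
  refine ⟨CnZ_card h0, fun W hW => ?_⟩
  obtain ⟨-, -, -, -, hRW⟩ := hRZ p K V H G h0 W hW
  set j := Module.finrank K W with hj
  let b := Module.finBasis K W
  choose z hz using fun m : Fin j => CnZ_dual h0.nd W (b.coord m)
  have hzb : ∀ m k : Fin j, pl G.q (z m) (b k : V) = if m = k then 1 else 0 := by
    intro m k
    rw [hz m (b k), Module.Basis.coord_apply, Module.Basis.repr_self, Finsupp.single_apply]
    simp only [eq_comm]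
  let P : Type := (k : Fin j) × Fin k.val
  let x : P → W := fun q => b ⟨q.2.val, lt_trans q.2.2 q.1.2⟩
  let y : P → W := fun q => b q.1
  have : Finite (G.RW W) := inferInstance
  choose f hf hf' using fun c : P → K => CnZ_prod h0 hW hRW x y c Finset.univ
  have hinj : Function.Injective (fun c : P → K => (⟨f c, hf c⟩ : G.RW W)) := by
    intro c c' hcc
    have h1 : f c = f c' := congrArg Subtype.val hcc
    have key : ∀ (c : P → K) (q : P), pl G.q (z ⟨q.2.val, lt_trans q.2.2 q.1.2⟩)
        (G.ac (f c) (z q.1) - z q.1) = c q := by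
      rintro c ⟨m, i⟩
      rw [hf' c, add_sub_cancel_left]
      have h2 : ∀ (S : Finset P) (u : P → V) (w : V), pl G.q w (∑ q ∈ S, u q) =
          ∑ q ∈ S, pl G.q w (u q) := by
        intro S u w
        classical
        induction S using Finset.induction_on with
        | empty => rw [Finset.sum_empty, Finset.sum_empty, pl_zeror]
        | insert q S hq ih => rw [Finset.sum_insert hq, Finset.sum_insert hq, pl_addr, ih]
      rw [h2, Finset.sum_eq_single (⟨m, i⟩ : P)]
      · rw [pl_subr, pl_smulr, pl_smulr]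
        change c ⟨m, i⟩ * pl G.q (z m) (b m : V) * pl G.q (z _) (b _ : V) -
          c ⟨m, i⟩ * pl G.q (z m) (b _ : V) * pl G.q (z _) (b m : V) = _
        rw [hzb, hzb, hzb, hzb, if_pos rfl, if_pos rfl, if_neg, if_neg]
        · ring
        · intro h
          have h3 := congrArg Fin.val h
          have h4 := i.2
          simp only at h3
          omega
        · intro h
          have h3 := congrArg Fin.val h
          have h4 := i.2
          simp only at h3
          omega
      · rintro ⟨m', i'⟩ - hne
        rw [pl_subr, pl_smulr, pl_smulr]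
        change c ⟨m', i'⟩ * pl G.q (z m) (b m' : V) * pl G.q (z _) (b _ : V) -
          c ⟨m', i'⟩ * pl G.q (z m) (b _ : V) * pl G.q (z _) (b m' : V) = _
        rw [hzb, hzb, hzb, hzb]
        have e1 : (if m = m' then (1 : K) else 0) *
            (if (⟨i.val, lt_trans i.2 m.2⟩ : Fin j) = ⟨i'.val, lt_trans i'.2 m'.2⟩
              then (1 : K) else 0) = 0 := by
          by_cases h3 : m = m'
          · subst h3
            rw [if_pos rfl, one_mul, if_neg]
            intro h4
            apply hne
            have h5 : i' = i := Fin.ext (congrArg Fin.val h4).symm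
            rw [h5]
          · rw [if_neg h3, zero_mul]
        have e2 : (if m = (⟨i'.val, lt_trans i'.2 m'.2⟩ : Fin j) then (1 : K) else 0) *
            (if (⟨i.val, lt_trans i.2 m.2⟩ : Fin j) = m' then (1 : K) else 0) = 0 := by
          by_cases h3 : m = (⟨i'.val, lt_trans i'.2 m'.2⟩ : Fin j)
          · rw [if_pos h3, one_mul, if_neg]
            intro h4
            have h5 := congrArg Fin.val h3
            have h6 := congrArg Fin.val h4
            have h7 := i.2
            have h8 := i'.2
            simp only at h5 h6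
            omega
          · rw [if_neg h3, zero_mul]
        rw [mul_assoc, mul_assoc]
        change c ⟨m', i'⟩ * ((if m = m' then (1 : K) else 0) * _) -
          c ⟨m', i'⟩ * ((if m = _ then (1 : K) else 0) * _) = 0
        rw [e1, e2, mul_zero, sub_zero]
      · intro h
        exact absurd (Finset.mem_univ _) h
    funext q
    rw [← key c q, ← key c' q, h1]
  have h2 := Nat.card_le_card_of_injective _ hinj
  have h3 : Nat.card (P → K) = Nat.card K ^ (j * (j - 1) / 2) := by
    rw [Nat.card_fun]
    congr 1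
    change Nat.card ((k : Fin j) × Fin k.val) = _
    rw [Nat.card_eq_fintype_card, Fintype.card_sigma]
    simp only [Fintype.card_fin]
    rw [Fin.sum_univ_eq_sum_range (fun k => k) j, Finset.sum_range_id]
  rwa [h3] at h2

end MP7Z.Ord
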