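import Pool.Agent.Lib.MP_7f581e_Z.Ort.SpecD
import Pool.Agent.Lib.MP_7f581e_Z.Ort.DAct

/-!
# Orthogonal groups, part D, task Fix: the fixed vectors of `R_x`
-/

set_option autoImplicit false

namespace MP7Z.Ord

theorem Fix_e {K V H : Type} [Field K] [AddCommGroup V] [Module K V] [Group H] {G : SpD K V H}
    (h0 : G.IsS0) (z : V) (hz : ∀ h ∈ G.R G.e, G.ac h z = z) : ∃ c : K, z = c • G.e := by
  have h1 : ∀ v ∈ G.U, pl G.q z v • G.e - pl G.q z G.e • v - (pl G.q z G.e * G.q v) • G.e = 0 := by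
    intro v hv
    have h2 := hz _ ((h0.mem_Re).2 ⟨v, hv, rfl⟩)
    rw [h0.act _ _ h0.qe hv.1, sie] at h2
    have h3 : z + pl G.q z v • G.e - pl G.q z G.e • v - (pl G.q z G.e * G.q v) • G.e - z = 0 := by
      rw [h2, sub_self]
    rw [← h3]
    abel
  obtain ⟨w, hw, hqw⟩ := h0.exists_one
  obtain ⟨u, hu, h2⟩ := h0.dec z
  have h3 : pl G.q z G.e = 0 := by
    by_contra hne
    have h4 := h1 w hw
    -- pair with a vector
    have h5 : pl G.q z G.e • w = (pl G.q z w - pl G.q z G.e * G.q w) • G.e := by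
      rw [sub_smul]
      have h6 : pl G.q z G.e • w = pl G.q z w • G.e - (pl G.q z G.e * G.q w) • G.e -
          (pl G.q z w • G.e - pl G.q z G.e • w - (pl G.q z G.e * G.q w) • G.e) := by abel
      rw [h6, h4, sub_zero]
    have h7 := congrArg (fun y => pl G.q y G.f) h5
    simp only [pl_smull] at h7
    rw [h0.pUf hw, h0.ef, mul_zero, mul_one] at h7
    rw [← h7, zero_smul] at h5
    have h8 := (smul_eq_zero.1 h5).resolve_left hne
    rw [h8, QuadraticMap.map_zero] at hqw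
    exact zero_ne_one hqw
  rw [h3, zero_smul, add_zero] at h2
  have h4 : (⟨u, hu⟩ : G.U) = 0 := by
    apply h0.ndU
    intro v
    rw [G.pl_qU]
    have h5 := h1 v v.2
    rw [h3, zero_smul, zero_mul, zero_smul, sub_zero, sub_zero] at h5
    have h6 := (smul_eq_zero.1 h5).resolve_right h0.e_ne
    rw [h2, pl_addl, pl_smull, v.2.1, mul_zero, zero_add] at h6
    exact h6
  have h5 : u = 0 := congrArg Subtype.val h4
  exact ⟨_, by rw [h2, h5, add_zero]⟩

theorem Fix_x {K V H : Type} [Field K] [AddCommGroup V] [Module K V] [Group H] {G : SpD K V H}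
    (h0 : G.IsS0) {x : V} (hx0 : x ≠ 0) (hx : G.q x = 0) (z : V)
    (hz : ∀ h ∈ G.R x, G.ac h z = z) : ∃ c : K, z = c • x := by
  obtain ⟨h, c, hc, h1⟩ := h0.trans hx0 hx
  have h2 : ∀ r ∈ G.R G.e, G.ac r (G.ac h z) = G.ac h z := by
    intro r hr
    rw [← h0.R_smul h0.qe hc, ← h1] at hr
    have h3 : h * (h⁻¹ * r * h) * h⁻¹ ∈ G.R (G.ac h x) := by
      have h4 : h * (h⁻¹ * r * h) * h⁻¹ = r := by group
      rw [h4]
      exact hr
    have h5 := hz _ ((h0.R_conj h hx).1 h3)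
    rw [map_mul, map_mul, LinearEquiv.mul_apply, LinearEquiv.mul_apply] at h5
    have h6 := congrArg (G.ac h) h5
    rwa [h0.inv_ac] at h6
  obtain ⟨d, hd⟩ := Fix_e h0 _ h2
  refine ⟨d * c⁻¹, ?_⟩
  apply (G.ac h).injective
  rw [hd, map_smul, h1, smul_smul, mul_assoc, inv_mul_cancel₀ hc, mul_one]

theorem tFix (_ : TrStmt) : FixStmt := by
  intro K V H _ _ _ _ G h0 x hx0 hx
  refine ⟨fun z hz => Fix_x h0 hx0 hx z hz, ?_, ?_⟩
  · intro hbot
    have h1 : ∀ z : V, ∃ c : K, z = c • x := by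
      intro z
      refine Fix_x h0 hx0 hx z fun h hh => ?_
      rw [hbot, Subgroup.mem_bot] at hh
      rw [hh, map_one]
      rfl
    obtain ⟨c, hc⟩ := h1 G.e
    obtain ⟨d, hd⟩ := h1 G.f
    have h2 := h0.ef
    rw [hc, hd, pl_smull, pl_smulr, pl_self, hx, mul_zero, mul_zero, mul_zero] at h2
    exact zero_ne_one h2
  · intro y hy hle
    exact Fix_x h0 hx0 hx y fun h hh => h0.R_fix hy (hle hh)

end MP7Z.Ord
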