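import Pool.Agent.Lib.MP_7f581e_Z.Ort.SpecD

/-!
# Orthogonal groups, part D: task Frk

The dimension of the quadratic space.
-/

set_option autoImplicit false

namespace MP7Z.Ord

open MP7Z.Ort Matrix

theorem Frk_card (s : ℕ) : Fintype.card (Ix s) = 2 * s + 2 := by
  simp only [Fintype.card_sum, Fintype.card_fin]
  ring

theorem tFrk : FrkStmt := by
  intro F _ s o
  constructor
  · intro ho
    let f : (Ix s → F) →ₗ[F] F := LinearMap.proj (iw 0)
    have h1 : Vo o s F = LinearMap.ker f := by
      ext v
      rw [mem_Vo, LinearMap.mem_ker]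
      exact ⟨fun h => h ho, fun h _ => h⟩
    have h2 := LinearMap.finrank_range_add_finrank_ker f
    have h3 : LinearMap.range f = ⊤ := by
      rw [LinearMap.range_eq_top]
      intro c
      exact ⟨fun _ => c, rfl⟩
    rw [h3, finrank_top, Module.finrank_self, Module.finrank_fintype_fun_eq_card, Frk_card,
      ← h1] at h2
    omega
  · intro ho
    have h1 : Vo o s F = ⊤ := by
      ext v
      rw [mem_Vo]
      exact ⟨fun _ => trivial, fun _ h => absurd h ho⟩
    rw [h1, finrank_top, Module.finrank_fintype_fun_eq_card, Frk_card]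

end MP7Z.Ord
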