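import Pool.Agent.Lib.MP_7f581e_Z.Ort.SpecD

/-!
# Fixed vectors of `p`-subgroups (`FxVStmt`)
-/

set_option autoImplicit false
set_option linter.unusedSectionVars false

namespace MP7Z.Ord

open MP7Z.Ort Matrix

section

variable {K V H : Type} [Field K] [AddCommGroup V] [Module K V] [Group H] (G : SpD K V H)

/-- The action of a subgroup on an invariant set. -/
@[reducible] def FxV_act (P : Subgroup H) (S : Set V) (hS : ∀ h ∈ P, ∀ x ∈ S, G.ac h x ∈ S) :
    MulAction P S where
  smul h x := ⟨G.ac h x, hS h h.2 x x.2⟩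
  one_smul x := Subtype.ext (by
    change G.ac 1 (x : V) = x
    rw [map_one]
    rfl)
  mul_smul h k x := Subtype.ext (by
    change G.ac ((h : H) * k) (x : V) = G.ac h (G.ac k x)
    rw [map_mul]
    rfl)

theorem FxV_fix (p : ℕ) [Fact p.Prime] (P : Subgroup H) (hP : IsPGroup p P) (S : Set V)
    [Finite S] (hS : ∀ h ∈ P, ∀ x ∈ S, G.ac h x ∈ S) (h0 : (0 : V) ∈ S)
    (hc : p ∣ Nat.card S) : ∃ x ∈ S, x ≠ 0 ∧ ∀ h ∈ P, G.ac h x = x := by
  let _ := FxV_act G P S hS
  have ha : (⟨0, h0⟩ : S) ∈ MulAction.fixedPoints P S := by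
    intro h
    apply Subtype.ext
    change G.ac (h : H) 0 = 0
    rw [map_zero]
  obtain ⟨b, hb, hne⟩ := hP.exists_fixed_point_of_prime_dvd_card_of_fixed_point S hc ha
  refine ⟨b, b.2, fun h => hne (Subtype.ext h.symm), fun h hh => ?_⟩
  exact congrArg Subtype.val (hb ⟨h, hh⟩)

end

theorem tFxV (zer : ZerStmt) : FxVStmt := by
  intro p _ K V H _ _ _ _ _ _ _ _ G h0 h3 P hP
  have hfin : Finite V := Module.finite_of_finite K
  constructor
  · obtain ⟨x, hx, hx0, hfx⟩ := FxV_fix G p P hP {x | G.q x = 0}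
      (fun h _ x hx => by
        change G.q (G.ac h x) = 0
        rw [h0.iso]
        exact hx) (map_zero G.q) (zer p K V G.q h3)
    exact ⟨x, hx0, hx, hfx⟩
  · intro W hW hinv
    have hc : p ∣ Nat.card (W : Set V) := by
      have h1 : Nat.card W = Nat.card K ^ Module.finrank K W := Module.natCard_eq_pow_finrank
      have h2 : p ∣ Nat.card K := by
        have := Fintype.ofFinite K
        rw [Nat.card_eq_fintype_card, ← CharP.cast_eq_zero_iff K p]
        exact FiniteField.cast_card_eq_zero K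
      have h4 : 0 < Module.finrank K W := by
        rw [Module.finrank_pos_iff]
        exact (Submodule.nontrivial_iff_ne_bot).2 hW
      change p ∣ Nat.card W
      rw [h1]
      exact h2.trans (dvd_pow_self _ h4.ne')
    obtain ⟨x, hx, hx0, hfx⟩ := FxV_fix G p P hP (W : Set V) (fun h hh x hx => hinv h hh x hx)
      W.zero_mem hc
    exact ⟨x, hx, hx0, hfx⟩

end MP7Z.Ord
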