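import Pool.Agent.Lib.MP_7f581e_Z.Ort.SpecD

/-!
# Orthogonal groups, part D, task Irr: invariant additive subgroups
-/

set_option autoImplicit false

namespace MP7Z.Ord

theorem tIrr (h1 : SngStmt) : IrrStmt := by
  intro K W _ _ _ q hN hH A hA hne
  obtain ⟨s1, s2, s3, s4, s5⟩ := h1 K W q hN hH
  -- two isotropic vectors
  have hT : ∀ x y z : W, q x = 0 → q y = 0 → pl q x y = 0 → z ∈ A → ∀ c : K,
      c • (pl q z y • x - pl q z x • y) ∈ A := by
    intro x y z hx hy hxy hz c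
    have h := A.sub_mem (hA x (c • y) hx (by rw [pl_smulr, hxy, mul_zero]) z hz) hz
    have e : sie q x (c • y) z - z = c • (pl q z y • x - pl q z x • y) := by
      rw [sie, q_smul, hy, pl_smulr, mul_zero, mul_zero, zero_smul, smul_sub, smul_smul, smul_smul,
        smul_smul, mul_comm (pl q z x) c]
      abel
    rwa [e] at h
  -- step (ii)
  have step : ∀ x₁ x : W, x₁ ≠ 0 → q x₁ = 0 → (∀ c : K, c • x₁ ∈ A) → q x = 0 →
      pl q x x₁ = 0 → ∀ c : K, c • x ∈ A := by
    intro x₁ x hx₁ hq₁ hA₁ hx hxx c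
    by_cases hx0 : x = 0
    · rw [hx0, smul_zero]
      exact A.zero_mem
    by_cases hm : ∃ r : K, x₁ = r • x
    · obtain ⟨r, hr⟩ := hm
      have hr0 : r ≠ 0 := fun h => hx₁ (by rw [hr, h, zero_smul])
      have h2 := hA₁ (c * r⁻¹)
      rwa [hr, smul_smul, mul_assoc, inv_mul_cancel₀ hr0, mul_one] at h2
    · push Not at hm
      obtain ⟨v, hv1, hv2⟩ := s2 x x₁ hm
      have h2 := A.sub_mem (hA x v hx hv1 (c • x₁) (hA₁ c)) (hA₁ c)
      have e : sie q x v (c • x₁) - c • x₁ = c • x := by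
        rw [sie, pl_smull, pl_smull, hv2, pl_comm q x₁ x, hxx, mul_one, mul_zero, zero_mul,
          zero_smul, zero_smul]
        abel
      rwa [e] at h2
  -- a nonzero element
  obtain ⟨z, hz, hz0⟩ : ∃ z ∈ A, z ≠ 0 := by
    by_contra h
    push Not at h
    exact hne ((AddSubgroup.eq_bot_iff_forall A).2 h)
  obtain ⟨x, hqx, hzx⟩ : ∃ x, q x = 0 ∧ pl q z x ≠ 0 := by
    by_contra h
    push Not at h
    let A' : AddSubgroup W :=
      { carrier := {x | pl q z x = 0}
        zero_mem' := pl_zeror q z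
        add_mem' := fun {a b} ha hb => by
          change pl q z (a + b) = 0
          rw [pl_addr, show pl q z a = 0 from ha, show pl q z b = 0 from hb, add_zero]
        neg_mem' := fun {a} ha => by
          change pl q z (-a) = 0
          rw [pl_negr, show pl q z a = 0 from ha, neg_zero] }
    have hA' : A' = ⊤ := s1 A' h
    apply hz0
    apply hN
    intro y
    have hy : y ∈ A' := by
      rw [hA']
      exact AddSubgroup.mem_top y
    exact hy
  have hx0 : x ≠ 0 := fun h => hzx (by rw [h, pl_zeror])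
  obtain ⟨y, hy1, hy2, hy3⟩ := s4 x hx0 hqx
  obtain ⟨x₁, hx₁⟩ : ∃ x₁, x₁ = pl q z y • x - pl q z x • y := ⟨_, rfl⟩
  have h1A : ∀ c : K, c • x₁ ∈ A := by
    intro c
    rw [hx₁]
    exact hT x y z hqx hy1 hy2 hz c
  have h1q : q x₁ = 0 := by
    rw [hx₁, q_sub, q_smul, q_smul, pl_smull, pl_smulr, hqx, hy1, hy2]
    ring
  have h10 : x₁ ≠ 0 := by
    intro h
    apply hy3 ((pl q z x)⁻¹ * pl q z y)
    rw [hx₁, sub_eq_zero] at h
    rw [← smul_smul, h, smul_smul, inv_mul_cancel₀ hzx, one_smul]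
  refine s1 A fun w hw => ?_
  by_cases hB : pl q w x₁ = 0
  · have h2 := step x₁ w h10 h1q h1A hw hB 1
    rwa [one_smul] at h2
  · obtain ⟨u, hu0, hu1, hu2, hu3⟩ := s5 x₁ w h10 h1q hw (by rwa [pl_comm])
    have hw0 : w ≠ 0 := fun h => hB (by rw [h, pl_zerol])
    have h2 := step x₁ u h10 h1q h1A hu1 (by rw [pl_comm]; exact hu2)
    have h3 := step u w hu0 hu1 h2 hw hu3 1
    rwa [one_smul] at h3

end MP7Z.Ord
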