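import Pool.Agent.Lib.MP_7f581e_Z.Ort.SpecD

/-!
# Orthogonal groups, part D: totally singular subspaces if the kernel is anisotropic
-/

set_option autoImplicit false

namespace MP7Z.Ord

open MP7Z.Ort Matrix

theorem Iso_dot {F : Type} [Field F] {s : ℕ} (A E : Submodule F (Fin s → F))
    (h : ∀ x ∈ A, ∀ y ∈ E, ∑ i, x i * y i = 0) :
    Module.finrank F A + Module.finrank F E ≤ s := by
  have hinj := (Pi.basisFun F (Fin s)).toDual_injective
  have h1 : A.map (Pi.basisFun F (Fin s)).toDual ≤ E.dualAnnihilator := by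
    rintro _ ⟨x, hx, rfl⟩
    rw [Submodule.mem_dualAnnihilator]
    intro y hy
    have h2 : (Pi.basisFun F (Fin s)).toDual x y = ∑ i, x i * y i := by
      conv_lhs => rw [← (Pi.basisFun F (Fin s)).sum_repr y]
      rw [map_sum]
      refine Finset.sum_congr rfl fun i _ => ?_
      rw [map_smul, Module.Basis.toDual_apply_left, Pi.basisFun_repr, Pi.basisFun_repr,
        smul_eq_mul, mul_comm]
    rw [h2]
    exact h x hx y hy
  have h2 := Submodule.finrank_mono h1
  have h3 := Subspace.finrank_add_finrank_dualAnnihilator_eq E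
  rw [← (Submodule.equivMapOfInjective _ hinj A).finrank_eq] at h2
  rw [Module.finrank_fin_fun] at h3
  omega

theorem Iso_qf_add {F : Type} [Field F] {s : ℕ} (a b : F) (v w : Ix s → F) :
    qf a b (v + w) = qf a b v + qf a b w + bf a b v w := by
  have h1 : ∑ i : Fin s, (v (ie i) + w (ie i)) * (v (jf i) + w (jf i)) =
      ∑ i : Fin s, v (ie i) * v (jf i) + ∑ i : Fin s, w (ie i) * w (jf i) +
        ∑ i : Fin s, (v (ie i) * w (jf i) + v (jf i) * w (ie i)) := by
    rw [← Finset.sum_add_distrib, ← Finset.sum_add_distrib]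
    exact Finset.sum_congr rfl fun i _ => by ring
  simp only [qf, bf, Pi.add_apply]
  rw [h1]
  ring

theorem tIso : IsoStmt := by
  intro F _ s a b hab W hW
  let ρ : W →ₗ[F] (Fin s → F) :=
    (LinearMap.pi fun i : Fin s => (LinearMap.proj (jf i) : (Ix s → F) →ₗ[F] F)) ∘ₗ W.subtype
  have hρ : ∀ w : W, ∀ i, ρ w i = (w : Ix s → F) (jf i) := fun _ _ => rfl
  let ε : LinearMap.ker ρ →ₗ[F] (Fin s → F) :=
    (LinearMap.pi fun i : Fin s => (LinearMap.proj (ie i) : (Ix s → F) →ₗ[F] F)) ∘ₗ W.subtype ∘ₗ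
      (LinearMap.ker ρ).subtype
  have hε : ∀ w : LinearMap.ker ρ, ∀ i, ε w i = ((w : W) : Ix s → F) (ie i) := fun _ _ => rfl
  have hk : ∀ w : LinearMap.ker ρ, ∀ i, ((w : W) : Ix s → F) (jf i) = 0 := fun w i => by
    rw [← hρ, LinearMap.mem_ker.1 w.2, Pi.zero_apply]
  have hz : ∀ w : LinearMap.ker ρ, ((w : W) : Ix s → F) (iw 0) = 0 ∧
      ((w : W) : Ix s → F) (iw 1) = 0 := by
    intro w
    have h1 := hW _ (w : W).2
    rw [qf, Finset.sum_eq_zero fun i _ => by rw [hk w i, mul_zero], zero_add] at h1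
    exact hab _ _ h1
  have hinj : Function.Injective ε := by
    intro w w' h1
    apply Subtype.ext
    apply Subtype.ext
    funext x
    rcases x with (i | i) | j
    · exact congrFun h1 i
    · exact (hk w i).trans (hk w' i).symm
    · fin_cases j
      · exact (hz w).1.trans (hz w').1.symm
      · exact (hz w).2.trans (hz w').2.symm
  have h1 := LinearMap.finrank_range_add_finrank_ker ρ
  have h2 := LinearMap.finrank_range_of_inj hinj
  have h3 := Iso_dot (LinearMap.range ρ) (LinearMap.range ε) (by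
    rintro _ ⟨x, rfl⟩ _ ⟨y, rfl⟩
    have h4 : bf a b (x : Ix s → F) ((y : W) : Ix s → F) = 0 := by
      have h5 := Iso_qf_add a b (x : Ix s → F) ((y : W) : Ix s → F)
      rw [hW _ x.2, hW _ (y : W).2, hW _ (W.add_mem x.2 (y : W).2), zero_add, zero_add] at h5
      exact h5.symm
    rw [bf, (hz y).1, (hz y).2] at h4
    simp only [mul_zero, add_zero, hk y, zero_add] at h4
    exact h4)
  omega

end MP7Z.Ord
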