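import Pool.Agent.Lib.MP_7f581e_Z.Ort.SpecD

/-!
# Orthogonal groups, automorphisms: the images of `P_e` and `R_e`
-/

set_option autoImplicit false

namespace MP7Z.Ord

section

variable {p : ℕ} {H : Type} [Group H]

/-- Elements of order a power of `p` can be compared in the quotient. -/
def MrpInj (p : ℕ) (H : Type) [Group H] : Prop := ∀ h k : H, IsPel p h → IsPel p k →
  (h : H ⧸ Subgroup.center H) = (k : H ⧸ Subgroup.center H) → h = k

theorem Mrp_pel {R : Subgroup H} (hR : IsPGroup p R) {h : H} (hh : h ∈ R) : IsPel p h := by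
  obtain ⟨k, hk⟩ := hR ⟨h, hh⟩
  exact ⟨k, congrArg Subtype.val hk⟩

theorem Mrp_conj {h : H} (hh : IsPel p h) (g : H) : IsPel p (g * h * g⁻¹) := by
  obtain ⟨k, hk⟩ := hh
  exact ⟨k, by rw [conj_pow, hk, mul_one, mul_inv_cancel]⟩

theorem Mrp_mem (hI : MrpInj p H) {R : Subgroup H} (hR : IsPGroup p R) {h : H} (hh : IsPel p h)
    (h1 : (h : H ⧸ Subgroup.center H) ∈ R.map (QuotientGroup.mk' (Subgroup.center H))) :
    h ∈ R := by
  obtain ⟨r, hr, h2⟩ := h1
  have h3 := hI r h (Mrp_pel hR hr) hh h2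
  rwa [← h3]

theorem Mrp_card (hI : MrpInj p H) {R : Subgroup H} (hR : IsPGroup p R) :
    Nat.card (R.map (QuotientGroup.mk' (Subgroup.center H))) = Nat.card R := by
  refine (Nat.card_congr (Equiv.ofBijective (fun r : R =>
    (⟨QuotientGroup.mk' (Subgroup.center H) r, Subgroup.mem_map_of_mem _ r.2⟩ :
      R.map (QuotientGroup.mk' (Subgroup.center H)))) ⟨?_, ?_⟩)).symm
  · intro r r' h
    exact Subtype.ext (hI _ _ (Mrp_pel hR r.2) (Mrp_pel hR r'.2) (congrArg Subtype.val h))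
  · rintro ⟨y, r, hr, rfl⟩
    exact ⟨⟨r, hr⟩, rfl⟩

theorem Mrp_card' {Q Q' : Type} [Group Q] [Group Q'] (φ : Q ≃* Q') (Y : Subgroup Q) :
    Nat.card (Y.map φ.toMonoidHom) = Nat.card Y :=
  (Nat.card_congr (Y.equivMapOfInjective φ.toMonoidHom φ.injective).toEquiv).symm

end

theorem tMrp (hL : LftStmt) (hFx : FxVStmt) (hTr : TrStmt) (hCS : CenSStmt) (hN : NrmStmt) :
    MrpStmt := by
  intro p _ K V H _ _ _ _ _ _ _ _ G hG h3 φ
  have h0 := hG.toIsS0
  obtain ⟨hI, hL2, hL3⟩ := hL p H hG.ze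
  have hI' : MrpInj p H := hI
  set π := QuotientGroup.mk' (Subgroup.center H) with hπ
  set M : Subgroup H := ((((G.P G.e).map π).map φ.toMonoidHom).comap π) with hM
  have hRe : IsPGroup p (G.R G.e) := h0.R_pgroup p h0.qe
  obtain ⟨R', hR', hR'2⟩ := hL2 (((G.R G.e).map π).map φ.toMonoidHom) ((hRe.map π).map _)
  have hR'2' : ((G.R G.e).map π).map φ.toMonoidHom = R'.map π := hR'2.symm
  -- the Sylow subgroup
  obtain ⟨P₀⟩ : Nonempty (Sylow p H) := inferInstance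
  obtain ⟨⟨x, hx0, hqx, hfix⟩, -⟩ := hFx p K V H G h0 h3 P₀ P₀.isPGroup'
  obtain ⟨h, c, hc, hhx⟩ := hTr K V H G h0 x hx0 hqx
  set P₁ : Subgroup H := (P₀ : Subgroup H).map (MulAut.conj h).toMonoidHom with hP₁
  have hP₁p : IsPGroup p P₁ := P₀.isPGroup'.map _
  have hP₁c : Nat.card P₁ = Nat.card P₀ := Mrp_card' (MulAut.conj h) _
  have hP₁e : P₁ ≤ G.P G.e := by
    rintro k ⟨g, hg, rfl⟩
    refine ⟨1, one_ne_zero, ?_⟩
    rw [one_smul]
    have h4 : G.e = c⁻¹ • G.ac h x := by rw [hhx, smul_smul, inv_mul_cancel₀ hc, one_smul]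
    change G.ac (h * g * h⁻¹) G.e = G.e
    rw [h4, map_smul, map_mul, map_mul, LinearEquiv.mul_apply, LinearEquiv.mul_apply]
    have h5 : G.ac h⁻¹ (G.ac h x) = x := by
      rw [← LinearEquiv.mul_apply, ← map_mul, inv_mul_cancel, map_one]
      rfl
    rw [h5, hfix g hg]
  obtain ⟨P', hP'p, hP'2⟩ := hL2 ((P₁.map π).map φ.toMonoidHom) ((hP₁p.map π).map _)
  have hP'c : Nat.card P' = p ^ (Nat.card H).factorization p := by
    rw [← Mrp_card hI' hP'p, hP'2, Mrp_card', Mrp_card hI' hP₁p, hP₁c]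
    exact P₀.card_eq_multiplicity
  refine ⟨M, R', Sylow.ofCard P' hP'c, ?_, hR', ?_, hR'2', ?_, ?_⟩
  · intro y hy
    have h4 : π y ∈ (P₁.map π).map φ.toMonoidHom := by
      rw [← hP'2]
      exact Subgroup.mem_map_of_mem π hy
    exact Subgroup.map_mono (Subgroup.map_mono hP₁e) h4
  · rw [← Mrp_card hI' hR', ← hR'2', Mrp_card', Mrp_card hI' hRe]
  · rintro m ⟨y, ⟨g, hg, rfl⟩, h4⟩ r hr
    refine Mrp_mem hI' hR' (Mrp_conj (Mrp_pel hR' hr) m) ?_
    have h5 : π r ∈ ((G.R G.e).map π).map φ.toMonoidHom := by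
      rw [hR'2']
      exact Subgroup.mem_map_of_mem π hr
    obtain ⟨y, ⟨r₀, hr₀, rfl⟩, h6⟩ := h5
    change π (m * r * m⁻¹) ∈ R'.map π
    rw [← hR'2']
    refine ⟨π (g * r₀ * g⁻¹), ⟨_, (h0.P_norm h0.qe hg).2 hr₀, rfl⟩, ?_⟩
    change φ (π (g * r₀ * g⁻¹)) = π (m * r * m⁻¹)
    have h4' : φ (π g) = π m := h4
    have h6' : φ (π r₀) = π r := h6
    rw [map_mul, map_mul, map_inv, map_mul, map_mul, map_inv, h4', h6', map_mul, map_mul, map_inv]
  · intro N hNM hNp hN0 hNn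
    obtain ⟨N', hN'p, hN'2⟩ := hL2 ((N.map π).map φ.symm.toMonoidHom) ((hNp.map π).map _)
    have hmemM : ∀ m : H, m ∈ M ↔ ∃ g ∈ G.P G.e, φ (π g) = π m := by
      intro m
      constructor
      · rintro ⟨y, ⟨g, hg, rfl⟩, h4⟩
        exact ⟨g, hg, h4⟩
      · rintro ⟨g, hg, h4⟩
        exact ⟨π g, ⟨g, hg, rfl⟩, h4⟩
    have hmemN' : ∀ n' ∈ N', ∃ n ∈ N, φ (π n') = π n := by
      intro n' hn'
      have h4 : π n' ∈ (N.map π).map φ.symm.toMonoidHom := by
        rw [← hN'2]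
        exact Subgroup.mem_map_of_mem π hn'
      obtain ⟨y, ⟨n, hn, rfl⟩, h5⟩ := h4
      refine ⟨n, hn, ?_⟩
      have h5' : φ.symm (π n) = π n' := h5
      rw [← h5', MulEquiv.apply_symm_apply]
    have hN'mem : ∀ n' : H, IsPel p n' → (∃ n ∈ N, φ (π n') = π n) → n' ∈ N' := by
      rintro n' hn' ⟨n, hn, h5⟩
      refine Mrp_mem hI' hN'p hn' ?_
      change π n' ∈ N'.map π
      rw [hN'2]
      refine ⟨π n, ⟨n, hn, rfl⟩, ?_⟩
      change φ.symm (π n) = π n'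
      rw [← h5, MulEquiv.symm_apply_apply]
    have hN'P : N' ≤ G.P G.e := by
      intro n' hn'
      obtain ⟨n, hn, h5⟩ := hmemN' n' hn'
      obtain ⟨g, hg, h6⟩ := (hmemM n).1 (hNM hn)
      have h7 : π g = π n' := φ.injective (h6.trans h5.symm)
      have h8 : g⁻¹ * n' ∈ Subgroup.center H := QuotientGroup.eq.1 h7
      obtain ⟨c', hc', h9⟩ := hCS K V H G h0 _ h8
      have h10 : g⁻¹ * n' ∈ G.P G.e := by
        refine ⟨c', ?_, h9 _⟩
        rintro rfl
        rw [zero_pow two_ne_zero] at hc'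
        exact zero_ne_one hc'
      have h11 : n' = g * (g⁻¹ * n') := by rw [mul_inv_cancel_left]
      rw [h11]
      exact mul_mem hg h10
    have hN'n : ∀ g ∈ G.P G.e, ∀ n' ∈ N', g * n' * g⁻¹ ∈ N' := by
      intro g hg n' hn'
      obtain ⟨n, hn, h5⟩ := hmemN' n' hn'
      obtain ⟨m, hm⟩ := QuotientGroup.mk'_surjective (Subgroup.center H) (φ (π g))
      have hmM : m ∈ M := (hmemM m).2 ⟨g, hg, hm.symm⟩
      refine hN'mem _ (Mrp_conj (Mrp_pel hN'p hn') g) ⟨m * n * m⁻¹, hNn m hmM n hn, ?_⟩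
      have hm' : φ (π g) = π m := hm.symm
      rw [map_mul, map_mul, map_inv, map_mul, map_mul, map_inv, hm', h5, map_mul, map_mul,
        map_inv]
    have hN'0 : N' ≠ ⊥ := by
      intro hb
      apply hN0
      rw [eq_bot_iff]
      intro n hn
      obtain ⟨n', hn'⟩ := QuotientGroup.mk'_surjective (Subgroup.center H) (φ.symm (π n))
      have h5 : φ.symm (π n) ∈ N'.map π := by
        rw [hN'2]
        exact ⟨π n, ⟨n, hn, rfl⟩, rfl⟩
      rw [hb, Subgroup.map_bot, Subgroup.mem_bot] at h5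
      have h6 : π n = 1 := by
        rw [← MulEquiv.apply_symm_apply φ (π n), h5, map_one]
      exact Subgroup.mem_bot.2 (hI n 1 (Mrp_pel hNp hn) ⟨0, one_pow _⟩ h6)
    have hN'R := hN p K V H G hG N' hN'P hN'p hN'0 hN'n
    have h5 : N.map π = R'.map π := by
      rw [← hR'2', ← hN'R, hN'2]
      ext y
      constructor
      · intro hy
        exact ⟨φ.symm y, ⟨y, hy, rfl⟩, φ.apply_symm_apply y⟩
      · rintro ⟨z, ⟨w, hw, rfl⟩, rfl⟩
        have h6 : φ.toMonoidHom (φ.symm.toMonoidHom w) = w := φ.apply_symm_apply w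
        rw [h6]
        exact hw
    exact le_antisymm (hL3 N R' hNp hR' h5.le) (hL3 R' N hR' hNp h5.ge)

end MP7Z.Ord
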