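import Pool.Agent.Lib.MP_7f581e_Z.Ort.D.SnC
import Pool.Agent.Lib.MP_7f581e_Z.Ort.D.Mrp

/-!
# Orthogonal groups, automorphisms: elements of the stabilizers correspond
-/

set_option autoImplicit false

namespace MP7Z.Ord

section

variable {K V H : Type} [Field K] [AddCommGroup V] [Module K V] [Group H] {G : SpD K V H}

theorem Lev_symm {α : (H ⧸ Subgroup.center H) ≃* (H ⧸ Subgroup.center H)} {x : V}
    (h : G.Snd α x x) : G.Snd α.symm x x := by
  rw [SnC_iff] at h ⊢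
  intro t
  have h1 := h (α.symm t)
  rw [MulEquiv.apply_symm_apply] at h1
  exact h1.symm

theorem Lev_one {p : ℕ} [CharP K p] (h0 : G.IsS0) (hI : MrpInj p H) (hFix : FixStmt)
    {α : (H ⧸ Subgroup.center H) ≃* (H ⧸ Subgroup.center H)} {x : V} (hx0 : x ≠ 0)
    (hx : G.q x = 0) (hS : G.Snd α x x) {l l' : H}
    (hl : α (l : H ⧸ Subgroup.center H) = (l' : H ⧸ Subgroup.center H)) (hlP : l ∈ G.P x) :
    l' ∈ G.P x := by
  rw [SnC_iff] at hS
  obtain ⟨c, hc, hlx⟩ := hlP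
  have h1 : ∀ r ∈ G.R x, l' * r * l'⁻¹ ∈ G.R x := by
    intro r hr
    refine Mrp_mem hI (h0.R_pgroup p hx) (Mrp_conj (Mrp_pel (h0.R_pgroup p hx) hr) l') ?_
    have h2 : ((l' * r * l'⁻¹ : H) : H ⧸ Subgroup.center H) =
        α ((l : H ⧸ Subgroup.center H) * α.symm (r : H ⧸ Subgroup.center H) *
          (l : H ⧸ Subgroup.center H)⁻¹) := by
      rw [map_mul, map_mul, map_inv, hl, MulEquiv.apply_symm_apply]
      rfl
    rw [h2]
    refine (hS _).2 ?_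
    have h3 := SnC_conj h0 l hx (α.symm (r : H ⧸ Subgroup.center H))
    rw [hlx, SnC_smul h0 hx hc] at h3
    refine h3.2 ((hS _).1 ?_)
    rw [MulEquiv.apply_symm_apply]
    exact ⟨r, hr, rfl⟩
  have h2 : G.q (G.ac l' x) = 0 := by rw [h0.iso, hx]
  have h3 : G.ac l' x ≠ 0 := fun h => hx0 ((LinearEquiv.map_eq_zero_iff _).1 h)
  obtain ⟨d, hd⟩ := (hFix K V H G h0 _ h3 h2).2.2 x hx (by
    intro s hs
    have h4 : l' * (l'⁻¹ * s * l') * l'⁻¹ = s := by group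
    have h5 := h0.R_conj l' hx (h := l'⁻¹ * s * l')
    rw [h4] at h5
    have h6 := h1 _ (h5.1 hs)
    rwa [h4] at h6)
  have hd0 : d ≠ 0 := by
    rintro rfl
    rw [zero_smul] at hd
    exact hx0 hd
  refine ⟨d⁻¹, inv_ne_zero hd0, ?_⟩
  conv_rhs => rw [hd]
  rw [smul_smul, inv_mul_cancel₀ hd0, one_smul]

end

theorem tLev (hL : LftStmt) (hFix : FixStmt) : LevStmt := by
  intro p _ K V H _ _ _ _ _ _ _ _ G hG α x hx0 hx hS l l' hl
  have h0 := hG.toIsS0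
  have hI : MrpInj p H := (hL p H hG.ze).1
  refine ⟨Lev_one h0 hI hFix hx0 hx hS hl, Lev_one h0 hI hFix hx0 hx (Lev_symm hS) ?_⟩
  rw [← hl, MulEquiv.symm_apply_apply]

end MP7Z.Ord
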