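import Pool.Agent.Lib.MP_7f581e_Z.Ort.SpecD

/-!
# Orthogonal groups, part D, task Lft: lifting of `p`-subgroups
-/

set_option autoImplicit false

namespace MP7Z.Ord

theorem Lft_one {p : ℕ} [Fact p.Prime] {H : Type} [Group H] [Finite H]
    (hp : ¬ p ∣ Nat.card (Subgroup.center H)) {h k : H} (hh : IsPel p h) (hk : IsPel p k)
    (he : (h : H ⧸ Subgroup.center H) = (k : H ⧸ Subgroup.center H)) : h = k := by
  have hz : k⁻¹ * h ∈ Subgroup.center H := by
    rw [← QuotientGroup.eq]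
    exact he.symm
  obtain ⟨z, hzz⟩ : ∃ z, z = k⁻¹ * h := ⟨_, rfl⟩
  rw [← hzz] at hz
  have hkz : h = k * z := by rw [hzz, mul_inv_cancel_left]
  obtain ⟨m, hm⟩ := hh
  obtain ⟨n, hn⟩ := hk
  have hcomm : Commute k z := (Subgroup.mem_center_iff.1 hz k)
  have h1 : z ^ p ^ (m + n) = 1 := by
    have h2 : h ^ p ^ (m + n) = 1 := by rw [pow_add, pow_mul, hm, one_pow]
    have h3 : k ^ p ^ (m + n) = 1 := by rw [pow_add, mul_comm, pow_mul, hn, one_pow]
    rw [hkz, hcomm.mul_pow, h3, one_mul] at h2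
    exact h2
  have h2 : z ^ Nat.card (Subgroup.center H) = 1 := by
    have h3 : (⟨z, hz⟩ : Subgroup.center H) ^ Nat.card (Subgroup.center H) = 1 := pow_card_eq_one'
    exact congrArg Subtype.val h3
  have h3 : Nat.Coprime (p ^ (m + n)) (Nat.card (Subgroup.center H)) :=
    Nat.Coprime.pow_left _ ((Nat.Prime.coprime_iff_not_dvd Fact.out).2 hp)
  have h4 : orderOf z ∣ 1 := by
    rw [← h3]
    exact Nat.dvd_gcd (orderOf_dvd_of_pow_eq_one h1) (orderOf_dvd_of_pow_eq_one h2)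
  have h5 : z = 1 := orderOf_eq_one_iff.1 (Nat.dvd_one.1 h4)
  rw [hkz, h5, mul_one]

theorem Lft_pel {p : ℕ} {H : Type} [Group H] {R : Subgroup H} (hR : IsPGroup p R) {h : H}
    (hh : h ∈ R) : IsPel p h := by
  obtain ⟨k, hk⟩ := hR ⟨h, hh⟩
  exact ⟨k, congrArg Subtype.val hk⟩

theorem tLft (h1 : PelStmt) : LftStmt := by
  intro p _ H _ _ hp
  refine ⟨fun h k hh hk he => Lft_one hp hh hk he, ?_, ?_⟩
  · intro Y hY
    let π := QuotientGroup.mk' (Subgroup.center H)
    have hπ : Function.Surjective π := QuotientGroup.mk'_surjective _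
    have hT : ∀ t ∈ Y.comap π, ∃ k : ℕ, t ^ p ^ k ∈ Subgroup.center H := by
      intro t ht
      obtain ⟨k, hk⟩ := hY ⟨π t, ht⟩
      refine ⟨k, ?_⟩
      have h2 : (π t) ^ p ^ k = 1 := congrArg Subtype.val hk
      rw [← map_pow] at h2
      exact (QuotientGroup.eq_one_iff _).1 h2
    have hZ : Subgroup.center H ≤ Y.comap π := by
      intro z hz
      rw [Subgroup.mem_comap]
      have h2 : π z = 1 := (QuotientGroup.eq_one_iff _).2 hz
      rw [h2]
      exact Y.one_mem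
    obtain ⟨P, hPT, hP, -, hdec⟩ := h1 p H hp (Y.comap π) hZ hT
    refine ⟨P, hP, le_antisymm ?_ ?_⟩
    · rw [Subgroup.map_le_iff_le_comap]
      exact hPT
    · intro y hy
      obtain ⟨t, rfl⟩ := hπ y
      obtain ⟨x, hx, z, hz, h⟩ := hdec t hy
      refine ⟨x, hx, ?_⟩
      have h2 : π z = 1 := (QuotientGroup.eq_one_iff _).2 hz
      change π x = π t
      rw [h, map_mul, h2, mul_one]
  · intro R R' hR hR' hle h hh
    obtain ⟨h', hh', he⟩ := hle ⟨h, hh, rfl⟩
    have h2 : h = h' := Lft_one hp (Lft_pel hR hh) (Lft_pel hR' hh') he.symm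
    rw [h2]
    exact hh'

end MP7Z.Ord
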