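import Pool.Agent.Lib.MP_7f581e_Z.Ort.SpecD

/-!
# Orthogonal groups, part D: task Mul

In odd dimension the multiplier of a semilinear similitude is a square.
-/

set_option autoImplicit false

namespace MP7Z.Ord

open Matrix

section aux

variable {K V : Type} [Field K] [AddCommGroup V] [Module K V] (q : QuadraticForm K V)

theorem Mul_plB (x y : V) : pl q x y = QuadraticMap.polarBilin q x y := rfl

theorem Mul_sum {ι : Type} [Fintype ι] (b : ι → V) (x y : ι → K) :
    pl q (∑ i, x i • b i) (∑ l, y l • b l) = ∑ l, (∑ i, x i * pl q (b i) (b l)) * y l := by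
  rw [Mul_plB, map_sum]
  refine Finset.sum_congr rfl fun l _ => ?_
  rw [map_smul, map_sum, LinearMap.sum_apply, smul_eq_mul, mul_comm]
  congr 1
  refine Finset.sum_congr rfl fun i _ => ?_
  rw [map_smul, LinearMap.smul_apply, smul_eq_mul, Mul_plB]

/-- The Gram matrix. -/
noncomputable def Mul_S {n : ℕ} (b : Module.Basis (Fin n) K V) : Matrix (Fin n) (Fin n) K :=
  Matrix.of fun i j => pl q (b i) (b j)

theorem Mul_det {n : ℕ} (b : Module.Basis (Fin n) K V) (hq : Nd q) : (Mul_S q b).det ≠ 0 := by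
  intro h
  obtain ⟨v, hv, h1⟩ := Matrix.exists_mulVec_eq_zero_iff.2 h
  apply hv
  have h2 : ∑ l, v l • b l = 0 := by
    apply hq
    intro y
    rw [pl_comm]
    have h3 : y = ∑ i, b.repr y i • b i := (b.sum_repr y).symm
    rw [h3, Mul_sum]
    have h4 : ∀ i, ∑ l, pl q (b i) (b l) * v l = 0 := fun i => congrFun h1 i
    calc ∑ l, (∑ i, b.repr y i * pl q (b i) (b l)) * v l
        = ∑ l, ∑ i, b.repr y i * (pl q (b i) (b l) * v l) := by
          refine Finset.sum_congr rfl fun l _ => ?_
          rw [Finset.sum_mul]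
          exact Finset.sum_congr rfl fun i _ => mul_assoc _ _ _
      _ = ∑ i, ∑ l, b.repr y i * (pl q (b i) (b l) * v l) := Finset.sum_comm
      _ = ∑ i, b.repr y i * ∑ l, pl q (b i) (b l) * v l := by
          exact Finset.sum_congr rfl fun i _ => (Finset.mul_sum _ _ _).symm
      _ = 0 := by
          refine Finset.sum_eq_zero fun i _ => ?_
          rw [h4, mul_zero]
  funext i
  have h5 := congrArg (fun w => b.repr w i) h2
  simpa [map_sum, Finsupp.single_apply] using h5

theorem Mul_sq [Finite K] (h2 : (2 : K) ≠ 0) (σ : K ≃+* K) {d : K} (hd : d ≠ 0) :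
    IsSquare (d * σ d) := by
  classical
  have := Fintype.ofFinite K
  have hc : ringChar K ≠ 2 := by
    intro h
    have : CharP K 2 := h ▸ ringChar.charP K
    exact h2 (CharP.cast_eq_zero K 2)
  have hs : σ d ≠ 0 := fun h => hd (by rwa [map_eq_zero_iff σ σ.injective] at h)
  rw [FiniteField.isSquare_iff hc (mul_ne_zero hd hs), mul_pow, ← map_pow]
  rcases FiniteField.pow_dichotomy hc hd with h | h
  · rw [h, map_one, one_mul]
  · rw [h, map_neg, map_one]
    ring

end aux

theorem tMul : MulStmt := by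
  intro K V _ _ _ _ _ q hq h2 hodd σ μ g hga hgs hgq hμ
  classical
  have hpl : ∀ v w, pl q (g v) (g w) = μ * σ (pl q v w) := by
    intro v w
    change q (g v + g w) - q (g v) - q (g w) = μ * σ (q (v + w) - q v - q w)
    rw [← hga, hgq, hgq, hgq, map_sub, map_sub]
    ring
  set n := Module.finrank K V with hn
  let b : Module.Basis (Fin n) K V := Module.finBasis K V
  let A : Matrix (Fin n) (Fin n) K := Matrix.of fun i j => b.repr (g (b j)) i
  have hS := Mul_det q b hq
  have h3 : Aᵀ * Mul_S q b * A = μ • (σ.toRingHom.mapMatrix (Mul_S q b)) := by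
    ext j k
    have h4 : g (b j) = ∑ i, A i j • b i := (b.sum_repr (g (b j))).symm
    have h5 : g (b k) = ∑ i, A i k • b i := (b.sum_repr (g (b k))).symm
    have h6 := hpl (b j) (b k)
    rw [h4, h5, Mul_sum] at h6
    exact h6
  have h7 := congrArg Matrix.det h3
  rw [Matrix.det_mul, Matrix.det_mul, Matrix.det_transpose, Matrix.det_smul,
    Fintype.card_fin, ← RingHom.map_det] at h7
  set d := (Mul_S q b).det with hd
  have h8 : σ.toRingHom d = σ d := rfl
  rw [h8] at h7
  obtain ⟨r, hr⟩ := Mul_sq h2 σ hS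
  have hs : σ d ≠ 0 := fun h => hS (by rwa [map_eq_zero_iff σ σ.injective] at h)
  obtain ⟨k, hk⟩ := hodd
  have hk' : n = 2 * k + 1 := hk
  refine ⟨A.det * r / (σ d * μ ^ k), ?_⟩
  have h9 : A.det ^ 2 * (d * σ d) = μ ^ n * σ d ^ 2 := by
    linear_combination σ d * h7
  rw [hr] at h9
  rw [div_pow, div_eq_iff (pow_ne_zero _ (mul_ne_zero hs (pow_ne_zero _ hμ)))]
  have h10 : μ ^ n = μ ^ (2 * k + 1) := congrArg (fun m => μ ^ m) hk'
  linear_combination h9 + σ d ^ 2 * h10

end MP7Z.Ord
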