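import Pool.Agent.Lib.MP_7f581e_Z.Ort.SpecD

/-!
# Orthogonal groups, part D, task Pel: groups which are `p`-groups modulo the centre
-/

set_option autoImplicit false

namespace MP7Z.Ord

theorem Pel_mem {p : ℕ} [Fact p.Prime] {T : Type} [Group T] [Finite T] (P : Sylow p T)
    [(P : Subgroup T).Normal] {t : T} (ht : IsPel p t) : t ∈ (P : Subgroup T) := by
  have h1 : IsPGroup p (Subgroup.zpowers t) := by
    obtain ⟨k, hk⟩ := ht
    rintro ⟨x, hx⟩
    obtain ⟨n, rfl⟩ := Subgroup.mem_zpowers_iff.1 hx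
    refine ⟨k, Subtype.ext ?_⟩
    change (t ^ n) ^ p ^ k = 1
    rw [← zpow_natCast, ← zpow_mul, mul_comm, zpow_mul, zpow_natCast, hk, one_zpow]
  have h2 : IsPGroup p ((P : Subgroup T) ⊔ Subgroup.zpowers t : Subgroup T) :=
    IsPGroup.to_sup_of_normal_left P.isPGroup' h1
  have h3 := P.is_maximal' h2 le_sup_left
  have h4 : t ∈ ((P : Subgroup T) ⊔ Subgroup.zpowers t : Subgroup T) :=
    (le_sup_right : Subgroup.zpowers t ≤ _) (Subgroup.mem_zpowers t)
  rw [h3] at h4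
  exact h4

theorem tPel : PelStmt := by
  intro p _ H _ _ hp T hZT hT
  let Z' : Subgroup T := (Subgroup.center H).subgroupOf T
  have hZ' : ∀ z : T, z ∈ Z' ↔ (z : H) ∈ Subgroup.center H := fun z => Subgroup.mem_subgroupOf
  have hcard : Nat.card Z' = Nat.card (Subgroup.center H) :=
    Nat.card_congr (Subgroup.subgroupOfEquivOfLe hZT).toEquiv
  have hcen : ∀ (z : T), z ∈ Z' → ∀ t : T, t * z = z * t := fun z hz t =>
    Subtype.ext (Subgroup.mem_center_iff.1 ((hZ' z).1 hz) (t : H))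
  have hZn : Z'.Normal := ⟨fun z hz t => by
    rw [hcen z hz t, mul_inv_cancel_right]
    exact hz⟩
  -- a Sylow subgroup
  obtain ⟨P⟩ : Nonempty (Sylow p T) := inferInstance
  have hquot : IsPGroup p (T ⧸ Z') := by
    intro x
    obtain ⟨t, rfl⟩ := QuotientGroup.mk_surjective x
    obtain ⟨k, hk⟩ := hT t t.2
    refine ⟨k, ?_⟩
    rw [← QuotientGroup.mk_pow, QuotientGroup.eq_one_iff, hZ']
    exact hk
  have hcop : Nat.Coprime p (Nat.card Z') := by
    rw [hcard]
    exact (Nat.Prime.coprime_iff_not_dvd Fact.out).2 hp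
  obtain ⟨a, ha⟩ := IsPGroup.iff_card.1 hquot
  have hTcard : Nat.card T = p ^ a * Nat.card Z' := by
    rw [← ha, ← Subgroup.card_eq_card_quotient_mul_card_subgroup]
  have hPcard : Nat.card (P : Subgroup T) = p ^ a := by
    rw [Sylow.card_eq_multiplicity, hTcard, Nat.factorization_mul (pow_ne_zero _
      (Nat.Prime.ne_zero Fact.out)) Nat.card_pos.ne', Finsupp.add_apply,
      Nat.Prime.factorization_pow Fact.out, Finsupp.single_eq_same,
      Nat.factorization_eq_zero_of_not_dvd ((Nat.Prime.coprime_iff_not_dvd Fact.out).1 hcop),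
      add_zero]
  have hdisj : Disjoint (P : Subgroup T) Z' := by
    apply Subgroup.disjoint_of_coprime_natCard
    rw [hPcard]
    exact Nat.Coprime.pow_left a hcop
  have hcompl : Subgroup.IsComplement' (P : Subgroup T) Z' := by
    apply Subgroup.isComplement'_of_card_mul_and_disjoint _ hdisj
    rw [hPcard, hTcard]
  have hdec : ∀ t : T, ∃ x ∈ (P : Subgroup T), ∃ z ∈ Z', t = x * z := by
    intro t
    obtain ⟨⟨⟨x, hx⟩, ⟨z, hz⟩⟩, h⟩ := hcompl.2 t
    exact ⟨x, hx, z, hz, h.symm⟩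
  have hPn : (P : Subgroup T).Normal := ⟨fun y hy t => by
    obtain ⟨x, hx, z, hz, rfl⟩ := hdec t
    have h1 : x * z * y * (x * z)⁻¹ = x * y * x⁻¹ := by
      rw [mul_inv_rev, mul_assoc x z y, ← hcen z hz y]
      group
    rw [h1]
    exact (P : Subgroup T).mul_mem ((P : Subgroup T).mul_mem hx hy) ((P : Subgroup T).inv_mem hx)⟩
  refine ⟨(P : Subgroup T).map T.subtype, Subgroup.map_subtype_le _, ?_, ?_, ?_⟩
  · exact IsPGroup.map P.isPGroup' T.subtype
  · rintro t ht ⟨k, hk⟩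
    refine ⟨⟨t, ht⟩, Pel_mem P ⟨k, Subtype.ext hk⟩, rfl⟩
  · intro t ht
    obtain ⟨x, hx, z, hz, h⟩ := hdec ⟨t, ht⟩
    exact ⟨x, ⟨x, hx, rfl⟩, z, (hZ' z).1 hz, congrArg Subtype.val h⟩

end MP7Z.Ord
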