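import Pool.Agent.Lib.MP_7f581e_Z.Ort.SpecD

/-!
# Orthogonal groups, automorphisms: the group `QW`
-/

set_option autoImplicit false

namespace MP7Z.Ord

section

variable {K V H : Type} [Field K] [AddCommGroup V] [Module K V] [Group H] {G : SpD K V H}

theorem QZ_pl {W : Submodule K V} (hW : ∀ w ∈ W, G.q w = 0) {x y : V} (hx : x ∈ W) (hy : y ∈ W) :
    pl G.q x y = 0 := by
  have h1 := q_add G.q x y
  rw [hW _ (add_mem hx hy), hW x hx, hW y hy] at h1
  linear_combination -h1

/-- The action of the elements of `QW`. -/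
theorem QZ_act (h0 : G.IsS0) {W : Submodule K V} (hW : ∀ w ∈ W, G.q w = 0) {h : H}
    (hh : h ∈ G.QW W) : (∀ z, ∀ w ∈ W, pl G.q w (G.ac h z - z) = 0) ∧
      (∀ z, (∀ w ∈ W, pl G.q w z = 0) → G.ac h z - z ∈ W) ∧ ∀ w ∈ W, G.ac h w = w := by
  induction hh using Subgroup.closure_induction with
  | mem h hh =>
    obtain ⟨x, hx, v, hv, rfl⟩ := hh
    have hxv := hv x hx
    have h1 : ∀ z, G.ac (G.si x v) z - z =
        pl G.q z v • x - pl G.q z x • v - (pl G.q z x * G.q v) • x := by
      intro z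
      rw [h0.act x v (hW x hx) hxv, sie]
      abel
    refine ⟨?_, ?_, ?_⟩
    · intro z w hw
      rw [h1, pl_subr, pl_subr, pl_smulr, pl_smulr, pl_smulr, QZ_pl hW hw hx, hv w hw]
      ring
    · intro z hz
      have h2 : pl G.q z x = 0 := by rw [pl_comm]; exact hz x hx
      rw [h1, h2, zero_smul, zero_mul, zero_smul, sub_zero, sub_zero]
      exact W.smul_mem _ hx
    · intro w hw
      have h2 := h1 w
      rw [QZ_pl hW hw hx, hv w hw, zero_smul, zero_smul, zero_mul, zero_smul, sub_zero,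
        sub_zero] at h2
      exact sub_eq_zero.1 h2
  | one =>
    rw [map_one]
    refine ⟨fun z w _ => ?_, fun z _ => ?_, fun w _ => rfl⟩
    · change pl G.q w (z - z) = 0
      rw [sub_self, pl_zeror]
    · change z - z ∈ W
      rw [sub_self]
      exact zero_mem _
  | mul h k _ _ h1 h2 =>
    rw [map_mul]
    have h3 : ∀ z, G.ac h (G.ac k z) - z = (G.ac h (G.ac k z) - G.ac k z) + (G.ac k z - z) := by
      intro z
      abel
    refine ⟨?_, ?_, ?_⟩
    · intro z w hw
      change pl G.q w (G.ac h (G.ac k z) - z) = 0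
      rw [h3, pl_addr, h1.1 _ w hw, h2.1 _ w hw, add_zero]
    · intro z hz
      change G.ac h (G.ac k z) - z ∈ W
      rw [h3]
      refine add_mem (h1.2.1 _ fun w hw => ?_) (h2.2.1 _ hz)
      have h4 := h2.1 z w hw
      rw [pl_subr, hz w hw, sub_zero] at h4
      exact h4
    · intro w hw
      change G.ac h (G.ac k w) = w
      rw [h2.2.2 w hw, h1.2.2 w hw]
  | inv h _ h1 =>
    have h3 : ∀ v, G.ac h (G.ac h⁻¹ v) = v := by
      intro v
      rw [← LinearEquiv.mul_apply, ← map_mul, mul_inv_cancel, map_one]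
      rfl
    have h4 : ∀ v, G.ac h⁻¹ (G.ac h v) = v := by
      intro v
      rw [← LinearEquiv.mul_apply, ← map_mul, inv_mul_cancel, map_one]
      rfl
    have h5 : ∀ z, G.ac h⁻¹ z - z = -(G.ac h (G.ac h⁻¹ z) - G.ac h⁻¹ z) := by
      intro z
      rw [h3]
      abel
    have h6 : ∀ w ∈ W, G.ac h⁻¹ w = w := by
      intro w hw
      have h7 := h4 w
      rwa [h1.2.2 w hw] at h7
    refine ⟨?_, ?_, h6⟩
    · intro z w hw
      rw [h5, pl_negr, h1.1 _ w hw, neg_zero]
    · intro z hz
      have h7 := h1.2.1 z hz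
      have h8 : G.ac h⁻¹ z = z - (G.ac h z - z) := by
        have h9 : G.ac h⁻¹ (G.ac h z - (G.ac h z - z)) = z - (G.ac h z - z) := by
          rw [map_sub, h4, h6 _ h7]
        rwa [sub_sub_cancel] at h9
      rw [h8, sub_sub_cancel_left]
      exact W.neg_mem h7

theorem QZ_pow (h0 : G.IsS0) {W : Submodule K V} (hW : ∀ w ∈ W, G.q w = 0) {h : H}
    (hh : h ∈ G.QW W) (z : V) (n : ℕ) : G.ac (h ^ n) z = z + n • (G.ac h z - z) +
      n.choose 2 • (G.ac h (G.ac h z - z) - (G.ac h z - z)) := by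
  obtain ⟨h1, h2, h3⟩ := QZ_act h0 hW hh
  set y := G.ac h z - z with hy
  set x := G.ac h y - y with hx
  have hz1 : G.ac h z = z + y := by rw [hy]; abel
  have hy1 : G.ac h y = y + x := by rw [hx]; abel
  have hx1 : G.ac h x = x := h3 x (h2 y (fun w hw => h1 z w hw))
  induction n with
  | zero =>
    rw [pow_zero, map_one, Nat.choose_eq_zero_of_lt (by norm_num), zero_smul, zero_smul, add_zero,
      add_zero]
    rfl
  | succ n ih =>
    rw [pow_succ', map_mul, LinearEquiv.mul_apply, ih, map_add, map_add, map_nsmul, map_nsmul,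
      hz1, hy1, hx1, Nat.choose_succ_succ' n 1, Nat.choose_one_right, succ_nsmul, add_nsmul,
      smul_add]
    abel

end

open scoped Pointwise in
theorem tQZ (hPel : PelStmt) : QZStmt := by
  intro p hp K V H _ _ _ _ _ _ _ G hG W hW
  have h0 := hG.toIsS0
  refine ⟨?_, ?_⟩
  · obtain ⟨P, -, hP, hP1, -⟩ := hPel p H hG.ze (G.QW W ⊔ Subgroup.center H) le_sup_right (by
      intro t ht
      refine ⟨2, ?_⟩
      have h1 : t ∈ ((G.QW W : Set H) * (Subgroup.center H : Set H)) := by
        rw [← Subgroup.mul_normal]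
        exact ht
      obtain ⟨h, hh, z, hz, rfl⟩ := h1
      have h2 : Commute h z := (Subgroup.mem_center_iff.1 hz h)
      change (h * z) ^ p ^ 2 ∈ _
      rw [h2.mul_pow]
      refine mul_mem ?_ (pow_mem hz _)
      refine h0.ker _ 1 fun v => ?_
      rw [one_smul, QZ_pow h0 hW hh v (p ^ 2)]
      have h3 : ∀ (m : ℕ) (y : V), p ∣ m → m • y = 0 := by
        intro m y hm
        rw [← Nat.cast_smul_eq_nsmul K, (CharP.cast_eq_zero_iff K p m).2 hm, zero_smul]
      rw [h3 _ _ (dvd_pow_self p two_ne_zero), h3 _ _ (hp.out.dvd_choose_pow two_ne_zero ?_),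
        add_zero, add_zero]
      have h4 := hp.out.two_le
      nlinarith)
    refine hP.to_le ?_
    rw [SpD.QW, Subgroup.closure_le]
    rintro h ⟨x, hx, v, hv, rfl⟩
    refine hP1 _ (Subgroup.mem_sup_left (Subgroup.subset_closure ⟨x, hx, v, hv, rfl⟩)) ⟨1, ?_⟩
    rw [pow_one]
    exact h0.si_p p (hW x hx) (hv x hx)
  · intro g hg h hh
    induction hh using Subgroup.closure_induction with
    | mem h hh =>
      obtain ⟨x, hx, v, hv, rfl⟩ := hh
      rw [h0.cnj g x v (hW x hx) (hv x hx)]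
      refine Subgroup.subset_closure ⟨_, (hg x).2 hx, _, fun w hw => ?_, rfl⟩
      rw [pl_comm, h0.acB, pl_comm]
      refine hv _ ?_
      rw [← hg, ← LinearEquiv.mul_apply, ← map_mul, mul_inv_cancel, map_one]
      exact hw
    | one =>
      rw [mul_one, mul_inv_cancel]
      exact one_mem _
    | mul a b _ _ h1 h2 =>
      have h3 : g * (a * b) * g⁻¹ = (g * a * g⁻¹) * (g * b * g⁻¹) := by group
      rw [h3]
      exact mul_mem h1 h2
    | inv a _ h1 =>
      have h3 : g * a⁻¹ * g⁻¹ = (g * a * g⁻¹)⁻¹ := by group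
      rw [h3]
      exact inv_mem h1

end MP7Z.Ord
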