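import Pool.Agent.Lib.MP_7f581e_Z.Ort.SpecD

/-!
# Orthogonal groups, automorphisms: the group `RW`
-/

set_option autoImplicit false

namespace MP7Z.Ord

section

variable {K V H : Type} [Field K] [AddCommGroup V] [Module K V] [Group H] {G : SpD K V H}

/-- The form is zero on a totally singular subspace. -/
theorem RZ_pl {W : Submodule K V} (hW : ∀ w ∈ W, G.q w = 0) {x y : V} (hx : x ∈ W) (hy : y ∈ W) :
    pl G.q x y = 0 := by
  have h1 := q_add G.q x y
  rw [hW _ (add_mem hx hy), hW x hx, hW y hy] at h1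
  linear_combination -h1

theorem RZ_act (h0 : G.IsS0) {W : Submodule K V} (hW : ∀ w ∈ W, G.q w = 0) {h : H}
    (hh : h ∈ G.RW W) : (∀ v, G.ac h v - v ∈ W) ∧ ∀ w ∈ W, G.ac h w = w := by
  induction hh using Subgroup.closure_induction with
  | mem h hh =>
    obtain ⟨x, hx, y, hy, rfl⟩ := hh
    have hxy := RZ_pl hW hx hy
    constructor
    · intro v
      rw [h0.act x y (hW x hx) hxy, sie]
      have h1 : v + pl G.q v y • x - pl G.q v x • y - (pl G.q v x * G.q y) • x - v =
          pl G.q v y • x - pl G.q v x • y - (pl G.q v x * G.q y) • x := by abel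
      rw [h1]
      exact sub_mem (sub_mem (W.smul_mem _ hx) (W.smul_mem _ hy)) (W.smul_mem _ hx)
    · intro w hw
      rw [h0.act x y (hW x hx) hxy, sie, RZ_pl hW hw hy, RZ_pl hW hw hx]
      simp
  | one =>
    rw [map_one]
    refine ⟨fun v => ?_, fun w _ => rfl⟩
    change v - v ∈ W
    rw [sub_self]
    exact zero_mem _
  | mul h k _ _ h1 h2 =>
    rw [map_mul]
    constructor
    · intro v
      change G.ac h (G.ac k v) - v ∈ W
      have h3 : G.ac h (G.ac k v) - v = (G.ac h (G.ac k v) - G.ac k v) + (G.ac k v - v) := by abel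
      rw [h3]
      exact add_mem (h1.1 _) (h2.1 _)
    · intro w hw
      change G.ac h (G.ac k w) = w
      rw [h2.2 w hw, h1.2 w hw]
  | inv h _ h1 =>
    have h3 : ∀ v, G.ac h (G.ac h⁻¹ v) = v := by
      intro v
      rw [← LinearEquiv.mul_apply, ← map_mul, mul_inv_cancel, map_one]
      rfl
    constructor
    · intro v
      have h4 := h1.1 (G.ac h⁻¹ v)
      rw [h3] at h4
      have h5 := W.neg_mem h4
      rwa [neg_sub] at h5
    · intro w hw
      have h4 : G.ac h⁻¹ (G.ac h w) = w := by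
        rw [← LinearEquiv.mul_apply, ← map_mul, inv_mul_cancel, map_one]
        rfl
      rw [h1.2 w hw] at h4
      exact h4

theorem RZ_comm (h0 : G.IsS0) {W : Submodule K V} (hW : ∀ w ∈ W, G.q w = 0) {h k : H}
    (hh : h ∈ G.RW W) (hk : k ∈ G.RW W) : h * k = k * h := by
  induction hk using Subgroup.closure_induction with
  | mem k hk =>
    obtain ⟨x, hx, y, hy, rfl⟩ := hk
    have h1 := h0.cnj h x y (hW x hx) (RZ_pl hW hx hy)
    rw [(RZ_act h0 hW hh).2 x hx, (RZ_act h0 hW hh).2 y hy] at h1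
    exact mul_inv_eq_iff_eq_mul.1 h1
  | one => rw [mul_one, one_mul]
  | mul a b _ _ h1 h2 => rw [← mul_assoc, h1, mul_assoc, h2, mul_assoc]
  | inv a _ h1 =>
    rw [mul_inv_eq_iff_eq_mul, mul_assoc, h1, inv_mul_cancel_left]

theorem RZ_pow (h0 : G.IsS0) (p : ℕ) [CharP K p] {W : Submodule K V} (hW : ∀ w ∈ W, G.q w = 0)
    {h : H} (hh : h ∈ G.RW W) : h ^ p = 1 := by
  induction hh using Subgroup.closure_induction with
  | mem h hh =>
    obtain ⟨x, hx, y, hy, rfl⟩ := hh
    exact h0.si_p p (hW x hx) (RZ_pl hW hx hy)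
  | one => exact one_pow _
  | mul h k hh hk h1 h2 =>
    rw [Commute.mul_pow (RZ_comm h0 hW hh hk), h1, h2, mul_one]
  | inv h _ h1 => rw [inv_pow, h1, inv_one]

end

theorem tRZ : RZStmt := by
  intro p _ K V H _ _ _ _ _ _ G h0 W hW
  refine ⟨?_, ?_, ?_, fun h hh => (RZ_act h0 hW hh).1, fun h hh => (RZ_act h0 hW hh).2⟩
  · rintro ⟨h, hh⟩
    refine ⟨1, Subtype.ext ?_⟩
    rw [pow_one]
    exact RZ_pow h0 p hW hh
  · intro g hg h hh
    induction hh using Subgroup.closure_induction with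
    | mem h hh =>
      obtain ⟨x, hx, y, hy, rfl⟩ := hh
      rw [h0.cnj g x y (hW x hx) (RZ_pl hW hx hy)]
      exact Subgroup.subset_closure ⟨_, (hg x).2 hx, _, (hg y).2 hy, rfl⟩
    | one =>
      rw [mul_one, mul_inv_cancel]
      exact one_mem _
    | mul a b _ _ h1 h2 =>
      have h3 : g * (a * b) * g⁻¹ = (g * a * g⁻¹) * (g * b * g⁻¹) := by group
      rw [h3]
      exact mul_mem h1 h2
    | inv a _ h1 =>
      have h3 : g * a⁻¹ * g⁻¹ = (g * a * g⁻¹)⁻¹ := by group
      rw [h3]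
      exact inv_mem h1
  · intro h2 hbot
    obtain ⟨x, hx⟩ : ∃ x : W, x ≠ 0 := by
      have : Nontrivial W := Module.nontrivial_of_finrank_pos (R := K) (by omega)
      exact exists_ne 0
    obtain ⟨y, hy⟩ : ∃ y : W, ∀ c : K, y ≠ c • x := by
      by_contra hcon
      push Not at hcon
      have h3 : Module.finrank K W ≤ 1 := finrank_le_one x fun y => by
        obtain ⟨c, hc⟩ := hcon y
        exact ⟨c, hc.symm⟩
      omega
    have hxV : (x : V) ≠ 0 := fun h => hx (Subtype.ext h)
    obtain ⟨z₀, hz₀⟩ := h0.exists_B hxV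
    -- a vector `z` with `B(x,z) = 0`, `B(y,z) ≠ 0`
    have h3 : ∃ z, pl G.q (x : V) z = 0 ∧ pl G.q (y : V) z ≠ 0 := by
      by_contra hcon
      push Not at hcon
      have h4 : (y : V) - pl G.q (y : V) z₀ • (x : V) = 0 := by
        apply h0.nd
        intro v
        have h5 := hcon (v - pl G.q (x : V) v • z₀) (by
          rw [pl_subr, pl_smulr, pl_comm G.q (x : V) z₀, hz₀, mul_one, sub_self])
        rw [pl_subr, pl_smulr] at h5
        rw [pl_subl, pl_smull]
        linear_combination h5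
      exact hy (pl G.q (y : V) z₀) (Subtype.ext (sub_eq_zero.1 h4))
    obtain ⟨z, hz, hyz⟩ := h3
    have h4 : G.si (x : V) (y : V) ∈ G.RW W :=
      Subgroup.subset_closure ⟨x, x.2, y, y.2, rfl⟩
    rw [hbot, Subgroup.mem_bot] at h4
    have h5 := h0.act (x : V) (y : V) (hW _ x.2) (RZ_pl hW x.2 y.2) z
    rw [h4, map_one, sie, pl_comm G.q z (x : V), hz, zero_smul, zero_mul, zero_smul, sub_zero,
      sub_zero] at h5
    have h6 : pl G.q z (y : V) • (x : V) = 0 := by
      have h7 : z = z + pl G.q z (y : V) • (x : V) := h5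
      exact (left_eq_add.1 h7)
    rcases smul_eq_zero.1 h6 with h7 | h7
    · exact hyz (by rw [pl_comm]; exact h7)
    · exact hxV h7

end MP7Z.Ord
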