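import Pool.Agent.Lib.MP_7f581e_Z.Ort.SpecD

/-!
# Orthogonal groups, part D, task Sca: additive maps commuting with the Siegel transformations
-/

set_option autoImplicit false

namespace MP7Z.Ord

theorem tSca (h1 : SngStmt) : ScaStmt := by
  intro K W _ _ _ q hN hH X hX
  obtain ⟨s1, s2, s3, s4, s5⟩ := h1 K W q hN hH
  have self0 : ∀ x, q x = 0 → pl q x x = 0 := fun x hx => by rw [pl_self, hx, mul_zero]
  -- the formula (*)
  have hT : ∀ x y z : W, q x = 0 → q y = 0 → pl q x y = 0 → ∀ c : K,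
      X (c • (pl q z y • x - pl q z x • y)) = c • (pl q (X z) y • x - pl q (X z) x • y) := by
    intro x y z hx hy hxy c
    have hxy' : pl q x (c • y) = 0 := by rw [pl_smulr, hxy, mul_zero]
    have e : ∀ w, sie q x (c • y) w - w = c • (pl q w y • x - pl q w x • y) := by
      intro w
      rw [sie, q_smul, hy, pl_smulr, mul_zero, mul_zero, zero_smul, smul_sub, smul_smul, smul_smul,
        smul_smul, mul_comm (pl q w x) c]
      abel
    rw [← e, ← e, map_sub, hX x (c • y) hx hxy']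
  -- for a pair `x, y`
  have pair : ∀ x y : W, q x = 0 → q y = 0 → pl q x y = 0 → x ≠ 0 → (∀ c : K, y ≠ c • x) →
      ∃ z, pl q z y = 1 ∧ pl q z x = 0 ∧ ∀ c : K,
        X (c • x) = c • (pl q (X z) y • x - pl q (X z) x • y) := by
    intro x y hx hy hxy hx0 hyx
    obtain ⟨z, hz1, hz2⟩ := s2 x y hyx
    refine ⟨z, by rw [pl_comm, hz2], by rw [pl_comm, hz1], fun c => ?_⟩
    have h2 := hT x y z hx hy hxy c
    rw [pl_comm q z y, pl_comm q z x, hz1, hz2, one_smul, zero_smul, sub_zero] at h2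
    exact h2
  -- `X (c x)` is a multiple of `x`
  have line : ∀ x : W, q x = 0 → x ≠ 0 → ∀ y : W, q y = 0 → pl q x y = 0 → (∀ c : K, y ≠ c • x) →
      ∃ z, pl q z y = 1 ∧ pl q z x = 0 ∧ ∀ c : K, X (c • x) = (c * pl q (X z) y) • x := by
    intro x hx hx0
    -- the line is preserved
    obtain ⟨x', hx', hxx'⟩ := s3 x hx0 hx
    obtain ⟨y, hy0, hy1, hy2, hy3⟩ := s5 x x' hx0 hx hx' (by rw [hxx']; exact one_ne_zero)
    obtain ⟨t, hqt, hyt⟩ : ∃ t, q t = q t ∧ pl q y t = 1 := by
      obtain ⟨t, ht⟩ : ∃ t, pl q y t ≠ 0 := by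
        by_contra h
        push Not at h
        exact hy0 (hN y h)
      exact ⟨(pl q y t)⁻¹ • t, rfl, by rw [pl_smulr, inv_mul_cancel₀ ht]⟩
    obtain ⟨t', ht'⟩ : ∃ t', t' = t - pl q t x' • x - pl q t x • x' := ⟨_, rfl⟩
    have hx'y : pl q x' y = 0 := hy3
    have t1 : pl q x t' = 0 := by
      rw [ht', pl_subr, pl_subr, pl_smulr, pl_smulr, self0 x hx, hxx', pl_comm q x t]
      ring
    have t3 : pl q y t' = 1 := by
      rw [ht', pl_subr, pl_subr, pl_smulr, pl_smulr, pl_comm q y x, hy2, pl_comm q y x', hx'y, hyt]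
      ring
    obtain ⟨y₂, hy₂⟩ : ∃ y₂, y₂ = t' - q t' • y := ⟨_, rfl⟩
    have u1 : q y₂ = 0 := by
      rw [hy₂, q_sub, q_smul, pl_smulr, pl_comm q t' y, t3, hy1]
      ring
    have u2 : pl q x y₂ = 0 := by
      rw [hy₂, pl_subr, pl_smulr, t1, hy2]
      ring
    have u3 : pl q y y₂ = 1 := by
      rw [hy₂, pl_subr, pl_smulr, t3, self0 y hy1]
      ring
    have hyx : ∀ c : K, y ≠ c • x := by
      intro c hc
      have h2 := hx'y
      rw [hc, pl_smulr, pl_comm q x' x, hxx', mul_one] at h2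
      exact hy0 (by rw [hc, h2, zero_smul])
    have hy2x : ∀ c : K, y₂ ≠ c • x := by
      intro c hc
      have h2 := u3
      rw [hc, pl_smulr, pl_comm q y x, hy2, mul_zero] at h2
      exact zero_ne_one h2
    obtain ⟨z, hz1, hz2, hz3⟩ := pair x y hx hy1 hy2 hx0 hyx
    obtain ⟨z', hz1', hz2', hz3'⟩ := pair x y₂ hx u1 u2 hx0 hy2x
    have hline : ∀ c : K, ∃ r : K, X (c • x) = r • x := by
      intro c
      have h2 := congrArg (pl q y) (hz3' c)
      rw [hz3 c] at h2
      rw [pl_smulr, pl_smulr, pl_subr, pl_subr, pl_smulr, pl_smulr, pl_smulr, pl_smulr,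
        pl_comm q y x, hy2, self0 y hy1, u3] at h2
      refine ⟨c * pl q (X z') y₂, ?_⟩
      have h3 : c * pl q (X z') x = 0 := by linear_combination h2
      rw [hz3' c, smul_sub, smul_smul, smul_smul, h3, zero_smul, sub_zero]
    intro w hw hxw hwx
    obtain ⟨v, hv1, hv2, hv3⟩ := pair x w hx hw hxw hx0 hwx
    refine ⟨v, hv1, hv2, fun c => ?_⟩
    obtain ⟨r, hr⟩ := hline c
    have h2 := hv3 c
    have h3 : c * pl q (X v) x = 0 := by
      by_contra hne
      rw [hr, smul_sub, smul_smul, smul_smul] at h2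
      apply hwx ((c * pl q (X v) x)⁻¹ * (c * pl q (X v) w - r))
      rw [← smul_smul, sub_smul, h2]
      rw [sub_sub_cancel, smul_smul, inv_mul_cancel₀ hne, one_smul]
    rw [h2, smul_sub, smul_smul, smul_smul, h3, zero_smul, sub_zero]
  -- the scalar of a singular vector
  have lam : ∀ x : W, q x = 0 → x ≠ 0 → ∃ l : K, ∀ c : K, X (c • x) = (c * l) • x := by
    intro x hx hx0
    obtain ⟨y, hy1, hy2, hy3⟩ := s4 x hx0 hx
    obtain ⟨z, -, -, hz⟩ := line x hx hx0 y hy1 hy2 hy3
    exact ⟨_, hz⟩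
  choose! l hl using lam
  have hl1 : ∀ x, q x = 0 → x ≠ 0 → X x = l x • x := by
    intro x hx hx0
    have h2 := hl x hx hx0 1
    rwa [one_smul, one_mul] at h2
  -- orthogonal vectors
  have orth : ∀ x y : W, q x = 0 → q y = 0 → x ≠ 0 → y ≠ 0 → pl q x y = 0 → l x = l y := by
    intro x y hx hy hx0 hy0 hxy
    by_cases hm : ∃ c : K, y = c • x
    · obtain ⟨c, hc⟩ := hm
      have h2 := hl x hx hx0 c
      rw [← hc, hl1 y hy hy0, hc, smul_smul] at h2
      have hc0 : c ≠ 0 := fun h => hy0 (by rw [hc, h, zero_smul])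
      have h3 : (l (c • x) * c - c * l x) • x = 0 := by rw [sub_smul, h2, sub_self]
      have h4 := (smul_eq_zero.1 h3).resolve_right hx0
      rw [hc]
      have h5 : c * (l x - l (c • x)) = 0 := by linear_combination -h4
      exact sub_eq_zero.1 ((mul_eq_zero.1 h5).resolve_left hc0)
    · push Not at hm
      have hxy0 : x + y ≠ 0 := by
        intro h
        apply hm (-1)
        rw [neg_one_smul]
        exact (neg_eq_of_add_eq_zero_right h).symm
      have hq : q (x + y) = 0 := by rw [q_add, hx, hy, hxy, add_zero, add_zero]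
      have h2 := hl1 _ hq hxy0
      rw [map_add, hl1 x hx hx0, hl1 y hy hy0, smul_add] at h2
      obtain ⟨z, hz1, hz2⟩ := s2 x y hm
      have hyx : ∀ c : K, x ≠ c • y := by
        intro c hc
        have hc0 : c ≠ 0 := fun h => hx0 (by rw [hc, h, zero_smul])
        exact hm c⁻¹ (by rw [hc, smul_smul, inv_mul_cancel₀ hc0, one_smul])
      obtain ⟨z', hz1', hz2'⟩ := s2 y x hyx
      have h3 := congrArg (fun w => pl q w z) h2
      have h4 := congrArg (fun w => pl q w z') h2
      simp only [pl_addl, pl_smull, hz1, hz2, hz1', hz2', mul_zero, mul_one, zero_add,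
        add_zero] at h3 h4
      rw [h4, h3]
  have const : ∀ x y : W, q x = 0 → q y = 0 → x ≠ 0 → y ≠ 0 → l x = l y := by
    intro x y hx hy hx0 hy0
    by_cases hxy : pl q x y = 0
    · exact orth x y hx hy hx0 hy0 hxy
    · obtain ⟨u, hu0, hu1, hu2, hu3⟩ := s5 x y hx0 hx hy hxy
      rw [orth x u hx hu1 hx0 hu0 hu2, orth y u hy hu1 hy0 hu0 hu3]
  by_cases hex : ∃ x₀ : W, q x₀ = 0 ∧ x₀ ≠ 0
  · obtain ⟨x₀, hx₀, hx₀'⟩ := hex
    refine ⟨l x₀, fun z => ?_⟩
    let A : AddSubgroup W :=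
      { carrier := {z | X z = l x₀ • z}
        zero_mem' := by
          change X 0 = l x₀ • (0 : W)
          rw [map_zero, smul_zero]
        add_mem' := fun {a b} ha hb => by
          change X (a + b) = l x₀ • (a + b)
          rw [map_add, smul_add, show X a = _ from ha, show X b = _ from hb]
        neg_mem' := fun {a} ha => by
          change X (-a) = l x₀ • (-a)
          rw [map_neg, smul_neg, show X a = _ from ha] }
    have hA : A = ⊤ := by
      refine s1 A fun x hx => ?_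
      change X x = l x₀ • x
      by_cases hx0 : x = 0
      · rw [hx0, map_zero, smul_zero]
      · rw [hl1 x hx hx0, const x x₀ hx hx₀ hx0 hx₀']
    have hz : z ∈ A := by
      rw [hA]
      exact AddSubgroup.mem_top z
    exact hz
  · push Not at hex
    have hA : (⊥ : AddSubgroup W) = ⊤ := s1 ⊥ fun x hx => AddSubgroup.mem_bot.2 (hex x hx)
    refine ⟨0, fun z => ?_⟩
    have hz : z ∈ (⊥ : AddSubgroup W) := by
      rw [hA]
      exact AddSubgroup.mem_top z
    rw [AddSubgroup.mem_bot.1 hz, map_zero, smul_zero]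

end MP7Z.Ord
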