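import Pool.Agent.Lib.MP_7f581e_Z.Ort.D.SemC

/-!
# Orthogonal groups, automorphisms: the semilinear map
-/

set_option autoImplicit false

namespace MP7Z.Ord

/-- A bijective additive map which commutes with all scalars up to a function is semilinear. -/
theorem Sem_ring {K W : Type} [Field K] [Finite K] [AddCommGroup W] [Module K W] {g : W → W}
    (hadd : ∀ u v, g (u + v) = g u + g v) (hbij : Function.Bijective g) {w : W} (hw : w ≠ 0)
    (h : ∀ c : K, ∃ d : K, ∀ u, g (c • u) = d • g u) :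
    ∃ σ : K ≃+* K, ∀ (c : K) u, g (c • u) = σ c • g u := by
  choose σ hσ using h
  have hg0 : g 0 = 0 := by
    have h1 := hadd 0 0
    rw [add_zero] at h1
    exact left_eq_add.1 h1
  have hgw : g w ≠ 0 := by
    intro h1
    exact hw (hbij.1 (h1.trans hg0.symm))
  have huniq : ∀ c d : K, c • g w = d • g w → c = d := by
    intro c d h1
    rw [← sub_eq_zero, ← sub_smul] at h1
    exact sub_eq_zero.1 ((smul_eq_zero.1 h1).resolve_right hgw)
  let f : K →+* K :=
    { toFun := σ
      map_one' := huniq _ _ (by rw [← hσ, one_smul, one_smul])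
      map_mul' := fun c d => huniq _ _ (by rw [← hσ, mul_smul, hσ, hσ, mul_smul])
      map_zero' := huniq _ _ (by rw [← hσ, zero_smul, zero_smul, hg0])
      map_add' := fun c d => huniq _ _ (by rw [← hσ, add_smul, hadd, hσ, hσ, add_smul]) }
  exact ⟨RingEquiv.ofBijective f ⟨f.injective, Finite.surjective_of_injective f.injective⟩, hσ⟩

theorem Sem_ne {K V H : Type} [Field K] [AddCommGroup V] [Module K V] [Group H] {G : SpD K V H}
    (h0 : G.IsS0) : ∃ w : G.U, w ≠ 0 := by
  obtain ⟨a, b, a', b', -, -, -, -, h1, -⟩ := h0.hyp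
  refine ⟨a, ?_⟩
  rintro rfl
  rw [pl_zerol] at h1
  exact zero_ne_one h1

theorem tSem (hL : LftStmt) (hLev : LevStmt) (hSca : ScaStmt) : SemStmt := by
  intro p _ K V H _ _ _ _ _ _ _ _ G hG α hSe hSf
  have h0 := hG.toIsS0
  have hI : MrpInj p H := (hL p H hG.ze).1
  obtain ⟨g, hadd, hbij, hg⟩ := SemX_g (p := p) h0 hI (SemX_e h0) hSe
  have hcor : ∀ {l l' : H}, α (l : H ⧸ Subgroup.center H) = (l' : H ⧸ Subgroup.center H) →
      (l ∈ G.P G.e ↔ l' ∈ G.P G.e) ∧ (l ∈ G.P G.f ↔ l' ∈ G.P G.f) := fun hl =>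
    ⟨hLev p K V H G hG α G.e h0.e_ne h0.qe hSe _ _ hl,
      hLev p K V H G hG α G.f h0.f_ne h0.qf hSf _ _ hl⟩
  have hscal : ∀ κ : K, ∃ d : K, ∀ u, g (κ • u) = d • g u := by
    intro κ
    choose gi hgi using hbij.2
    have hgi' : ∀ u, gi (g u) = u := fun u => hbij.1 (hgi (g u))
    let X : G.U →+ G.U :=
      { toFun := fun z => g (κ • gi z)
        map_zero' := by
          have h1 : g 0 = 0 := by
            have h2 := hadd 0 0
            rw [add_zero] at h2
            exact left_eq_add.1 h2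
          have h2 : gi 0 = 0 := by
            have h3 := hgi' 0
            rwa [h1] at h3
          rw [h2, smul_zero, h1]
        map_add' := fun z w => by
          have h2 : gi (z + w) = gi z + gi w := by
            apply hbij.1
            rw [hadd, hgi, hgi, hgi]
          rw [h2, smul_add, hadd] }
    obtain ⟨d, hd⟩ := hSca K G.U G.qU h0.ndU h0.hyp X (by
      intro x v hx hxv z
      obtain ⟨u, rfl⟩ := hbij.2 z
      obtain ⟨hP1, hP2, hPe, -, hPU⟩ := SemX_si h0 hx hxv
      obtain ⟨l, hl⟩ := QuotientGroup.mk'_surjective (Subgroup.center H)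
        (α.symm ((G.si (x : V) (v : V) : H) : H ⧸ Subgroup.center H))
      have hl' : α (l : H ⧸ Subgroup.center H) =
          ((G.si (x : V) (v : V) : H) : H ⧸ Subgroup.center H) := by
        have h1 : (l : H ⧸ Subgroup.center H) =
          α.symm ((G.si (x : V) (v : V) : H) : H ⧸ Subgroup.center H) := hl
        rw [h1, MulEquiv.apply_symm_apply]
      have hle := (hcor hl').1.2 hP1
      have hlf := (hcor hl').2.2 hP2
      obtain ⟨c, hc, hlx⟩ := id hle
      have hlU := SemX_U h0 hle hlf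
      have hstar : ∀ u : G.U, g (c • ⟨G.ac l u, hlU u u.2⟩) = sie G.qU x v (g u) := by
        intro u
        apply Subtype.ext
        rw [SemX_star (p := p) h0 hI (SemX_e h0) hg hl' hlx hPe hlU (SemX_U h0 hP1 hP2) u,
          one_smul]
        exact hPU (g u)
      change g (κ • gi (sie G.qU x v (g u))) = sie G.qU x v (g (κ • gi (g u)))
      rw [hgi', ← hstar u, hgi', ← hstar (κ • u)]
      congr 1
      apply Subtype.ext
      change κ • (c • G.ac l (u : V)) = c • G.ac l (κ • (u : V))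
      rw [map_smul, smul_comm])
    refine ⟨d, fun u => ?_⟩
    have h1 := hd (g u)
    change g (κ • gi (g u)) = d • g u at h1
    rwa [hgi'] at h1
  obtain ⟨w, hw⟩ := Sem_ne h0
  obtain ⟨σ, hσ⟩ := Sem_ring hadd hbij hw hscal
  refine ⟨σ, g, hadd, hσ, hbij, hg, ?_⟩
  intro x v hx hxv
  obtain ⟨hP1, hP2, hPe, -, hPU⟩ := SemX_si h0 hx hxv
  obtain ⟨l', hl'⟩ := QuotientGroup.mk'_surjective (Subgroup.center H)
    (α ((G.si (x : V) (v : V) : H) : H ⧸ Subgroup.center H))
  have hl : α ((G.si (x : V) (v : V) : H) : H ⧸ Subgroup.center H) =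
    (l' : H ⧸ Subgroup.center H) := hl'.symm
  have hle := (hcor hl).1.1 hP1
  have hlf := (hcor hl).2.1 hP2
  obtain ⟨c, hc, hlx⟩ := id hle
  refine ⟨c ^ 2, fun u => ?_⟩
  have h1 := SemX_star (p := p) h0 hI (SemX_e h0) hg hl hPe hlx (SemX_U h0 hP1 hP2)
    (SemX_U h0 hle hlf) u
  have h2 : (1 : K) • (⟨G.ac (G.si (x : V) (v : V)) u, SemX_U h0 hP1 hP2 u u.2⟩ : G.U) =
      sie G.qU x v u := by
    rw [one_smul]
    exact Subtype.ext (hPU u)
  rw [h2] at h1
  rw [G.qU_apply, h1, q_smul, h0.iso, G.qU_apply]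

end MP7Z.Ord
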