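import Pool.Agent.Lib.MP_7f581e_Z.Ort.SpecD

/-!
# Orthogonal groups, part D, task Sim

A semilinear bijection normalizing the Siegel transformations up to similitudes is a similitude.
-/

set_option autoImplicit false

namespace MP7Z.Ord

section Sim

variable {K W : Type} [Field K] [AddCommGroup W] [Module K W] (q : QuadraticForm K W)

theorem Sim_add (x v u w : W) : sie q x v (u + w) = sie q x v u + sie q x v w := by
  rw [sie, sie, sie, pl_addl, pl_addl, add_smul, add_smul, add_mul, add_smul]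
  abel

theorem Sim_q {x v : W} (hx : q x = 0) (hv : pl q x v = 0) (u : W) :
    q (sie q x v u) = q u := by
  have h1 : pl q x x = 0 := by rw [pl_self, hx, mul_zero]
  have h2 : pl q v x = 0 := by rw [pl_comm, hv]
  rw [sie, q_sub, q_sub, q_add, q_smul, q_smul, q_smul, hx, pl_smulr, pl_smulr, pl_smulr,
    pl_subl, pl_addl, pl_addl, pl_smull, pl_smull, pl_smull, h1, hv, h2]
  ring

theorem Sim_pl {x v : W} (hx : q x = 0) (hv : pl q x v = 0) (u w : W) :
    pl q (sie q x v u) (sie q x v w) = pl q u w := by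
  have h1 : pl q (sie q x v u) (sie q x v w) =
      q (sie q x v u + sie q x v w) - q (sie q x v u) - q (sie q x v w) := rfl
  rw [h1, ← Sim_add, Sim_q q hx hv, Sim_q q hx hv, Sim_q q hx hv]
  rfl

theorem Sim_mul {x v w : W} (hx : q x = 0) (hv : pl q x v = 0) (hw : pl q x w = 0) (u : W) :
    sie q x v (sie q x w u) = sie q x (v + w) u := by
  have h1 : pl q x x = 0 := by rw [pl_self, hx, mul_zero]
  have h2 : pl q w x = 0 := by rw [pl_comm, hw]
  have h3 : pl q w v = pl q v w := pl_comm _ _ _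
  have hA : pl q (sie q x w u) x = pl q u x := by
    rw [sie, pl_subl, pl_subl, pl_addl, pl_smull, pl_smull, pl_smull, h1, h2]
    ring
  have hB : pl q (sie q x w u) v = pl q u v - pl q u x * pl q v w := by
    rw [sie, pl_subl, pl_subl, pl_addl, pl_smull, pl_smull, pl_smull, hv, h3]
    ring
  rw [sie, hA, hB, sie, sie, q_add, pl_addr, smul_add]
  module

theorem Sim_zero (x u : W) : sie q x 0 u = u := by
  rw [sie, pl_zeror, smul_zero, QuadraticMap.map_zero, mul_zero, zero_smul]
  abel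

theorem Sim_nsmul {x v : W} (hv : pl q x v = 0) (n : ℕ) : pl q x (n • v) = 0 := by
  rw [← Nat.cast_smul_eq_nsmul K, pl_smulr, hv, mul_zero]

theorem Sim_pow {x v : W} (hx : q x = 0) (hv : pl q x v = 0) (Q : W → K) (χ : K)
    (hQ : ∀ u, Q (sie q x v u) = χ * Q u) (n : ℕ) (u : W) :
    Q (sie q x (n • v) u) = χ ^ n * Q u := by
  induction n generalizing u with
  | zero => rw [zero_smul, Sim_zero, pow_zero, one_mul]
  | succ n ih =>
    rw [succ_nsmul, ← Sim_mul q hx (Sim_nsmul q hv n) hv, ih, hQ, pow_succ, mul_assoc]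

theorem Sim_surj {x v : W} (hx : q x = 0) (hv : pl q x v = 0) (u : W) :
    ∃ w, sie q x v w = u := by
  refine ⟨sie q x (-v) u, ?_⟩
  rw [Sim_mul q hx hv (by rw [pl_negr, hv, neg_zero]), add_neg_cancel, Sim_zero]

end Sim

theorem tSim (h1 : IrrStmt) (h2 : ScaStmt) : SimStmt := by
  intro p _ K W _ _ _ _ _ q hnd hyp σ g hadd hsm hbij hχ
  have hp2 := hyp
  obtain ⟨a, b, a', b', ha, hb, ha', hb', hab, hab', haa', hab'', hba', hbb'⟩ := hp2
  -- the transported form
  have hg0 : g 0 = 0 := by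
    have := hadd 0 0
    rw [add_zero] at this
    exact left_eq_add.1 this
  let Q₁ : W → K := fun u => σ.symm (q (g u))
  have hQ₁ : ∀ u, Q₁ u = σ.symm (q (g u)) := fun _ => rfl
  let B₁ : W →ₗ[K] W →ₗ[K] K := LinearMap.mk₂ K (fun u v => σ.symm (pl q (g u) (g v)))
    (fun u v w => by rw [hadd, pl_addl, map_add])
    (fun c u v => by rw [hsm, pl_smull, map_mul, RingEquiv.symm_apply_apply, smul_eq_mul])
    (fun u v w => by rw [hadd, pl_addr, map_add])
    (fun c u v => by rw [hsm, pl_smulr, map_mul, RingEquiv.symm_apply_apply, smul_eq_mul])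
  have hB₁ : ∀ u v, B₁ u v = σ.symm (pl q (g u) (g v)) := fun _ _ => rfl
  have hQB : ∀ u v, Q₁ (u + v) = Q₁ u + Q₁ v + B₁ u v := by
    intro u v
    rw [hQ₁, hQ₁, hQ₁, hB₁, hadd, q_add, map_add, map_add]
  -- a vector with a nonzero value
  obtain ⟨u₀, hu₀⟩ : ∃ u, Q₁ u ≠ 0 := by
    obtain ⟨u, hu⟩ := hbij.2 (a + b)
    refine ⟨u, ?_⟩
    rw [hQ₁, hu, q_add, ha, hb, hab, zero_add, zero_add, map_one]
    exact one_ne_zero
  -- invariance
  have hinv : ∀ x v, q x = 0 → pl q x v = 0 → ∀ u, Q₁ (sie q x v u) = Q₁ u := by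
    intro x v hx hv
    obtain ⟨χ, hc⟩ := hχ x v hx hv
    have h3 : ∀ u, Q₁ (sie q x v u) = σ.symm χ * Q₁ u := by
      intro u
      rw [hQ₁, hc, map_mul]
    have h4 := Sim_pow q hx hv Q₁ (σ.symm χ) h3 p u₀
    rw [← Nat.cast_smul_eq_nsmul K, CharP.cast_eq_zero, zero_smul, Sim_zero] at h4
    have h5 : (σ.symm χ) ^ p = 1 := by
      have h6 : (σ.symm χ ^ p - 1) * Q₁ u₀ = 0 := by
        rw [sub_mul, ← h4, one_mul, sub_self]
      exact sub_eq_zero.1 ((mul_eq_zero.1 h6).resolve_right hu₀)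
    have h7 : σ.symm χ = 1 := by
      have h8 : (σ.symm χ - 1) ^ p = 0 := by
        rw [sub_pow_char, h5, one_pow, sub_self]
      exact sub_eq_zero.1 (pow_eq_zero_iff (Fact.out : p.Prime).ne_zero |>.1 h8)
    intro u
    rw [h3, h7, one_mul]
  have hinvB : ∀ x v, q x = 0 → pl q x v = 0 → ∀ u w,
      B₁ (sie q x v u) (sie q x v w) = B₁ u w := by
    intro x v hx hv u w
    have h3 : ∀ s t, B₁ s t = Q₁ (s + t) - Q₁ s - Q₁ t := by
      intro s t
      rw [hQB]
      ring
    rw [h3, h3, ← Sim_add, hinv x v hx hv, hinv x v hx hv, hinv x v hx hv]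
  -- the linear map
  have hinj : Function.Injective (QuadraticMap.polarBilin q) := by
    rw [← LinearMap.ker_eq_bot, LinearMap.ker_eq_bot']
    intro u hu
    apply hnd
    intro y
    have h3 := LinearMap.congr_fun hu y
    exact h3
  let E : W ≃ₗ[K] Module.Dual K W := LinearMap.linearEquivOfInjective
    (QuadraticMap.polarBilin q) hinj Subspace.dual_finrank_eq.symm
  have hE : ∀ u v, E u v = pl q u v := fun u v => rfl
  let X : W →ₗ[K] W := E.symm.toLinearMap ∘ₗ B₁
  have hX : ∀ u v, pl q (X u) v = B₁ u v := by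
    intro u v
    rw [← hE]
    change E (E.symm (B₁ u)) v = _
    rw [LinearEquiv.apply_symm_apply]
  have hcomm : ∀ x v, q x = 0 → pl q x v = 0 → ∀ z, X (sie q x v z) = sie q x v (X z) := by
    intro x v hx hv z
    apply sub_eq_zero.1
    apply hnd
    intro y
    obtain ⟨w, rfl⟩ := Sim_surj q hx hv y
    rw [pl_subl, hX, hinvB x v hx hv, Sim_pl q hx hv, hX, sub_self]
  obtain ⟨c, hc⟩ := h2 K W q hnd hyp X.toAddMonoidHom hcomm
  have hc' : ∀ z, X z = c • z := hc
  have hBc : ∀ u v, B₁ u v = c * pl q u v := by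
    intro u v
    rw [← hX, hc', pl_smull]
  -- the difference
  let d : W →+ K := AddMonoidHom.mk' (fun u => Q₁ u - c * q u) (by
    intro u v
    rw [hQB, q_add, hBc]
    ring)
  have hd : ∀ u, d u = Q₁ u - c * q u := fun _ => rfl
  have hdT : ∀ x v, q x = 0 → pl q x v = 0 → ∀ u, d (sie q x v u) = d u := by
    intro x v hx hv u
    rw [hd, hd, hinv x v hx hv, Sim_q q hx hv]
  have htop : d.ker = ⊤ := by
    apply h1 K W q hnd hyp
    · intro x v hx hv z hz
      rw [AddMonoidHom.mem_ker] at hz ⊢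
      rw [hdT x v hx hv, hz]
    · intro hbot
      have h3 : sie q a a' b - b ∈ d.ker := by
        rw [AddMonoidHom.mem_ker, map_sub, hdT a a' ha haa', sub_self]
      rw [hbot, AddSubgroup.mem_bot] at h3
      have h4 : sie q a a' b - b = -a' := by
        have h5 : pl q b a = 1 := by rw [pl_comm, hab]
        rw [sie, hba', h5, ha']
        simp
      rw [h4, neg_eq_zero] at h3
      rw [h3, pl_zerol] at hab'
      exact zero_ne_one hab'
  have hfin : ∀ u, q (g u) = σ c * σ (q u) := by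
    intro u
    have h3 : u ∈ d.ker := by rw [htop]; trivial
    rw [AddMonoidHom.mem_ker, hd, sub_eq_zero, hQ₁, RingEquiv.symm_apply_eq, map_mul] at h3
    exact h3
  refine ⟨σ c, ?_, hfin⟩
  intro h3
  apply hu₀
  rw [hQ₁, hfin, h3, zero_mul, map_zero]

end MP7Z.Ord
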