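import Pool.Agent.Lib.MP_7f581e_Z.Ort.D.SnC

/-!
# Orthogonal groups, automorphisms: the image of `R_z`
-/

set_option autoImplicit false

namespace MP7Z.Ord

theorem tSnE (hM : MrpStmt) (hWZ : WZStmt) (hD : DmZStmt) (hSy : SylStmt) (hTr : TrStmt)
    (hFix : FixStmt) : SnEStmt := by
  intro p _ K V H _ _ _ _ _ _ _ _ G hG h7 h8 φ z hz0 hqz
  have h0 := hG.toIsS0
  obtain ⟨M, R', P, hPM, hR', hcard, himg, hnorm, huniq⟩ := hM p K V H G hG (by omega) φ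
  have hR'0 : R' ≠ ⊥ := by
    intro hb
    apply (hFix K V H G h0 G.e h0.e_ne h0.qe).2.1
    rw [hb, Subgroup.card_bot] at hcard
    exact Subgroup.card_eq_one.1 hcard.symm
  obtain ⟨W, hW0, hW, hMW⟩ := hWZ p K V H G hG (by omega) M R' P hPM hR' hR'0 hnorm
  obtain ⟨x, hx0, hqx, rfl⟩ := hD p K V H G hG h7 h8 W R' hW0 hW hcard (by
    intro N hN hN0 hNn
    refine huniq N ?_ hN hN0 fun m hm => hNn m (hMW hm)
    refine le_trans ?_ hPM
    exact (hSy p K V H G h0 (by omega) P).2 N hN fun g hg => hNn g (hMW (hPM hg)))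
  have hSe : G.Snd φ G.e x := himg
  obtain ⟨h, c, hc, hhz⟩ := hTr K V H G h0 z hz0 hqz
  obtain ⟨k, hk⟩ := QuotientGroup.mk'_surjective (Subgroup.center H)
    (φ (h : H ⧸ Subgroup.center H))
  refine ⟨G.ac k⁻¹ x, ?_, by rw [h0.iso, hqx], ?_⟩
  · intro h1
    exact hx0 ((LinearEquiv.map_eq_zero_iff _).1 h1)
  · refine SnC_left h0 hqz hqx (h := h) hk.symm ?_
    rw [hhz]
    rw [SnC_iff] at hSe ⊢
    rw [SnC_smul h0 h0.qe hc]
    exact hSe

end MP7Z.Ord
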