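import Pool.Agent.Lib.MP_7f581e_Z.Ort.D.SnC

/-!
# Orthogonal groups, automorphisms: adjusting by an inner automorphism
-/

set_option autoImplicit false

namespace MP7Z.Ord

section

variable {K V H : Type} [Field K] [AddCommGroup V] [Module K V] [Group H] {G : SpD K V H}

theorem SnF_inv (G : SpD K V H) (h : H) (v : V) : G.ac h⁻¹ (G.ac h v) = v := by
  rw [← LinearEquiv.mul_apply, ← map_mul, inv_mul_cancel, map_one]
  rfl

theorem SnF_St {L : Subgroup H} {Y : Submodule K V} (h : ∀ g ∈ L, ∀ v ∈ Y, G.ac g v ∈ Y) :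
    L ≤ G.St Y := by
  intro g hg v
  refine ⟨fun hv => ?_, h g hg v⟩
  have h1 := h g⁻¹ (inv_mem hg) _ hv
  rwa [SnF_inv] at h1

/-- Vectors `y` with `B(e,y) = 1`, `q(y) = 0` are images of `f` under `R_e`. -/
theorem SnF_r (h0 : G.IsS0) {y : V} (hy : G.q y = 0) (hey : pl G.q G.e y = 1) :
    ∃ r ∈ G.R G.e, G.ac r G.f = y := by
  obtain ⟨u, hu, h1⟩ := h0.dec y
  have h2 : pl G.q y G.e = 1 := by rw [pl_comm, hey]
  rw [h2, one_smul] at h1
  have hev : pl G.q G.e (-u) = 0 := by rw [pl_negr, hu.1, neg_zero]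
  refine ⟨G.si G.e (-u), h0.si_mem hev, ?_⟩
  rw [h0.act G.e (-u) h0.qe hev, sie, pl_negr, hu.2, neg_zero, zero_smul, add_zero, h0.fe,
    one_smul, one_mul, q_neg, sub_neg_eq_add]
  have h3 : pl G.q y G.f = -G.q u := by
    have h4 := hy
    rw [h1, q_add, q_add, q_smul, h0.qe, h0.qf, pl_smull, h0.ef, pl_addl, pl_smull, hu.1, hu.2]
      at h4
    linear_combination h4
  conv_rhs => rw [h1, h3]
  rw [neg_smul]
  abel

/-- The vectors `x` and `y` with `R_x R_y` generating the group modulo the centre are not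
orthogonal. -/
theorem SnF_ne (hG : ∃ p : ℕ, G.IsSp p) (hTr : TrStmt) (hCS : CenSStmt)
    {φ : (H ⧸ Subgroup.center H) ≃* (H ⧸ Subgroup.center H)} {y : V} (hy : G.q y = 0)
    (he : G.Snd φ G.e G.e) (hf : G.Snd φ G.f y) : pl G.q G.e y ≠ 0 := by
  obtain ⟨p, hG⟩ := hG
  have h0 := hG.toIsS0
  intro hB
  let Y : Submodule K V := Submodule.span K {G.e, y}
  have heY : G.e ∈ Y := Submodule.subset_span (Or.inl rfl)
  have hyY : y ∈ Y := Submodule.subset_span (Or.inr rfl)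
  have hYq : ∀ w ∈ Y, pl G.q G.e w = 0 := by
    intro w hw
    obtain ⟨a, b, rfl⟩ := Submodule.mem_span_pair.1 hw
    rw [pl_addr, pl_smulr, pl_smulr, h0.ee, hB, mul_zero, mul_zero, add_zero]
  have hyy : pl G.q y y = 0 := by rw [pl_self, hy, mul_zero]
  have hYy : ∀ w ∈ Y, pl G.q w y = 0 := by
    intro w hw
    obtain ⟨a, b, rfl⟩ := Submodule.mem_span_pair.1 hw
    rw [pl_addl, pl_smull, pl_smull, hB, hyy, mul_zero, mul_zero, add_zero]
  have h1 : G.R G.e ≤ G.St Y := by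
    refine SnF_St fun g hg w hw => ?_
    obtain ⟨v, hv, rfl⟩ := (h0.mem_R h0.qe).1 hg
    have h2 : pl G.q w G.e = 0 := by rw [pl_comm]; exact hYq w hw
    rw [h0.act _ _ h0.qe hv, sie, h2, zero_smul, zero_mul, zero_smul, sub_zero, sub_zero]
    exact add_mem hw (Y.smul_mem _ heY)
  have h2 : G.R y ≤ G.St Y := by
    refine SnF_St fun g hg w hw => ?_
    obtain ⟨v, hv, rfl⟩ := (h0.mem_R hy).1 hg
    rw [h0.act _ _ hy hv, sie, hYy w hw, zero_smul, zero_mul, zero_smul, sub_zero, sub_zero]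
    exact add_mem hw (Y.smul_mem _ hyY)
  have h3 : Subgroup.center H ≤ G.St Y := by
    refine SnF_St fun g hg w hw => ?_
    obtain ⟨c, -, hc⟩ := hCS K V H G h0 g hg
    rw [hc]
    exact Y.smul_mem _ hw
  set π := QuotientGroup.mk' (Subgroup.center H) with hπ
  rw [SnC_iff] at he hf
  have h4 : ∀ h : H, φ (π h) ∈ (G.St Y).map π := by
    have h5 : (⊤ : Subgroup H) ≤ (((G.St Y).map π).comap φ.toMonoidHom).comap π := by
      rw [← hG.gen, Subgroup.closure_le]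
      rintro h ⟨v, hv, rfl | rfl⟩
      · change φ (π (G.si G.e v)) ∈ (G.St Y).map π
        have h6 := (he (π (G.si G.e v))).2 ⟨_, h0.si_mem hv.1, rfl⟩
        exact Subgroup.map_mono h1 h6
      · change φ (π (G.si G.f v)) ∈ (G.St Y).map π
        have h6 := (hf (π (G.si G.f v))).2 ⟨_, h0.si_mem hv.2, rfl⟩
        exact Subgroup.map_mono h2 h6
    intro h
    exact h5 (Subgroup.mem_top h)
  have h5 : ∀ k : H, k ∈ G.St Y := by
    intro k
    obtain ⟨h, hh⟩ := QuotientGroup.mk'_surjective (Subgroup.center H) (φ.symm (π k))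
    have h6 := h4 h
    have h7 : φ (π h) = π k := by
      rw [hπ, hh, MulEquiv.apply_symm_apply]
    rw [h7] at h6
    obtain ⟨s, hs, hsk⟩ := h6
    have h8 : s⁻¹ * k ∈ Subgroup.center H := QuotientGroup.eq.1 hsk
    have h9 : k = s * (s⁻¹ * k) := by rw [mul_inv_cancel_left]
    rw [h9]
    exact mul_mem hs (h3 h8)
  obtain ⟨h, c, hc, hh⟩ := hTr K V H G h0 G.f h0.f_ne h0.qf
  have h6 : G.f ∈ Y := by
    refine (h5 h G.f).1 ?_
    rw [hh]
    exact Y.smul_mem _ heY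
  have h7 := hYq _ h6
  rw [h0.ef] at h7
  exact one_ne_zero h7

end

theorem tSnF (hE : SnEStmt) (hTr : TrStmt) (hCS : CenSStmt) : SnFStmt := by
  intro p _ K V H _ _ _ _ _ _ _ _ G hG h7 h8 φ
  have h0 := hG.toIsS0
  obtain ⟨x, hx0, hqx, hSx⟩ := hE p K V H G hG h7 h8 φ G.e h0.e_ne h0.qe
  obtain ⟨y, hy0, hqy, hSy⟩ := hE p K V H G hG h7 h8 φ G.f h0.f_ne h0.qf
  obtain ⟨h₁, c, hc, hh₁⟩ := hTr K V H G h0 x hx0 hqx
  have hqy₁ : G.q (G.ac h₁ y) = 0 := by rw [h0.iso, hqy]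
  have hS₁ : G.Snd (φ.trans (MulAut.conj (h₁ : H ⧸ Subgroup.center H))) G.e G.e := by
    have h1 := SnC_trans h0 hqx hSx h₁
    rw [hh₁] at h1
    exact (SnC_smulr h0 h0.qe hc).1 h1
  have hne := SnF_ne ⟨p, hG⟩ hTr hCS hqy₁ hS₁ (SnC_trans h0 hqy hSy h₁)
  set d := pl G.q G.e (G.ac h₁ y) with hd
  have hqy₂ : G.q (d⁻¹ • G.ac h₁ y) = 0 := by rw [q_smul, hqy₁, mul_zero]
  obtain ⟨r, hr, hrf⟩ := SnF_r h0 hqy₂ (by rw [pl_smulr, ← hd, inv_mul_cancel₀ hne])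
  refine ⟨r⁻¹ * h₁, ?_, ?_⟩
  · have h1 := SnC_trans h0 hqx hSx (r⁻¹ * h₁)
    have h2 : G.ac (r⁻¹ * h₁) x = c • G.e := by
      rw [map_mul, LinearEquiv.mul_apply, hh₁, map_smul]
      rw [h0.R_fix h0.qe (inv_mem hr)]
    rw [h2] at h1
    exact (SnC_smulr h0 h0.qe hc).1 h1
  · have h1 := SnC_trans h0 hqy hSy (r⁻¹ * h₁)
    have h2 : G.ac (r⁻¹ * h₁) y = d • G.f := by
      have h3 : G.ac h₁ y = d • G.ac r G.f := by
        rw [hrf, smul_smul, mul_inv_cancel₀ hne, one_smul]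
      rw [map_mul, LinearEquiv.mul_apply, h3, map_smul, SnF_inv]
    rw [h2] at h1
    exact (SnC_smulr h0 h0.qf hne).1 h1

end MP7Z.Ord
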