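import Pool.Agent.Lib.MP_7f581e_Z.Ort.SpecD

/-!
# Orthogonal groups, part D, task Sng: singular vectors
-/

set_option autoImplicit false

namespace MP7Z.Ord

theorem Sng_two {K W : Type} [Field K] [AddCommGroup W] [Module K W] (q : QuadraticForm K W)
    (hN : Nd q) (x y : W) (hy : ∀ c : K, y ≠ c • x) : ∃ z, pl q x z = 0 ∧ pl q y z = 1 := by
  by_cases hx : ∀ z, pl q x z = 0
  · have hy0 : y ≠ 0 := fun h => hy 0 (by rw [h, zero_smul])
    obtain ⟨z, hz⟩ : ∃ z, pl q y z ≠ 0 := by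
      by_contra h
      push Not at h
      exact hy0 (hN y h)
    exact ⟨(pl q y z)⁻¹ • z, hx _, by rw [pl_smulr, inv_mul_cancel₀ hz]⟩
  push Not at hx
  obtain ⟨z₁, hz₁⟩ := hx
  obtain ⟨z₀, hz₀⟩ : ∃ z₀, z₀ = (pl q x z₁)⁻¹ • z₁ := ⟨_, rfl⟩
  have h0 : pl q x z₀ = 1 := by rw [hz₀, pl_smulr, inv_mul_cancel₀ hz₁]
  by_contra hcon
  push Not at hcon
  have h1 : ∀ z, pl q x z = 0 → pl q y z = 0 := by
    intro z hz
    by_contra hne
    refine hcon ((pl q y z)⁻¹ • z) ?_ ?_
    · rw [pl_smulr, hz, mul_zero]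
    · rw [pl_smulr, inv_mul_cancel₀ hne]
  apply hy (pl q y z₀)
  rw [← sub_eq_zero]
  apply hN
  intro z
  have h2 := h1 (z - pl q x z • z₀) (by rw [pl_subr, pl_smulr, h0, mul_one, sub_self])
  rw [pl_subr, pl_smulr] at h2
  rw [pl_subl, pl_smull]
  linear_combination h2

theorem Sng_four {K W : Type} [Field K] [AddCommGroup W] [Module K W] (q : QuadraticForm K W)
    (hH : Hyp2 q) (x : W) (hx : x ≠ 0) : ∃ y, q y = 0 ∧ pl q x y = 0 ∧ ∀ c : K, y ≠ c • x := by
  obtain ⟨a, b, a', b', ha, hb, ha', hb', hab, hab', haa', hab'', hba', hbb'⟩ := hH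
  -- an isotropic vector orthogonal to `x` in a totally isotropic plane
  have key : ∀ (u v : W), q u = 0 → q v = 0 → pl q u v = 0 → (∀ s t : K, s • u + t • v = 0 →
      s = 0 ∧ t = 0) → ∃ s t : K, s • u + t • v ≠ 0 ∧ q (s • u + t • v) = 0 ∧
        pl q x (s • u + t • v) = 0 := by
    intro u v hu hv huv hind
    have hq : ∀ s t : K, q (s • u + t • v) = 0 := by
      intro s t
      rw [q_add, q_smul, q_smul, pl_smull, pl_smulr, hu, hv, huv]
      ring
    by_cases h : pl q x u = 0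
    · refine ⟨1, 0, fun h0 => ?_, hq _ _, ?_⟩
      · exact one_ne_zero (hind 1 0 h0).1
      · rw [one_smul, zero_smul, add_zero, h]
    · refine ⟨pl q x v, -pl q x u, fun h0 => ?_, hq _ _, ?_⟩
      · exact h (neg_eq_zero.1 (hind _ _ h0).2)
      · rw [pl_addr, pl_smulr, pl_smulr]
        ring
  have i1 : ∀ s t : K, s • a + t • a' = 0 → s = 0 ∧ t = 0 := by
    intro s t h
    have h1 := congrArg (pl q b) h
    have h2 := congrArg (pl q b') h
    rw [pl_addr, pl_smulr, pl_smulr, pl_zeror, pl_comm q b a, hab, hba'] at h1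
    rw [pl_addr, pl_smulr, pl_smulr, pl_zeror, pl_comm q b' a, pl_comm q b' a', hab', hab''] at h2
    constructor
    · linear_combination h1
    · linear_combination h2
  have i2 : ∀ s t : K, s • b + t • b' = 0 → s = 0 ∧ t = 0 := by
    intro s t h
    have h1 := congrArg (pl q a) h
    have h2 := congrArg (pl q a') h
    rw [pl_addr, pl_smulr, pl_smulr, pl_zeror, hab, hab''] at h1
    rw [pl_addr, pl_smulr, pl_smulr, pl_zeror, pl_comm q a' b, hab', hba'] at h2
    constructor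
    · linear_combination h1
    · linear_combination h2
  obtain ⟨s, t, h1, h2, h3⟩ := key a a' ha ha' haa' i1
  obtain ⟨s', t', h1', h2', h3'⟩ := key b b' hb hb' hbb' i2
  by_cases hc : ∀ c : K, s • a + t • a' ≠ c • x
  · exact ⟨_, h2, h3, hc⟩
  push Not at hc
  obtain ⟨c, hc⟩ := hc
  refine ⟨_, h2', h3', fun c' hc' => ?_⟩
  have hc0 : c ≠ 0 := fun h => h1 (by rw [hc, h, zero_smul])
  have hx' : x = c⁻¹ • (s • a + t • a') := by rw [hc, smul_smul, inv_mul_cancel₀ hc0, one_smul]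
  have h4 : s' • b + t' • b' = (c' * c⁻¹) • (s • a + t • a') := by
    rw [hc', ← smul_smul, ← hx']
  have h5 := congrArg (pl q a) h4
  have h6 := congrArg (pl q a') h4
  have haa : pl q a a = 0 := by rw [pl_self, ha, mul_zero]
  have haa2 : pl q a' a' = 0 := by rw [pl_self, ha', mul_zero]
  rw [pl_addr, pl_smulr, pl_smulr, hab, hab'', pl_smulr, pl_addr, pl_smulr, pl_smulr, haa, haa']
    at h5
  rw [pl_addr, pl_smulr, pl_smulr, pl_comm q a' b, hba', hab', pl_smulr, pl_addr, pl_smulr,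
    pl_smulr, pl_comm q a' a, haa', haa2] at h6
  apply h1'
  have h7 : s' = 0 := by linear_combination h5
  have h8 : t' = 0 := by linear_combination h6
  rw [h7, h8, zero_smul, zero_smul, add_zero]

theorem tSng : SngStmt := by
  intro K W _ _ _ q hN hH
  have h3 : ∀ x : W, x ≠ 0 → q x = 0 → ∃ y, q y = 0 ∧ pl q x y = 1 := by
    intro x hx hqx
    obtain ⟨z, hz⟩ : ∃ z, pl q x z ≠ 0 := by
      by_contra h
      push Not at h
      exact hx (hN x h)
    obtain ⟨y₀, hy₀⟩ : ∃ y₀, y₀ = (pl q x z)⁻¹ • z := ⟨_, rfl⟩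
    have h0 : pl q x y₀ = 1 := by rw [hy₀, pl_smulr, inv_mul_cancel₀ hz]
    have hxx : pl q x x = 0 := by rw [pl_self, hqx, mul_zero]
    refine ⟨y₀ - q y₀ • x, ?_, ?_⟩
    · rw [q_sub, q_smul, pl_smulr, pl_comm q y₀ x, h0, hqx]
      ring
    · rw [pl_subr, pl_smulr, h0, hxx]
      ring
  refine ⟨?_, Sng_two q hN, h3, fun x hx _ => Sng_four q hH x hx, ?_⟩
  · intro A hA
    obtain ⟨a, b, a', b', ha, hb, ha', hb', hab, hab', haa', hab'', hba', hbb'⟩ := hH
    rw [eq_top_iff]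
    intro w _
    have haa : pl q a a = 0 := by rw [pl_self, ha, mul_zero]
    have hbb : pl q b b = 0 := by rw [pl_self, hb, mul_zero]
    obtain ⟨w', hw'⟩ : ∃ w', w' = w - pl q w b • a - pl q w a • b := ⟨_, rfl⟩
    have hwa : pl q w' a = 0 := by
      rw [hw', pl_subl, pl_subl, pl_smull, pl_smull, haa, pl_comm q b a, hab]
      ring
    have hwb : pl q w' b = 0 := by
      rw [hw', pl_subl, pl_subl, pl_smull, pl_smull, hbb, hab]
      ring
    have m1 : ∀ c : K, c • a ∈ A := fun c => hA _ (by rw [q_smul, ha, mul_zero])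
    have m2 : ∀ c : K, c • b ∈ A := fun c => hA _ (by rw [q_smul, hb, mul_zero])
    have m3 : w' + a - q w' • b ∈ A := by
      apply hA
      rw [q_sub, q_add, q_smul, pl_smulr, pl_addl, hwa, hwb, hab, ha, hb]
      ring
    have h1 : w = (w' + a - q w' • b) - (1 : K) • a + q w' • b + pl q w b • a + pl q w a • b := by
      rw [hw', one_smul]
      abel
    rw [h1]
    exact A.add_mem (A.add_mem (A.add_mem (A.sub_mem m3 (m1 1)) (m2 _)) (m1 _)) (m2 _)
  · intro x x' hx hqx hqx' hne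
    obtain ⟨y, hy1, hy2, hy3⟩ := Sng_four q hH x hx
    have hxx : pl q x x = 0 := by rw [pl_self, hqx, mul_zero]
    refine ⟨y - (pl q x' y / pl q x' x) • x, fun h => hy3 _ (sub_eq_zero.1 h), ?_, ?_, ?_⟩
    · rw [q_sub, q_smul, pl_smulr, pl_comm q y x, hy2, hqx, hy1]
      ring
    · rw [pl_subr, pl_smulr, hy2, hxx]
      ring
    · have hne' : pl q x' x ≠ 0 := by rwa [pl_comm]
      rw [pl_subr, pl_smulr, div_mul_cancel₀ _ hne', sub_self]

end MP7Z.Ord
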