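import Pool.Agent.Lib.MP_7f581e_Z.Ort.SpecD
import Pool.Agent.Lib.MP_7f581e_Z.Ort.DAct

/-!
# Orthogonal groups, part D, task Tr: transitivity on the singular lines
-/

set_option autoImplicit false

namespace MP7Z.Ord

theorem tTr : TrStmt := fun _ _ _ _ _ _ _ _ h0 _ hx0 hx => h0.trans hx0 hx

end MP7Z.Ord
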