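import Pool.Agent.Lib.MP_7f581e_Z.Ort.SpecD

/-!
# The invariant totally singular subspace (`WZStmt`)
-/

set_option autoImplicit false
set_option linter.unusedSectionVars false

namespace MP7Z.Ord

open MP7Z.Ort Matrix

section

variable {K V H : Type} [Field K] [AddCommGroup V] [Module K V] [Group H] (G : SpD K V H)

/-- The fixed vectors. -/
def WZ_C (R' : Subgroup H) : Submodule K V where
  carrier := {w | ∀ r ∈ R', G.ac r w = w}
  zero_mem' := fun r _ => map_zero _
  add_mem' := fun {v w} hv hw r hr => by rw [map_add, hv r hr, hw r hr]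
  smul_mem' := fun c v hv r hr => by rw [map_smul, hv r hr]

/-- The orthogonal complement. -/
def WZ_O (C : Submodule K V) : Submodule K V where
  carrier := {v | ∀ w ∈ C, pl G.q v w = 0}
  zero_mem' := fun w _ => pl_zerol _ _
  add_mem' := fun {v w} hv hw u hu => by rw [pl_addl, hv u hu, hw u hu, add_zero]
  smul_mem' := fun c v hv u hu => by rw [pl_smull, hv u hu, mul_zero]

/-- The singular vectors of the radical. -/
def WZ_W (C : Submodule K V) : Submodule K V where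
  carrier := {w | w ∈ C ∧ w ∈ WZ_O G C ∧ G.q w = 0}
  zero_mem' := ⟨zero_mem _, zero_mem _, map_zero G.q⟩
  add_mem' := fun {v w} hv hw => ⟨add_mem hv.1 hw.1, add_mem hv.2.1 hw.2.1, by
    rw [q_add, hv.2.2, hw.2.2, hv.2.1 w hw.1, add_zero, add_zero]⟩
  smul_mem' := fun c v hv => ⟨Submodule.smul_mem _ _ hv.1, Submodule.smul_mem _ _ hv.2.1, by
    rw [q_smul, hv.2.2, mul_zero]⟩

theorem WZ_inv (R' : Subgroup H) (m : H) (hm : ∀ r ∈ R', m⁻¹ * r * m ∈ R') {w : V}
    (hw : w ∈ WZ_C G R') : G.ac m w ∈ WZ_C G R' := by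
  intro r hr
  have h1 := hw _ (hm r hr)
  calc G.ac r (G.ac m w) = G.ac (r * m) w := by rw [map_mul]; rfl
    _ = G.ac (m * (m⁻¹ * r * m)) w := by
      congr 2
      group
    _ = G.ac m (G.ac (m⁻¹ * r * m) w) := by rw [map_mul]; rfl
    _ = G.ac m w := by rw [h1]

/-- The complement of a proper subspace is not zero. -/
theorem WZ_ne [FiniteDimensional K V] (hnd : Nd G.q) {C : Submodule K V} (hC : C ≠ ⊤) :
    WZ_O G C ≠ ⊥ := by
  obtain ⟨f, hf, hCf⟩ := Submodule.exists_le_ker_of_lt_top C (lt_top_iff_ne_top.2 hC)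
  have hinj : Function.Injective (G.q.polarBilin : V →ₗ[K] V →ₗ[K] K) := by
    rw [injective_iff_map_eq_zero]
    intro x hx
    apply hnd
    intro y
    exact LinearMap.congr_fun hx y
  have hsurj : Function.Surjective (G.q.polarBilin : V →ₗ[K] V →ₗ[K] K) :=
    (LinearMap.injective_iff_surjective_of_finrank_eq_finrank
      (Subspace.dual_finrank_eq (K := K) (V := V)).symm).1 hinj
  obtain ⟨v, hv⟩ := hsurj f
  intro hbot
  have h1 : v ∈ WZ_O G C := by
    intro w hw
    have h2 : G.q.polarBilin v w = f w := by rw [hv]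
    exact h2.trans (hCf hw)
  rw [hbot, Submodule.mem_bot] at h1
  apply hf
  rw [← hv, h1, map_zero]

end

theorem tWZ (fxv : FxVStmt) (syl : SylStmt) : WZStmt := by
  intro p _ K V H _ _ _ _ _ _ _ _ G h0 h3 M R' P hPM hR' hne hM
  have hs := h0.toIsS0
  have hM' : ∀ m ∈ M, ∀ r ∈ R', m⁻¹ * r * m ∈ R' := by
    intro m hm r hr
    have h1 := hM m⁻¹ (inv_mem hm) r hr
    rwa [inv_inv] at h1
  set C := WZ_C G R' with hC
  have hCi : ∀ m ∈ M, ∀ w ∈ C, G.ac m w ∈ C := fun m hm w hw => WZ_inv G R' m (hM' m hm) hw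
  have hOi : ∀ m ∈ M, ∀ v ∈ WZ_O G C, G.ac m v ∈ WZ_O G C := by
    intro m hm v hv w hw
    rw [hs.acB]
    exact hv _ (hCi m⁻¹ (inv_mem hm) w hw)
  have hWi : ∀ m ∈ M, ∀ v ∈ WZ_W G C, G.ac m v ∈ WZ_W G C := fun m hm v hv =>
    ⟨hCi m hm v hv.1, hOi m hm v hv.2.1, by rw [hs.iso, hv.2.2]⟩
  obtain ⟨⟨x, hx, hqx, hfx, hfix⟩, hsyl⟩ := syl p K V H G hs h3 P
  have hRP : R' ≤ (P : Subgroup H) := hsyl R' hR' fun g hg n hn => hM g (hPM hg) n hn
  have hCt : C ≠ ⊤ := by
    intro htop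
    have h1 : R' ≤ Subgroup.center H := by
      intro r hr
      refine hs.ker r 1 fun v => ?_
      have h2 : v ∈ C := by
        rw [htop]
        exact Submodule.mem_top
      rw [h2 r hr, one_smul]
    apply h0.ze
    have h2 := Subgroup.card_dvd_of_le h1
    refine dvd_trans ?_ h2
    obtain ⟨n, hn⟩ := IsPGroup.iff_card.1 hR'
    rw [hn]
    refine dvd_pow_self _ ?_
    rintro rfl
    apply hne
    rw [pow_zero] at hn
    exact Subgroup.eq_bot_of_card_eq R' hn
  obtain ⟨v, hv, hv0, hvf⟩ := (fxv p K V H G hs h3 P P.isPGroup').2 (WZ_O G C)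
    (WZ_ne G hs.nd hCt) (fun h hh w hw => hOi h (hPM hh) w hw)
  obtain ⟨c, hc⟩ := hfix v hvf
  have hc0 : c ≠ 0 := by
    rintro rfl
    apply hv0
    rw [hc, zero_smul]
  refine ⟨WZ_W G C, ?_, fun w hw => hw.2.2, ?_⟩
  · intro hbot
    have h1 : x ∈ WZ_W G C := by
      refine ⟨fun r hr => hfx r (hRP hr), ?_, hqx⟩
      have h2 : x = c⁻¹ • v := by rw [hc, smul_smul, inv_mul_cancel₀ hc0, one_smul]
      rw [h2]
      exact Submodule.smul_mem _ _ hv
    rw [hbot, Submodule.mem_bot] at h1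
    exact hx h1
  · intro m hm v
    refine ⟨fun h => ?_, fun h => hWi m hm v h⟩
    have h1 := hWi m⁻¹ (inv_mem hm) _ h
    have h2 : G.ac m⁻¹ (G.ac m v) = v := by
      rw [map_inv]
      exact LinearEquiv.symm_apply_apply _ _
    rwa [h2] at h1

end MP7Z.Ord
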