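import Pool.Agent.Lib.MP_7f581e_Z.Ort.SpecD
import Mathlib.FieldTheory.ChevalleyWarning

/-!
# Orthogonal groups, part D, task Zer: the number of zeros of a quadratic form
-/

set_option autoImplicit false

namespace MP7Z.Ord

theorem tZer : ZerStmt := by
  intro p _ K W _ _ _ _ _ _ q h3
  classical
  have := Fintype.ofFinite K
  obtain ⟨B, rfl⟩ := LinearMap.BilinMap.toQuadraticMap_surjective (R := K) (M := W) (N := K) q
  let β := Module.finBasis K W
  let f : MvPolynomial (Fin (Module.finrank K W)) K :=
    ∑ i, ∑ j, MvPolynomial.C (B (β i) (β j)) * (MvPolynomial.X i * MvPolynomial.X j)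
  have hdeg : f.totalDegree ≤ 2 := by
    refine MvPolynomial.totalDegree_finsetSum_le fun i _ =>
      MvPolynomial.totalDegree_finsetSum_le fun j _ => ?_
    refine (MvPolynomial.totalDegree_mul _ _).trans ?_
    rw [MvPolynomial.totalDegree_C, zero_add]
    refine (MvPolynomial.totalDegree_mul _ _).trans ?_
    rw [MvPolynomial.totalDegree_X, MvPolynomial.totalDegree_X]
  have heval : ∀ x, MvPolynomial.eval x f = B.toQuadraticMap (∑ i, x i • β i) := by
    intro x
    change _ = B (∑ i, x i • β i) (∑ i, x i • β i)
    simp only [f, map_sum, map_mul, MvPolynomial.eval_C, MvPolynomial.eval_X, map_smul,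
      LinearMap.sum_apply, LinearMap.smul_apply, smul_eq_mul]
    rw [Finset.sum_comm]
    refine Finset.sum_congr rfl fun i _ => ?_
    rw [Finset.mul_sum]
    refine Finset.sum_congr rfl fun j _ => ?_
    ring
  have hcard := char_dvd_card_solutions p (K := K) (f := f)
    (by rw [Fintype.card_fin]; omega)
  rw [← Nat.card_eq_fintype_card] at hcard
  have he : Nat.card {x : Fin (Module.finrank K W) → K // MvPolynomial.eval x f = 0} =
      Nat.card {x : W // B.toQuadraticMap x = 0} := by
    refine Nat.card_congr (Equiv.subtypeEquiv β.equivFun.symm.toEquiv fun x => ?_)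
    rw [heval]
    change _ ↔ B.toQuadraticMap (β.equivFun.symm x) = 0
    rw [β.equivFun_symm_apply]
  rwa [he] at hcard

end MP7Z.Ord
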