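import Pool.Agent.Lib.MP_7f581e_Z.Ort.SpecD

/-!
# Orthogonal groups, part D, task OAut: the automorphism theorem
-/

set_option autoImplicit false

namespace MP7Z.Ord

open MP7Z.Ort Matrix

section

variable {K V H : Type} [Field K] [AddCommGroup V] [Module K V] [Group H] {G : SpD K V H}

theorem OAut_Snd {α γ : (H ⧸ Subgroup.center H) ≃* (H ⧸ Subgroup.center H)} {x : V}
    (h1 : G.Snd α x x) (h2 : G.Snd γ x x) : G.Snd (α.trans γ.symm) x x := by
  unfold SpD.Snd at h1 h2 ⊢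
  have h3 : (α.trans γ.symm).toMonoidHom = γ.symm.toMonoidHom.comp α.toMonoidHom := rfl
  rw [h3, ← Subgroup.map_map, h1]
  conv_lhs => rw [← h2, Subgroup.map_map]
  have h4 : γ.symm.toMonoidHom.comp γ.toMonoidHom = MonoidHom.id _ := by
    exact MonoidHom.ext fun t => γ.symm_apply_apply t
  rw [h4, Subgroup.map_id]

end

theorem OAut_dim (hFrk : FrkStmt) {F : Type} [Field F] {s : ℕ} (o : Prop) (hs : 3 ≤ s) :
    7 ≤ Module.finrank F (Vo o s F) ∧
      (Module.finrank F (Vo o s F) = 8 → s = 3 ∧ ¬ o) := by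
  obtain ⟨h1, h2⟩ := hFrk F s o
  by_cases ho : o
  · rw [h1 ho]
    exact ⟨by omega, fun h => by omega⟩
  · rw [h2 ho]
    exact ⟨by omega, fun h => ⟨by omega, ho⟩⟩

theorem tOAut (hA : BrAStmt) (hB : BrBStmt) (hC : BrCStmt) (hFrk : FrkStmt) (hIso : IsoStmt)
    (hSnF : SnFStmt) (hSem : SemStmt) (hSim : SimStmt) (hAsa : AsaStmt) (hBet : BetStmt)
    (hAdh : AdhStmt) : OAutStmt := by
  intro p _ F _ _ _ s D hs hani hex φ
  obtain ⟨s, rfl⟩ : ∃ s', s = s' + 1 := ⟨s - 1, by omega⟩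
  have hs2 : 2 ≤ s := by omega
  have hch : CharP F p := charP_of_injective_algebraMap (algebraMap (ZMod p) F).injective p
  obtain ⟨G, hR⟩ := hA F s D
  have h0 := hB F s D G hs2 hR
  have hp := hC p F s D G hs2 hR h0
  obtain ⟨h7, h8⟩ := OAut_dim hFrk (F := F) D.o hs
  have h8' : Module.finrank F D.V = 8 → ∀ W : Submodule F D.V, (∀ w ∈ W, G.q w = 0) →
      Module.finrank F W ≤ 3 := by
    intro h W hW
    obtain ⟨h9, h10⟩ := h8 h
    have h11 := hIso F (s + 1) D.a D.b (hani h9 h10) (W.map D.V.subtype) (by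
      rintro _ ⟨w, hw, rfl⟩
      have h12 := hW w hw
      rw [hR.q] at h12
      exact h12)
    rw [Submodule.finrank_map_subtype_eq D.V W] at h11
    exact h11.trans h9.le
  obtain ⟨h₀, hse, hsf⟩ := hSnF p F D.V D.H G hp h7 h8' φ
  obtain ⟨α, hα⟩ : ∃ α : (D.H ⧸ Subgroup.center D.H) ≃* (D.H ⧸ Subgroup.center D.H),
    α = MulEquiv.trans φ (MulAut.conj (h₀ : D.H ⧸ Subgroup.center D.H)) := ⟨_, rfl⟩
  have hse' : G.Snd α G.e G.e := by rw [hα]; exact hse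
  have hsf' : G.Snd α G.f G.f := by rw [hα]; exact hsf
  obtain ⟨σ, g, hadd, hsmul, hbij, hge, hχ⟩ := hSem p F D.V D.H G hp α hse' hsf'
  obtain ⟨μ, hμ, hq⟩ := hSim p F G.U G.qU h0.ndU h0.hyp σ g hadd hsmul hbij hχ
  obtain ⟨x, hx, hxf⟩ := hAsa p F s D G hR h0 hex σ μ g hμ hadd hsmul hbij hq
  have hβ := hBet p F D.V D.H G hp (α.trans (D.cq p hex x).symm) (fun u hu => by
    change (D.cq p hex x).symm (α _) = _
    rw [hge ⟨u, hu⟩, MulEquiv.symm_apply_eq]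
    exact (hx ⟨u, hu⟩).symm) (OAut_Snd hsf' hxf)
  obtain ⟨y, hy⟩ := hAdh p F (s + 1) D h₀⁻¹
  have hcy : ∀ t : D.SQ, D.cq p hex y t = (h₀ : D.SQ)⁻¹ * t * (h₀ : D.SQ) := by
    intro t
    obtain ⟨u, rfl⟩ := QuotientGroup.mk'_surjective (Subgroup.center D.H) t
    have h1 : D.inc p (h₀⁻¹ * u * h₀) = D.r p y (D.inc p u) := by
      rw [hy, map_mul, map_mul, inv_inv]
    exact MP7fW.cQ_mk' (D.inc p) (D.inc_injective p) (D.r p) hex y h1
  refine ⟨y * x, ?_⟩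
  ext1 t
  rw [map_mul]
  change φ t = D.cq p hex y (D.cq p hex x t)
  have h1 : (D.cq p hex x).symm (α t) = t := hβ t
  rw [MulEquiv.symm_apply_eq] at h1
  rw [← h1, hcy, hα]
  change φ t = (h₀ : D.SQ)⁻¹ * ((h₀ : D.SQ) * φ t * (h₀ : D.SQ)⁻¹) * (h₀ : D.SQ)
  group

end MP7Z.Ord
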