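import Pool.Agent.Lib.MP_7f581e_Z.Ort.SpecD

/-!
# Orthogonal groups, automorphisms: normal `p`-subgroups of the stabilizer of a subspace
-/

set_option autoImplicit false

namespace MP7Z.Ord

section

variable {K V H : Type} [Field K] [AddCommGroup V] [Module K V] [Group H] {G : SpD K V H}

theorem DmZ_pl {W : Submodule K V} (hW : ∀ w ∈ W, G.q w = 0) {x y : V} (hx : x ∈ W) (hy : y ∈ W) :
    pl G.q x y = 0 := by
  have h1 := q_add G.q x y
  rw [hW _ (add_mem hx hy), hW x hx, hW y hy] at h1
  linear_combination -h1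

/-- If `W` is equal to its orthogonal complement then `dim V = 2 dim W`. -/
theorem DmZ_dim [FiniteDimensional K V] (hnd : Nd G.q) (W : Submodule K V)
    (hW : ∀ w ∈ W, G.q w = 0) (h : ∀ v, (∀ w ∈ W, pl G.q w v = 0) → v ∈ W) :
    Module.finrank K V = 2 * Module.finrank K W := by
  let L : V →ₗ[K] Module.Dual K W :=
    { toFun := fun x =>
        { toFun := fun y => pl G.q x (y : V)
          map_add' := fun y z => pl_addr _ _ _ _
          map_smul' := fun c y => pl_smulr _ _ _ _ }
      map_add' := fun x y => LinearMap.ext fun z => pl_addl _ _ _ _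
      map_smul' := fun c x => LinearMap.ext fun z => pl_smull _ _ _ _ }
  have h1 : LinearMap.ker L = W := by
    ext v
    rw [LinearMap.mem_ker]
    constructor
    · intro hv
      refine h v fun w hw => ?_
      rw [pl_comm]
      exact LinearMap.congr_fun hv ⟨w, hw⟩
    · intro hv
      refine LinearMap.ext fun w => ?_
      exact DmZ_pl hW hv w.2
  have h2 : LinearMap.range L = ⊤ := by
    let L' : V →ₗ[K] Module.Dual K V :=
      { toFun := fun x =>
          { toFun := fun y => pl G.q x y
            map_add' := fun y z => pl_addr _ _ _ _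
            map_smul' := fun c y => pl_smulr _ _ _ _ }
        map_add' := fun x y => LinearMap.ext fun z => pl_addl _ _ _ _
        map_smul' := fun c x => LinearMap.ext fun z => pl_smull _ _ _ _ }
    have hL : Function.Injective L' := by
      rw [← LinearMap.ker_eq_bot, LinearMap.ker_eq_bot']
      intro x hx
      exact hnd x fun y => LinearMap.congr_fun hx y
    have hL' : Function.Surjective L' :=
      (LinearMap.injective_iff_surjective_of_finrank_eq_finrank
        (Subspace.dual_finrank_eq (K := K) (V := V)).symm).1 hL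
    rw [LinearMap.range_eq_top]
    intro g
    obtain ⟨g', hg'⟩ := LinearMap.exists_extend g
    obtain ⟨z, hz⟩ := hL' g'
    refine ⟨z, LinearMap.ext fun w => ?_⟩
    have h3 : L' z (w : V) = g' (w : V) := LinearMap.congr_fun hz _
    have h4 : g' (w : V) = g w := LinearMap.congr_fun hg' w
    rw [← h4, ← h3]
    rfl
  have h3 := LinearMap.finrank_range_add_finrank_ker L
  rw [h1, h2, finrank_top, Subspace.dual_finrank_eq] at h3
  omega

end

theorem tDmZ (hRZ : RZStmt) (hQZ : QZStmt) (hCn : CnZStmt) (hFix : FixStmt) : DmZStmt := by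
  intro p _ K V H _ _ _ _ _ _ _ _ G hG h7 h8 W R' hW0 hW hcard huniq
  have h0 := hG.toIsS0
  obtain ⟨hR1, hR2, hR3, hR4, -⟩ := hRZ p K V H G h0 W hW
  have hpos : 1 ≤ Module.finrank K W := by
    rw [Nat.one_le_iff_ne_zero]
    intro h1
    exact hW0 (Submodule.finrank_eq_zero.1 h1)
  by_cases h2 : 2 ≤ Module.finrank K W
  · exfalso
    have hRW : G.RW W = R' := huniq _ hR1 (hR3 h2) hR2
    have hle : G.RW W ≤ G.QW W := by
      rw [SpD.RW, Subgroup.closure_le]
      rintro h ⟨x, hx, y, hy, rfl⟩
      exact Subgroup.subset_closure ⟨x, hx, y, fun w hw => DmZ_pl hW hw hy, rfl⟩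
    obtain ⟨hQ1, hQ2⟩ := hQZ p K V H G hG W hW
    have hQW : G.QW W = R' := huniq _ hQ1 (fun hb => hR3 h2 (by
      rw [eq_bot_iff, ← hb]
      exact hle)) hQ2
    have hperp : ∀ v, (∀ w ∈ W, pl G.q w v = 0) → v ∈ W := by
      intro v hv
      obtain ⟨x, hx, hx0⟩ := W.exists_mem_ne_zero_of_ne_bot hW0
      obtain ⟨z, hz⟩ := h0.exists_B hx0
      have h3 : G.si x v ∈ G.RW W := by
        rw [hRW, ← hQW]
        exact Subgroup.subset_closure ⟨x, hx, v, hv, rfl⟩
      have h4 := hR4 _ h3 z
      rw [h0.act x v (hW x hx) (hv x hx), sie, hz, one_smul, one_mul] at h4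
      have h5 : v = pl G.q z v • x - G.q v • x -
          (z + pl G.q z v • x - v - G.q v • x - z) := by abel
      rw [h5]
      exact sub_mem (sub_mem (W.smul_mem _ hx) (W.smul_mem _ hx)) h4
    have hdim := DmZ_dim h0.nd W hW hperp
    obtain ⟨hc1, hc2⟩ := hCn p K V H G h0
    have hc3 := hc2 W hW
    rw [hRW, hcard, hc1] at hc3
    have hK : 1 < Nat.card K := Finite.one_lt_card
    have h3 := (Nat.pow_le_pow_iff_right hK).1 hc3
    rw [hdim] at h3 h7 h8
    set j := Module.finrank K W with hj
    have h4 : j ≤ 4 := by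
      by_contra hcon
      have h5 : 5 ≤ j := by omega
      obtain ⟨m, hm⟩ : ∃ m, j = m + 5 := ⟨j - 5, by omega⟩
      have h6 : j * (j - 1) / 2 ≥ 2 * j := by
        rw [ge_iff_le, Nat.le_div_iff_mul_le two_pos, hm]
        have h9 : m + 5 - 1 = m + 4 := by omega
        rw [h9]
        nlinarith
      omega
    have h5 : j = 4 := by omega
    have h6 := h8 (by omega) W hW
    omega
  · have h1 : Module.finrank K W = 1 := by omega
    obtain ⟨x, hx0, hx⟩ := finrank_eq_one_iff'.1 h1
    have hxV : (x : V) ≠ 0 := fun h => hx0 (Subtype.ext h)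
    have hqx := hW _ x.2
    refine ⟨x, hxV, hqx, (huniq _ (h0.R_pgroup p hqx) ((hFix K V H G h0 x hxV hqx).2.1) ?_).symm⟩
    intro g hg n hn
    refine (h0.P_norm hqx ?_).2 hn
    obtain ⟨c, hc⟩ := hx ⟨G.ac g x, (hg _).2 x.2⟩
    have hc' : c • (x : V) = G.ac g x := congrArg Subtype.val hc
    refine ⟨c, ?_, hc'.symm⟩
    rintro rfl
    rw [zero_smul] at hc'
    exact hxV ((LinearEquiv.map_eq_zero_iff _).1 hc'.symm)

end MP7Z.Ord
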