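import Pool.Agent.Lib.MP_7f581e_Z.Ort.D.Lft
import Pool.Agent.Lib.MP_7f581e_Z.Ort.DAct

/-!
# Orthogonal groups, part D, task Nrm: the normal `p`-subgroups of `P_e`
-/

set_option autoImplicit false

namespace MP7Z.Ord

theorem Nrm_cen (h1 : CenStmt) {p : ℕ} [Fact p.Prime] {K V H : Type} [Field K] [CharP K p]
    [AddCommGroup V] [Module K V] [Group H] [Finite H] {G : SpD K V H} (hs : G.IsSp p) {n : H}
    (hn : IsPel p n) (hc : ∀ r ∈ G.R G.e, n * r = r * n) : n ∈ G.R G.e := by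
  obtain ⟨-, r, hr, z, hz, h⟩ := h1 K V H G hs.toIsS0 n hc
  have hzz : z = r⁻¹ * n := by rw [h, inv_mul_cancel_left]
  have hcomm : Commute r⁻¹ n := by
    have h2 : Commute n r := hc r hr
    exact h2.symm.inv_left
  obtain ⟨k, hk⟩ := hn
  obtain ⟨m, hm⟩ := Lft_pel (hs.toIsS0.R_pgroup p hs.qe) hr
  have hzp : IsPel p z := by
    refine ⟨k + m, ?_⟩
    rw [hzz, hcomm.mul_pow, inv_pow, pow_add, mul_comm (p ^ k), pow_mul r, hm, one_pow, inv_one,
      one_mul, mul_comm, pow_mul, hk, one_pow]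
  have hz1 : z = 1 := by
    refine Lft_one hs.ze hzp ⟨0, one_pow _⟩ ?_
    rw [QuotientGroup.eq]
    rw [mul_one]
    exact (Subgroup.center H).inv_mem hz
  rw [h, hz1, mul_one]
  exact hr

theorem tNrm (h1 : CenStmt) (h2 : IrrStmt) : NrmStmt := by
  intro p _ K V H _ _ _ _ _ _ _ _ G hs N hNP hN hN0 hNn
  have h0 := hs.toIsS0
  have hRP : G.R G.e ≤ G.P G.e := h0.R_le_P h0.qe
  have hsiP : ∀ x v : G.U, G.qU x = 0 → pl G.qU x v = 0 → G.si (x : V) (v : V) ∈ G.P G.e := by
    intro x v hx hv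
    replace hx : G.q (x : V) = 0 := hx
    replace hv : pl G.q (x : V) (v : V) = 0 := hv
    exact ⟨1, one_ne_zero, by rw [(h0.act_U hx hv x.2 v.2).1, one_smul]⟩
  -- the first subgroup
  let A : AddSubgroup G.U :=
    { carrier := {u | G.si G.e (u : V) ∈ N}
      zero_mem' := by
        change G.si G.e (0 : V) ∈ N
        rw [h0.si_zero h0.qe]
        exact N.one_mem
      add_mem' := fun {u v} hu hv => by
        change G.si G.e ((u : V) + (v : V)) ∈ N
        rw [← h0.mul _ _ _ h0.qe u.2.1 v.2.1]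
        exact N.mul_mem hu hv
      neg_mem' := fun {u} hu => by
        change G.si G.e (-(u : V)) ∈ N
        rw [← h0.si_inv h0.qe u.2.1]
        exact N.inv_mem hu }
  have hAinv : ∀ x v : G.U, G.qU x = 0 → pl G.qU x v = 0 → ∀ z ∈ A, sie G.qU x v z ∈ A := by
    intro x v hx hv z hz
    change G.si G.e (sie G.q (x : V) (v : V) (z : V)) ∈ N
    have hx' : G.q (x : V) = 0 := hx
    have hv' : pl G.q (x : V) (v : V) = 0 := hv
    rw [← h0.cnj_e hx' hv' x.2 v.2 z.2]
    exact hNn _ (hsiP x v hx hv) _ hz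
  have hA0 : A ≠ ⊥ := by
    intro hA
    have htriv : ∀ r ∈ N, r ∈ G.R G.e → r = 1 := by
      intro r hrN hr
      obtain ⟨u, hu, rfl⟩ := h0.mem_Re.1 hr
      have h3 : (⟨u, hu⟩ : G.U) ∈ A := hrN
      rw [hA, AddSubgroup.mem_bot] at h3
      have h4 : u = 0 := congrArg Subtype.val h3
      rw [h4, h0.si_zero h0.qe]
    apply hN0
    rw [Subgroup.eq_bot_iff_forall]
    intro n hn
    refine htriv n hn (Nrm_cen h1 hs (Lft_pel hN hn) fun r hr => ?_)
    have h3 : n * r * n⁻¹ * r⁻¹ ∈ N := by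
      have h4 := N.mul_mem hn (hNn r (hRP hr) _ (N.inv_mem hn))
      have h5 : n * r * n⁻¹ * r⁻¹ = n * (r * n⁻¹ * r⁻¹) := by group
      rwa [h5]
    have h4 : n * r * n⁻¹ * r⁻¹ ∈ G.R G.e :=
      (G.R G.e).mul_mem ((h0.P_norm h0.qe (hNP hn)).2 hr) ((G.R G.e).inv_mem hr)
    have h5 := htriv _ h3 h4
    rw [mul_inv_eq_one, mul_inv_eq_iff_eq_mul] at h5
    exact h5
  have hAt : A = ⊤ := h2 K G.U G.qU h0.ndU h0.hyp A hAinv hA0
  have hRN : G.R G.e ≤ N := by
    intro r hr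
    obtain ⟨u, hu, rfl⟩ := h0.mem_Re.1 hr
    have h3 : (⟨u, hu⟩ : G.U) ∈ A := by
      rw [hAt]
      exact AddSubgroup.mem_top _
    exact h3
  -- the second subgroup
  let A' : AddSubgroup G.U :=
    { carrier := {u | ∀ n ∈ N, n * G.si G.e (u : V) = G.si G.e (u : V) * n}
      zero_mem' := fun n _ => by
        change n * G.si G.e (0 : V) = G.si G.e (0 : V) * n
        rw [h0.si_zero h0.qe, mul_one, one_mul]
      add_mem' := fun {u v} hu hv n hn => by
        change n * G.si G.e ((u : V) + (v : V)) = G.si G.e ((u : V) + (v : V)) * n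
        rw [← h0.mul _ _ _ h0.qe u.2.1 v.2.1, ← mul_assoc, hu n hn, mul_assoc, hv n hn, mul_assoc]
      neg_mem' := fun {u} hu n hn => by
        change n * G.si G.e (-(u : V)) = G.si G.e (-(u : V)) * n
        rw [← h0.si_inv h0.qe u.2.1]
        have h3 : Commute n (G.si G.e (u : V)) := hu n hn
        exact h3.inv_right }
  have hAinv' : ∀ x v : G.U, G.qU x = 0 → pl G.qU x v = 0 → ∀ z ∈ A', sie G.qU x v z ∈ A' := by
    intro x v hx hv z hz n hn
    change n * G.si G.e (sie G.q (x : V) (v : V) (z : V)) =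
      G.si G.e (sie G.q (x : V) (v : V) (z : V)) * n
    have hx' : G.q (x : V) = 0 := hx
    have hv' : pl G.q (x : V) (v : V) = 0 := hv
    rw [← h0.cnj_e hx' hv' x.2 v.2 z.2]
    obtain ⟨k, hk⟩ : ∃ k, k = G.si (x : V) (v : V) := ⟨_, rfl⟩
    have hkP : k ∈ G.P G.e := by rw [hk]; exact hsiP x v hx hv
    rw [← hk]
    have h3 : k⁻¹ * n * k ∈ N := by
      have h4 := hNn k⁻¹ ((G.P G.e).inv_mem hkP) n hn
      rwa [inv_inv] at h4
    have h4 := hz _ h3
    have h5 : n * (k * G.si G.e (z : V) * k⁻¹) = k * (k⁻¹ * n * k * G.si G.e (z : V)) * k⁻¹ := by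
      group
    rw [h5, h4]
    group
  have hA0' : A' ≠ ⊥ := by
    intro hA'
    -- the action of `N` on `R_e`
    let act : MulAction N (G.R G.e) :=
      { smul := fun n r => ⟨(n : H) * (r : H) * (n : H)⁻¹,
          (h0.P_norm h0.qe (hNP n.2)).2 r.2⟩
        one_smul := fun r => Subtype.ext (by
          change (1 : H) * (r : H) * (1 : H)⁻¹ = r
          rw [one_mul, inv_one, mul_one])
        mul_smul := fun m n r => Subtype.ext (by
          change ((m : H) * (n : H)) * (r : H) * ((m : H) * (n : H))⁻¹ =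
            (m : H) * ((n : H) * (r : H) * (n : H)⁻¹) * (m : H)⁻¹
          group) }
    have hRp : IsPGroup p (G.R G.e) := h0.R_pgroup p h0.qe
    have hdvd : p ∣ Nat.card (G.R G.e) := by
      obtain ⟨n, hn⟩ := IsPGroup.iff_card.1 hRp
      rw [hn]
      apply dvd_pow_self
      rintro rfl
      rw [pow_zero] at hn
      have h3 : G.R G.e = ⊥ := Subgroup.eq_bot_of_card_eq _ hn
      obtain ⟨w, hw, hqw⟩ := h0.exists_one
      have h4 : G.si G.e w ∈ G.R G.e := h0.si_mem hw.1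
      rw [h3, Subgroup.mem_bot, ← h0.si_zero h0.qe] at h4
      have h5 := h0.si_e_inj hw G.U.zero_mem h4
      rw [h5, QuadraticMap.map_zero] at hqw
      exact zero_ne_one hqw
    obtain ⟨b, hb, hb1⟩ := hN.exists_fixed_point_of_prime_dvd_card_of_fixed_point (G.R G.e) hdvd
      (a := 1) (fun n => Subtype.ext (by
        change (n : H) * (1 : H) * (n : H)⁻¹ = 1
        rw [mul_one, mul_inv_cancel]))
    obtain ⟨u, hu, hbu⟩ := h0.mem_Re.1 b.2
    have h3 : (⟨u, hu⟩ : G.U) ∈ A' := by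
      intro n hn
      have h4 := congrArg Subtype.val (hb ⟨n, hn⟩)
      change n * (b : H) * n⁻¹ = b at h4
      rw [hbu] at h4
      exact mul_inv_eq_iff_eq_mul.1 h4
    rw [hA', AddSubgroup.mem_bot] at h3
    apply hb1
    apply Subtype.ext
    rw [hbu, show u = 0 from congrArg Subtype.val h3, h0.si_zero h0.qe]
    rfl
  have hAt' : A' = ⊤ := h2 K G.U G.qU h0.ndU h0.hyp A' hAinv' hA0'
  refine le_antisymm (fun n hn => ?_) hRN
  refine Nrm_cen h1 hs (Lft_pel hN hn) fun r hr => ?_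
  obtain ⟨u, hu, rfl⟩ := h0.mem_Re.1 hr
  have h3 : (⟨u, hu⟩ : G.U) ∈ A' := by
    rw [hAt']
    exact AddSubgroup.mem_top _
  exact h3 n hn

end MP7Z.Ord
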