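import Pool.Agent.Lib.MP_7f581e_Z.Ort.D.SnC
import Pool.Agent.Lib.MP_7f581e_Z.Ort.D.Mrp

/-!
# Orthogonal groups, automorphisms: the additive maps of `U` defined by an automorphism
-/

set_option autoImplicit false

namespace MP7Z.Ord

section

variable {K V H : Type} [Field K] [AddCommGroup V] [Module K V] [Group H] {G : SpD K V H}

/-- The properties common to `e` and `f`. -/
structure SemX (G : SpD K V H) (x : V) : Prop where
  q : G.q x = 0
  U : ∀ u ∈ G.U, pl G.q x u = 0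
  mem : ∀ h : H, h ∈ G.R x ↔ ∃ u ∈ G.U, h = G.si x u
  inj : ∀ u ∈ G.U, ∀ v ∈ G.U, G.si x u = G.si x v → u = v

theorem SemX_e (h0 : G.IsS0) : SemX G G.e :=
  ⟨h0.qe, fun _ hu => hu.1, fun _ => h0.mem_Re, fun _ hu _ hv h => h0.si_e_inj hu hv h⟩

theorem SemX_f (h0 : G.IsS0) : SemX G G.f :=
  ⟨h0.qf, fun _ hu => hu.2, fun _ => h0.mem_Rf, fun _ hu _ hv h => h0.si_f_inj hu hv h⟩

variable {p : ℕ} [CharP K p]

theorem SemX_inj (h0 : G.IsS0) (hI : MrpInj p H) {x : V} (hx : SemX G x) {u v : V}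
    (hu : u ∈ G.U) (hv : v ∈ G.U) (h : ((G.si x u : H) : H ⧸ Subgroup.center H) =
      ((G.si x v : H) : H ⧸ Subgroup.center H)) : u = v :=
  hx.inj u hu v hv (hI _ _ (Mrp_pel (h0.R_pgroup p hx.q) (h0.si_mem (hx.U u hu)))
    (Mrp_pel (h0.R_pgroup p hx.q) (h0.si_mem (hx.U v hv))) h)

/-- The additive map. -/
theorem SemX_g (h0 : G.IsS0) (hI : MrpInj p H) {x : V} (hx : SemX G x)
    {α : (H ⧸ Subgroup.center H) ≃* (H ⧸ Subgroup.center H)} (hS : G.Snd α x x) :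
    ∃ g : G.U → G.U, (∀ u v, g (u + v) = g u + g v) ∧ Function.Bijective g ∧
      ∀ u : G.U, α ((G.si x (u : V) : H) : H ⧸ Subgroup.center H) =
        ((G.si x (g u : V) : H) : H ⧸ Subgroup.center H) := by
  rw [SnC_iff] at hS
  have h1 : ∀ u : G.U, ∃ u' : G.U, α ((G.si x (u : V) : H) : H ⧸ Subgroup.center H) =
      ((G.si x (u' : V) : H) : H ⧸ Subgroup.center H) := by
    intro u
    obtain ⟨r, hr, hr2⟩ := (hS ((G.si x (u : V) : H) : H ⧸ Subgroup.center H)).2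
      ⟨_, h0.si_mem (hx.U u u.2), rfl⟩
    obtain ⟨u', hu', rfl⟩ := (hx.mem r).1 hr
    exact ⟨⟨u', hu'⟩, hr2.symm⟩
  choose g hg using h1
  refine ⟨g, ?_, ⟨?_, ?_⟩, hg⟩
  · intro u v
    apply Subtype.ext
    refine SemX_inj (p := p) h0 hI hx (g (u + v)).2 (g u + g v).2 ?_
    have h2 : G.si x ((u + v : G.U) : V) = G.si x (u : V) * G.si x (v : V) :=
      (h0.mul x u v hx.q (hx.U u u.2) (hx.U v v.2)).symm
    have h3 : G.si x ((g u + g v : G.U) : V) = G.si x (g u : V) * G.si x (g v : V) :=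
      (h0.mul x _ _ hx.q (hx.U _ (g u).2) (hx.U _ (g v).2)).symm
    rw [← hg (u + v), h2, QuotientGroup.mk_mul, map_mul, hg u, hg v, h3, QuotientGroup.mk_mul]
  · intro u v h
    apply Subtype.ext
    refine SemX_inj (p := p) h0 hI hx u.2 v.2 (α.injective ?_)
    rw [hg u, hg v, h]
  · intro w
    have h2 : α.symm ((G.si x (w : V) : H) : H ⧸ Subgroup.center H) ∈ SnCR G x := by
      rw [← hS, MulEquiv.apply_symm_apply]
      exact ⟨_, h0.si_mem (hx.U w w.2), rfl⟩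
    obtain ⟨r, hr, hr2⟩ := h2
    obtain ⟨u, hu, rfl⟩ := (hx.mem r).1 hr
    refine ⟨⟨u, hu⟩, ?_⟩
    apply Subtype.ext
    refine SemX_inj (p := p) h0 hI hx (g ⟨u, hu⟩).2 w.2 ?_
    rw [← hg ⟨u, hu⟩]
    have hr3 : ((G.si x u : H) : H ⧸ Subgroup.center H) =
      α.symm ((G.si x (w : V) : H) : H ⧸ Subgroup.center H) := hr2
    change α ((G.si x u : H) : H ⧸ Subgroup.center H) = _
    rw [hr3, MulEquiv.apply_symm_apply]

/-- The relation for corresponding elements. -/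
theorem SemX_star (h0 : G.IsS0) (hI : MrpInj p H) {x : V} (hx : SemX G x)
    {α : (H ⧸ Subgroup.center H) ≃* (H ⧸ Subgroup.center H)} {g : G.U → G.U}
    (hg : ∀ u : G.U, α ((G.si x (u : V) : H) : H ⧸ Subgroup.center H) =
        ((G.si x (g u : V) : H) : H ⧸ Subgroup.center H)) {l l' : H}
    (hl : α (l : H ⧸ Subgroup.center H) = (l' : H ⧸ Subgroup.center H)) {c c' : K}
    (hlx : G.ac l x = c • x) (hl'x : G.ac l' x = c' • x) (hlU : ∀ u ∈ G.U, G.ac l u ∈ G.U)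
    (hl'U : ∀ u ∈ G.U, G.ac l' u ∈ G.U) (u : G.U) :
    (g (c • ⟨G.ac l u, hlU u u.2⟩) : V) = c' • G.ac l' (g u) := by
  have h1 : ∀ (k : H) (d : K), G.ac k x = d • x → (∀ u ∈ G.U, G.ac k u ∈ G.U) → ∀ w ∈ G.U,
      k * G.si x w * k⁻¹ = G.si x (d • G.ac k w) := by
    intro k d hk hkU w hw
    rw [h0.cnj k x w hx.q (hx.U w hw), hk, h0.sml d x _ hx.q (hx.U _ (hkU w hw))]
  refine SemX_inj (p := p) h0 hI hx (g _).2 (G.U.smul_mem _ (hl'U _ (g u).2)) ?_
  rw [← hg]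
  change α ((G.si x (c • G.ac l u) : H) : H ⧸ Subgroup.center H) = _
  rw [← h1 l c hlx hlU u u.2, ← h1 l' c' hl'x hl'U _ (g u).2]
  change α ((l : H ⧸ Subgroup.center H) * ((G.si x (u : V) : H) : H ⧸ Subgroup.center H) *
    (l : H ⧸ Subgroup.center H)⁻¹) = (l' : H ⧸ Subgroup.center H) *
      ((G.si x (g u : V) : H) : H ⧸ Subgroup.center H) * (l' : H ⧸ Subgroup.center H)⁻¹
  rw [map_mul, map_mul, map_inv, hl, hg u]

/-- Elements which preserve the lines of `e` and `f` preserve `U`. -/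
theorem SemX_U (h0 : G.IsS0) {l : H} (he : l ∈ G.P G.e) (hf : l ∈ G.P G.f) :
    ∀ u ∈ G.U, G.ac l u ∈ G.U := by
  intro u hu
  obtain ⟨c, hc, h1⟩ := he
  obtain ⟨d, hd, h2⟩ := hf
  constructor
  · have h3 : pl G.q (G.ac l G.e) (G.ac l u) = 0 := by rw [h0.isoB]; exact hu.1
    rw [h1, pl_smull] at h3
    exact (mul_eq_zero.1 h3).resolve_left hc
  · have h3 : pl G.q (G.ac l G.f) (G.ac l u) = 0 := by rw [h0.isoB]; exact hu.2
    rw [h2, pl_smull] at h3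
    exact (mul_eq_zero.1 h3).resolve_left hd

/-- Siegel elements with vectors in `U`. -/
theorem SemX_si (h0 : G.IsS0) {x v : G.U} (hx : G.qU x = 0) (hxv : pl G.qU x v = 0) :
    G.si (x : V) (v : V) ∈ G.P G.e ∧ G.si (x : V) (v : V) ∈ G.P G.f ∧
      G.ac (G.si (x : V) (v : V)) G.e = (1 : K) • G.e ∧
      G.ac (G.si (x : V) (v : V)) G.f = (1 : K) • G.f ∧
      ∀ u : G.U, G.ac (G.si (x : V) (v : V)) u = (sie G.qU x v u : G.U) := by
  have h1 := h0.act_U (x := (x : V)) (v := (v : V)) hx hxv x.2 v.2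
  refine ⟨⟨1, one_ne_zero, by rw [one_smul]; exact h1.1⟩,
    ⟨1, one_ne_zero, by rw [one_smul]; exact h1.2⟩, by rw [one_smul]; exact h1.1,
    by rw [one_smul]; exact h1.2, fun u => ?_⟩
  exact (h0.act (x : V) (v : V) hx hxv (u : V)).trans (G.sie_qU x v u).symm

end

end MP7Z.Ord
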