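import Pool.Agent.Lib.MP_7f581e_Z.Ort.SpecD

/-!
# Orthogonal groups, automorphisms: calculus of `Snd`
-/

set_option autoImplicit false

namespace MP7Z.Ord

section

variable {K V H : Type} [Field K] [AddCommGroup V] [Module K V] [Group H] {G : SpD K V H}

/-- The image of `R_x` in `H / Z(H)`. -/
abbrev SnCR (G : SpD K V H) (x : V) : Subgroup (H ⧸ Subgroup.center H) :=
  (G.R x).map (QuotientGroup.mk' (Subgroup.center H))

theorem SnC_mem {x : V} {t : H ⧸ Subgroup.center H} :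
    t ∈ SnCR G x ↔ ∃ r ∈ G.R x, (r : H ⧸ Subgroup.center H) = t := Iff.rfl

theorem SnC_iff {φ : (H ⧸ Subgroup.center H) ≃* (H ⧸ Subgroup.center H)} {x y : V} :
    G.Snd φ x y ↔ ∀ t, φ t ∈ SnCR G y ↔ t ∈ SnCR G x := by
  constructor
  · intro h t
    have h' : (SnCR G x).map φ.toMonoidHom = SnCR G y := h
    rw [← h']
    constructor
    · rintro ⟨s, hs, hst⟩
      have h1 : s = t := φ.injective hst
      rwa [← h1]
    · intro ht
      exact ⟨t, ht, rfl⟩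
  · intro h
    change (SnCR G x).map φ.toMonoidHom = SnCR G y
    ext t
    constructor
    · rintro ⟨s, hs, rfl⟩
      exact (h s).2 hs
    · intro ht
      refine ⟨φ.symm t, (h _).1 ?_, φ.apply_symm_apply t⟩
      rwa [MulEquiv.apply_symm_apply]

theorem SnC_conj (h0 : G.IsS0) (g : H) {x : V} (hx : G.q x = 0) (t : H ⧸ Subgroup.center H) :
    (g : H ⧸ Subgroup.center H) * t * (g : H ⧸ Subgroup.center H)⁻¹ ∈ SnCR G (G.ac g x) ↔
      t ∈ SnCR G x := by
  constructor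
  · rintro ⟨r, hr, hrt⟩
    have hrt' : (r : H ⧸ Subgroup.center H) =
      (g : H ⧸ Subgroup.center H) * t * (g : H ⧸ Subgroup.center H)⁻¹ := hrt
    refine ⟨g⁻¹ * r * g, ?_, ?_⟩
    · have h1 : g * (g⁻¹ * r * g) * g⁻¹ = r := by group
      have h2 := h0.R_conj g hx (h := g⁻¹ * r * g)
      rw [h1] at h2
      exact h2.1 hr
    · change ((g⁻¹ * r * g : H) : H ⧸ Subgroup.center H) = t
      rw [QuotientGroup.mk_mul, QuotientGroup.mk_mul, QuotientGroup.mk_inv, hrt']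
      group
  · rintro ⟨r, hr, rfl⟩
    exact ⟨g * r * g⁻¹, (h0.R_conj g hx).2 hr, rfl⟩

theorem SnC_smul (h0 : G.IsS0) {x : V} (hx : G.q x = 0) {c : K} (hc : c ≠ 0) :
    SnCR G (c • x) = SnCR G x := by
  rw [SnCR, h0.R_smul hx hc]

/-- Composition with an inner automorphism. -/
theorem SnC_trans (h0 : G.IsS0) {φ : (H ⧸ Subgroup.center H) ≃* (H ⧸ Subgroup.center H)}
    {x y : V} (hy : G.q y = 0) (h : G.Snd φ x y) (g : H) :
    G.Snd (φ.trans (MulAut.conj (g : H ⧸ Subgroup.center H))) x (G.ac g y) := by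
  rw [SnC_iff] at h ⊢
  intro t
  change (g : H ⧸ Subgroup.center H) * φ t * (g : H ⧸ Subgroup.center H)⁻¹ ∈ _ ↔ _
  rw [SnC_conj h0 g hy, h]

theorem SnC_smulr (h0 : G.IsS0) {φ : (H ⧸ Subgroup.center H) ≃* (H ⧸ Subgroup.center H)}
    {x y : V} (hy : G.q y = 0) {c : K} (hc : c ≠ 0) :
    G.Snd φ x (c • y) ↔ G.Snd φ x y := by
  rw [SnC_iff, SnC_iff, SnC_smul h0 hy hc]

/-- Transport along `x = h z`. -/
theorem SnC_left (h0 : G.IsS0) {φ : (H ⧸ Subgroup.center H) ≃* (H ⧸ Subgroup.center H)}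
    {z y : V} (hz : G.q z = 0) (hy : G.q y = 0) {h k : H}
    (hk : φ (h : H ⧸ Subgroup.center H) = (k : H ⧸ Subgroup.center H))
    (hS : G.Snd φ (G.ac h z) y) : G.Snd φ z (G.ac k⁻¹ y) := by
  rw [SnC_iff] at hS ⊢
  intro t
  have h3 : φ ((h : H ⧸ Subgroup.center H) * t * (h : H ⧸ Subgroup.center H)⁻¹) =
      (k : H ⧸ Subgroup.center H) * φ t * (k : H ⧸ Subgroup.center H)⁻¹ := by
    rw [map_mul, map_mul, map_inv, hk]
  rw [← SnC_conj h0 h hz, ← hS, h3]
  have hy' : G.q (G.ac k⁻¹ y) = 0 := by rw [h0.iso, hy]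
  have h1 := SnC_conj h0 k hy' (φ t)
  have h2 : G.ac k (G.ac k⁻¹ y) = y := by
    rw [← LinearEquiv.mul_apply, ← map_mul, mul_inv_cancel, map_one]
    rfl
  rw [h2] at h1
  exact h1.symm

end

end MP7Z.Ord
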