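import Pool.Agent.Lib.MP_7f581e_Z.Ort.SpecD

/-!
# The fixed vectors of a Sylow subgroup (`SylStmt`)
-/

set_option autoImplicit false
set_option linter.unusedSectionVars false

namespace MP7Z.Ord

open MP7Z.Ort Matrix

theorem Syl_two {H : Type} [Group H] {p : ℕ} (P : Sylow p H) (N : Subgroup H)
    (hN : IsPGroup p N) (hn : ∀ g ∈ (P : Subgroup H), ∀ n ∈ N, g * n * g⁻¹ ∈ N) :
    N ≤ (P : Subgroup H) := by
  have h1 : (P : Subgroup H) ≤ Subgroup.normalizer (N : Set H) := by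
    intro g hg
    rw [Subgroup.mem_normalizer_iff]
    intro n
    refine ⟨hn g hg n, fun h => ?_⟩
    have h2 := hn g⁻¹ (inv_mem hg) _ h
    have h3 : g⁻¹ * (g * n * g⁻¹) * g⁻¹⁻¹ = n := by group
    rwa [h3] at h2
  have h2 := IsPGroup.to_sup_of_normal_right' P.isPGroup' hN h1
  have h3 := P.is_maximal' h2 le_sup_left
  calc N ≤ (P : Subgroup H) ⊔ N := le_sup_right
    _ = (P : Subgroup H) := h3

theorem tSyl (fxv : FxVStmt) (fix : FixStmt) : SylStmt := by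
  intro p _ K V H _ _ _ _ _ _ _ _ G h0 h3 P
  refine ⟨?_, fun N hN hn => Syl_two P N hN hn⟩
  obtain ⟨x, hx, hqx, hfx⟩ := (fxv p K V H G h0 h3 P P.isPGroup').1
  have hPx : (P : Subgroup H) ≤ G.P x := fun h hh => ⟨1, one_ne_zero, by rw [hfx h hh, one_smul]⟩
  have hR : G.R x ≤ (P : Subgroup H) :=
    Syl_two P _ (h0.R_pgroup p hqx) fun g hg n hn => (h0.P_norm hqx (hPx hg)).2 hn
  exact ⟨x, hx, hqx, hfx, fun v hv => (fix K V H G h0 x hx hqx).1 v fun h hh => hv h (hR hh)⟩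

end MP7Z.Ord
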